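import Mathlib
import Pool.Agent.H15.Brouwer

/-!
A topological lemma: there is no map to the sphere which extends the stereographic projection of a
closed cell which misses a point.
-/

set_option autoImplicit false
set_option linter.unusedSectionVars false

open Filter Topology Metric
open scoped InnerProductSpace

namespace Pool.Agent.U352.SA

section
variable {P : Type} [NormedAddCommGroup P] [InnerProductSpace ℝ P] [FiniteDimensional ℝ P]

/-- the ambient space of the sphere -/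
abbrev KK (P : Type) [NormedAddCommGroup P] [InnerProductSpace ℝ P] : Type := WithLp 2 (P × ℝ)

/-- the point with the coordinates `a`, `b` -/
def pt (a : P) (b : ℝ) : KK P := WithLp.toLp 2 (a, b)

theorem pt_norm (a : P) (b : ℝ) : ‖pt a b‖ ^ 2 = ‖a‖ ^ 2 + b ^ 2 := by
  rw [WithLp.prod_norm_sq_eq_of_L2]
  show ‖a‖ ^ 2 + ‖b‖ ^ 2 = _
  rw [Real.norm_eq_abs, sq_abs]

theorem pt_cont : Continuous fun p : P × ℝ => pt p.1 p.2 :=
  WithLp.prod_continuous_toLp 2 P ℝ

/-- the inverse of the stereographic projection -/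
noncomputable def st (y : P) : KK P :=
  pt ((2 / (1 + ‖y‖ ^ 2)) • y) ((‖y‖ ^ 2 - 1) / (1 + ‖y‖ ^ 2))

/-- the north pole -/
def NN : KK P := pt 0 1

theorem st_norm (y : P) : ‖st y‖ = 1 := by
  have h : 0 < 1 + ‖y‖ ^ 2 := by positivity
  have h1 : ‖st y‖ ^ 2 = 1 := by
    rw [st, pt_norm, norm_smul, Real.norm_of_nonneg (by positivity)]
    field_simp
    ring
  have h2 : 0 ≤ ‖st y‖ := norm_nonneg _
  nlinarith

theorem NN_norm : ‖(NN : KK P)‖ = 1 := by
  have h1 : ‖(NN : KK P)‖ ^ 2 = 1 := by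
    rw [NN, pt_norm]
    simp
  have h2 : 0 ≤ ‖(NN : KK P)‖ := norm_nonneg _
  nlinarith

theorem pt_sub (a a' : P) (b b' : ℝ) : pt a b - pt a' b' = pt (a - a') (b - b') := rfl

theorem st_sub (y : P) : ‖st y - NN‖ ^ 2 = 4 / (1 + ‖y‖ ^ 2) := by
  have h : 0 < 1 + ‖y‖ ^ 2 := by positivity
  rw [st, NN, pt_sub, pt_norm, sub_zero, norm_smul, Real.norm_of_nonneg (by positivity)]
  field_simp
  ring

theorem st_cont : Continuous (st (P := P)) := by
  have h : ∀ y : P, (1 + ‖y‖ ^ 2) ≠ 0 := fun y => by positivity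
  refine pt_cont.comp (Continuous.prodMk ?_ ?_)
  · exact (continuous_const.div (by fun_prop) h).smul continuous_id
  · exact Continuous.div (by fun_prop) (by fun_prop) h

variable {E : Type} [NormedAddCommGroup E] [NormedSpace ℝ E] [FiniteDimensional ℝ E]

theorem no_missing {φ : P → E} {ψ : E →ₗ[ℝ] P} (hφ : Continuous φ) (hψφ : ∀ y, ψ (φ y) = y)
    {g : E → KK P} (hgc : Continuous g) (hgn : ∀ p, ‖g p‖ = 1)
    (hgi : Tendsto g (cocompact E) (𝓝 NN)) (hgφ : ∀ y, g (φ y) = st y) {q : E} {δ : ℝ}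
    (hδ : 0 < δ) (hq : ∀ y, δ ≤ ‖φ y - q‖) : False := by
  classical
  let yy : KK P → P := fun z => (1 / (1 - z.snd)) • z.fst
  let lam : KK P → ℝ := fun z => 2 / ((1 - z.snd) * (1 + ‖yy z‖ ^ 2))
  let m : KK P → E := fun z => q + lam z • (φ (yy z) - q)
  let F : KK P → KK P := fun z => if z = NN then -NN else -g (m z)
  have hfst : Continuous fun z : KK P => z.fst := WithLp.prod_continuous_ofLp 2 P ℝ |>.fst
  have hsnd : Continuous fun z : KK P => z.snd := WithLp.prod_continuous_ofLp 2 P ℝ |>.snd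
  have hzn : ∀ z : KK P, ‖z‖ ^ 2 = ‖z.fst‖ ^ 2 + z.snd ^ 2 := fun z => by
    rw [WithLp.prod_norm_sq_eq_of_L2, Real.norm_eq_abs, sq_abs]
  have hzpt : ∀ z : KK P, z = pt z.fst z.snd := fun z => rfl
  -- points of the ball
  have hball : ∀ z ∈ closedBall (0 : KK P) 1, z ≠ NN → z.snd < 1 := by
    intro z hz hne
    rw [mem_closedBall_zero_iff] at hz
    have h1 : ‖z‖ ^ 2 ≤ 1 := pow_le_one₀ (norm_nonneg _) hz
    rw [hzn] at h1
    by_contra h
    push Not at h
    have h2 : z.snd = 1 := by nlinarith [sq_nonneg ‖z.fst‖]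
    have h3 : ‖z.fst‖ ^ 2 ≤ 0 := by rw [h2] at h1; linarith
    have h4 : z.fst = 0 := by
      have : ‖z.fst‖ = 0 := by nlinarith [norm_nonneg z.fst, sq_nonneg ‖z.fst‖]
      exact norm_eq_zero.1 this
    apply hne
    rw [hzpt z, h2, h4]
    rfl
  have hyn : ∀ z : KK P, z.snd < 1 → (1 - z.snd) ^ 2 * ‖yy z‖ ^ 2 = ‖z.fst‖ ^ 2 := by
    intro z hz
    have h1 : 0 < 1 - z.snd := by linarith
    show (1 - z.snd) ^ 2 * ‖(1 / (1 - z.snd)) • z.fst‖ ^ 2 = _
    rw [norm_smul, Real.norm_of_nonneg (by positivity)]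
    field_simp
  have hden : ∀ z ∈ closedBall (0 : KK P) 1, z.snd < 1 →
      0 < (1 - z.snd) * (1 + ‖yy z‖ ^ 2) ∧ (1 - z.snd) * (1 + ‖yy z‖ ^ 2) ≤ 2 := by
    intro z hz hz1
    rw [mem_closedBall_zero_iff] at hz
    have h1 : ‖z‖ ^ 2 ≤ 1 := pow_le_one₀ (norm_nonneg _) hz
    rw [hzn] at h1
    have h2 : 0 < 1 - z.snd := by linarith
    have h3 := hyn z hz1
    refine ⟨by positivity, ?_⟩
    have h4 : (1 - z.snd) * ((1 - z.snd) * (1 + ‖yy z‖ ^ 2)) ≤ (1 - z.snd) * 2 := by nlinarith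
    exact le_of_mul_le_mul_left h4 h2
  have hlam1 : ∀ z ∈ closedBall (0 : KK P) 1, z.snd < 1 → 1 ≤ lam z := by
    intro z hz hz1
    obtain ⟨h1, h2⟩ := hden z hz hz1
    show 1 ≤ 2 / ((1 - z.snd) * (1 + ‖yy z‖ ^ 2))
    rw [le_div_iff₀ h1]
    linarith
  -- continuity away from the pole
  have hmc : ∀ z : KK P, z.snd < 1 → ContinuousAt m z := by
    intro z hz
    have h1 : (1 - z.snd) ≠ 0 := by intro h; linarith
    have hyc : ContinuousAt yy z :=
      (continuousAt_const.div (continuousAt_const.sub hsnd.continuousAt) h1).smul hfst.continuousAt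
    have hlc : ContinuousAt lam z := by
      refine continuousAt_const.div ?_ ?_
      · exact (continuousAt_const.sub hsnd.continuousAt).mul
          (continuousAt_const.add (hyc.norm.pow 2))
      · refine mul_ne_zero h1 ?_
        positivity
    exact continuousAt_const.add (hlc.smul ((hφ.continuousAt.comp hyc).sub continuousAt_const))
  -- the behaviour at the pole
  obtain ⟨M, hM0, hM⟩ : ∃ M : ℝ, 0 < M ∧ ∀ y : P, ‖y‖ ≤ M * ‖φ y‖ := by
    let ψc : E →L[ℝ] P := LinearMap.toContinuousLinearMap ψ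
    refine ⟨‖ψc‖ + 1, by positivity, fun y => ?_⟩
    have h1 := ψc.le_opNorm (φ y)
    have h2 : ψc (φ y) = y := hψφ y
    rw [h2] at h1
    nlinarith [norm_nonneg (φ y)]
  have hminf : Tendsto m (𝓝[closedBall (0 : KK P) 1 \ {NN}] NN) (cocompact E) := by
    rw [← Metric.cobounded_eq_cocompact, ← tendsto_norm_atTop_iff_cobounded, Filter.tendsto_atTop]
    intro A₀
    set A : ℝ := max A₀ 0 + ‖q‖ + 1 with hA
    have hA1 : 1 ≤ A := by
      have := le_max_right A₀ 0
      linarith [norm_nonneg q]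
    set R : ℝ := M * (A + ‖q‖) with hR
    have hε : 0 < 2 * δ / (A * (1 + R ^ 2)) := by positivity
    have hsn : ∀ᶠ z in 𝓝 (NN : KK P), 1 - z.snd < 2 * δ / (A * (1 + R ^ 2)) := by
      have h1 : Tendsto (fun z : KK P => 1 - z.snd) (𝓝 NN) (𝓝 (1 - (NN : KK P).snd)) :=
        (continuous_const.sub hsnd).continuousAt
      have h2 : (1 - (NN : KK P).snd) = 0 := by
        show (1 : ℝ) - 1 = 0
        norm_num
      rw [h2] at h1
      exact h1.eventually (gt_mem_nhds hε)
    have hsn' := hsn.filter_mono (nhdsWithin_le_nhds (s := closedBall (0 : KK P) 1 \ {NN}))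
    filter_upwards [hsn', self_mem_nhdsWithin] with z hz hzD
    have hz1 := hball z hzD.1 hzD.2
    have hl := hlam1 z hzD.1 hz1
    have hkey : A ≤ lam z * ‖φ (yy z) - q‖ := by
      rcases le_total R ‖yy z‖ with h | h
      · have h1 := hM (yy z)
        have h2 : A + ‖q‖ ≤ ‖φ (yy z)‖ := by
          have : M * (A + ‖q‖) ≤ M * ‖φ (yy z)‖ := by linarith
          exact le_of_mul_le_mul_left this hM0
        have h3 : ‖φ (yy z)‖ ≤ ‖φ (yy z) - q‖ + ‖q‖ := by
          calc ‖φ (yy z)‖ = ‖(φ (yy z) - q) + q‖ := by rw [sub_add_cancel]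
            _ ≤ _ := norm_add_le _ _
        have h4 : A ≤ ‖φ (yy z) - q‖ := by linarith
        nlinarith [norm_nonneg (φ (yy z) - q)]
      · have h1 := hq (yy z)
        have h2 : 0 < 1 - z.snd := by linarith
        have h3 : ‖yy z‖ ^ 2 ≤ R ^ 2 := pow_le_pow_left₀ (norm_nonneg _) h 2
        have h4 : (1 - z.snd) * (1 + ‖yy z‖ ^ 2) ≤ 2 * δ / A := by
          calc (1 - z.snd) * (1 + ‖yy z‖ ^ 2) ≤ (2 * δ / (A * (1 + R ^ 2))) * (1 + R ^ 2) := by
                gcongr
            _ = 2 * δ / A := by field_simp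
        have h5 : A / δ ≤ lam z := by
          show A / δ ≤ 2 / ((1 - z.snd) * (1 + ‖yy z‖ ^ 2))
          rw [le_div_iff₀ (by positivity)]
          calc A / δ * ((1 - z.snd) * (1 + ‖yy z‖ ^ 2)) ≤ A / δ * (2 * δ / A) := by gcongr
            _ = 2 := by field_simp
        calc A = A / δ * δ := by field_simp
          _ ≤ lam z * ‖φ (yy z) - q‖ := by gcongr
    have h6 : lam z * ‖φ (yy z) - q‖ ≤ ‖m z‖ + ‖q‖ := by
      have h7 : ‖lam z • (φ (yy z) - q)‖ = lam z * ‖φ (yy z) - q‖ := by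
        rw [norm_smul, Real.norm_of_nonneg (by linarith)]
      rw [← h7]
      have h8 : lam z • (φ (yy z) - q) = m z - q := by
        show _ = (q + lam z • (φ (yy z) - q)) - q
        abel
      rw [h8]
      exact norm_sub_le _ _
    have h9 := le_max_left A₀ 0
    linarith
  have hFc : ContinuousOn F (closedBall (0 : KK P) 1) := by
    intro z hz
    by_cases hzN : z = NN
    · subst hzN
      have h1 : Tendsto F (𝓝[closedBall (0 : KK P) 1 \ {NN}] NN) (𝓝 (F NN)) := by
        have h2 : F NN = -NN := if_pos rfl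
        rw [h2]
        refine ((hgi.comp hminf).neg).congr' ?_
        filter_upwards [self_mem_nhdsWithin] with z hz
        have hz2 : z ≠ NN := hz.2
        show -g (m z) = if z = NN then -NN else -g (m z)
        rw [if_neg hz2]
      exact continuousWithinAt_sdiff_self.1 h1
    · have hz1 := hball z hz hzN
      have h1 : ContinuousAt (fun z => -g (m z)) z := (hgc.continuousAt.comp (hmc z hz1)).neg
      refine (h1.congr ?_).continuousWithinAt
      filter_upwards [isOpen_ne.mem_nhds hzN] with w hw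
      show -g (m w) = if w = NN then -NN else -g (m w)
      rw [if_neg hw]
  have hFm : Set.MapsTo F (closedBall (0 : KK P) 1) (closedBall (0 : KK P) 1) := by
    intro z _
    rw [mem_closedBall_zero_iff]
    show ‖(if z = NN then -NN else -g (m z) : KK P)‖ ≤ 1
    split_ifs
    · rw [norm_neg, NN_norm]
    · rw [norm_neg, hgn]
  obtain ⟨z, hz, hzF⟩ := Pool.Agent.H15.Brouwer.brouwer (isCompact_closedBall (0 : KK P) 1)
    (convex_closedBall 0 1) ⟨0, by simp⟩ F hFc hFm
  have hhalf : ∀ v : KK P, ‖v‖ = 1 → v ≠ -v := by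
    intro v hv h
    have h1 : (2 : ℝ) • v = 0 := by
      rw [two_smul]
      nth_rewrite 2 [h]
      exact add_neg_cancel v
    have h2 : v = 0 := (smul_eq_zero.1 h1).resolve_left two_ne_zero
    rw [h2, norm_zero] at hv
    exact zero_ne_one hv
  by_cases hzN : z = NN
  · rw [hzN] at hzF
    have h1 : F NN = -NN := if_pos rfl
    exact hhalf NN NN_norm (hzF.symm.trans h1)
  · have h1 : F z = -g (m z) := if_neg hzN
    rw [h1] at hzF
    have hz1 := hball z hz hzN
    have hn : ‖z‖ = 1 := by rw [← hzF, norm_neg, hgn]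
    have h2 : ‖z.fst‖ ^ 2 + z.snd ^ 2 = 1 := by rw [← hzn, hn]; norm_num
    have h3 := hyn z hz1
    have h4 : 0 < 1 - z.snd := by linarith
    have h5 : (1 - z.snd) * (1 + ‖yy z‖ ^ 2) = 2 := by
      have : (1 - z.snd) * ((1 - z.snd) * (1 + ‖yy z‖ ^ 2)) = (1 - z.snd) * 2 := by nlinarith
      exact mul_left_cancel₀ h4.ne' this
    have h6 : lam z = 1 := by
      show 2 / ((1 - z.snd) * (1 + ‖yy z‖ ^ 2)) = 1
      rw [h5]
      norm_num
    have h7 : m z = φ (yy z) := by
      show q + lam z • (φ (yy z) - q) = _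
      rw [h6, one_smul]
      abel
    rw [h7, hgφ] at hzF
    have h8 : st (yy z) = z := by
      have h9 : 1 + ‖yy z‖ ^ 2 = 2 / (1 - z.snd) := by
        rw [eq_div_iff h4.ne']
        linarith
      have h10 : 2 / (1 + ‖yy z‖ ^ 2) = 1 - z.snd := by
        rw [h9]; field_simp
      have h11 : (‖yy z‖ ^ 2 - 1) / (1 + ‖yy z‖ ^ 2) = z.snd := by
        have h12 : ‖yy z‖ ^ 2 - 1 = 2 / (1 - z.snd) - 2 := by linarith
        rw [h12, h9]
        field_simp
        ring
      rw [st, h10, h11, hzpt z]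
      have h13 : (1 - z.snd) • yy z = z.fst := by
        show (1 - z.snd) • ((1 / (1 - z.snd)) • z.fst) = _
        rw [smul_smul, mul_one_div_cancel h4.ne', one_smul]
      exact congrArg (fun a => pt a z.snd) h13
    rw [h8] at hzF
    exact hhalf z hn hzF.symm

end

end Pool.Agent.U352.SA
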