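import Pool.Agent.U352.SA.Min
import Pool.Agent.U352.UH.Ex

/-!
The Euler-Lagrange equation.
-/

set_option autoImplicit false
set_option linter.unusedSectionVars false

open Filter Topology
open scoped InnerProductSpace

namespace Pool.Agent.U352.SA

variable {V : Type} [NormedAddCommGroup V] [InnerProductSpace ℝ V] [FiniteDimensional ℝ V]
  [CompleteSpace V]

/-- the logarithm of `Rᵀ R` -/
noncomputable def Ylog (R : V →L[ℝ] V) : V →L[ℝ] V :=
  ∑ i, Real.log (ev R i) • (innerSL ℝ (eb R i)).smulRight (eb R i)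

theorem Ylog_apply (R : V →L[ℝ] V) (v : V) :
    Ylog R v = ∑ i, Real.log (ev R i) • (⟪eb R i, v⟫_ℝ • eb R i) := by
  rw [Ylog, sum_apply]
  rfl

theorem Ylog_eig {R : V →L[ℝ] V} {v : V} {μ : ℝ} (h : gram R v = μ • v) :
    Ylog R v = Real.log μ • v := by
  rw [Ylog_apply]
  conv_rhs => rw [← (eb R).sum_repr' v, Finset.smul_sum]
  refine Finset.sum_congr rfl fun i _ => ?_
  have h1 : μ * ⟪eb R i, v⟫_ℝ = ev R i * ⟪eb R i, v⟫_ℝ := by
    have h2 : ⟪eb R i, gram R v⟫_ℝ = μ * ⟪eb R i, v⟫_ℝ := by rw [h, inner_smul_right]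
    rw [← h2]
    have h3 := gram_symm R (eb R i) v
    have h4 : ⟪gram R (eb R i), v⟫_ℝ = ⟪eb R i, gram R v⟫_ℝ := h3
    rw [← h4, gram_eb, inner_smul_left]
    simp
  by_cases h0 : ⟪eb R i, v⟫_ℝ = 0
  · rw [h0, zero_smul, smul_zero, smul_zero]
  · rw [mul_right_cancel₀ h0 h1]

theorem Ylog_eb (R : V →L[ℝ] V) (i) : Ylog R (eb R i) = Real.log (ev R i) • eb R i :=
  Ylog_eig (gram_eb R i)

theorem Ylog_symm (R : V →L[ℝ] V) (x y : V) : ⟪Ylog R x, y⟫_ℝ = ⟪x, Ylog R y⟫_ℝ := by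
  rw [Ylog_apply, Ylog_apply, sum_inner, inner_sum]
  refine Finset.sum_congr rfl fun i _ => ?_
  rw [inner_smul_left, inner_smul_left, inner_smul_right, inner_smul_right,
    real_inner_comm (eb R i) x]
  simp only [conj_trivial]
  ring

theorem Ylog_inv {R R' : V →L[ℝ] V} (h : R' * R = 1) (h' : R * R' = 1) :
    Ylog R' * R = -(R * Ylog R) := by
  have hx : ∀ x, R' (R x) = x := fun x => by
    have := congrArg (fun A : V →L[ℝ] V => A x) h
    simpa using this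
  have hx' : ∀ x, R (R' x) = x := fun x => by
    have := congrArg (fun A : V →L[ℝ] V => A x) h'
    simpa using this
  have h1 : ∀ i, Ylog R' (R (eb R i)) = -(R (Ylog R (eb R i))) := by
    intro i
    have hg : gram R' (R (eb R i)) = (ev R i)⁻¹ • R (eb R i) := by
      refine ext_inner_right ℝ fun z => ?_
      rw [gram_inner, hx, inner_smul_left]
      have h2 : ⟪R (eb R i), z⟫_ℝ = ev R i * ⟪eb R i, R' z⟫_ℝ := by
        conv_lhs => rw [← hx' z]
        rw [← gram_inner, gram_eb, inner_smul_left]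
        simp
      rw [h2]
      simp only [conj_trivial]
      rw [← mul_assoc, inv_mul_cancel₀ (ev_pos h i).ne', one_mul]
    rw [Ylog_eig hg, Ylog_eb, map_smul, Real.log_inv, neg_smul]
  have h2 : ((Ylog R' * R : V →L[ℝ] V) : V →ₗ[ℝ] V) = ((-(R * Ylog R) : V →L[ℝ] V) : V →ₗ[ℝ] V) :=
    (eb R).toBasis.ext fun i => by
      rw [OrthonormalBasis.coe_toBasis]
      exact h1 i
  ext v
  exact LinearMap.congr_fun h2 v

theorem Ylog_logOf {R R' : V →L[ℝ] V} (h : R' * R = 1) :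
    LogOf (Ylog R : V →ₗ[ℝ] V) (R : V →ₗ[ℝ] V) :=
  ⟨_, inferInstance, eb R, fun i => Real.log (ev R i), Ylog_eb R,
    fun i => by rw [Real.exp_log (ev_pos h i)]; exact inner_eb_self R i,
    fun i j hij => inner_eb R i j hij⟩

/-- the trace -/
noncomputable def tr (Z : V →L[ℝ] V) : ℝ := LinearMap.trace ℝ V (Z : V →ₗ[ℝ] V)

theorem tr_mul_comm (A B : V →L[ℝ] V) : tr (A * B) = tr (B * A) :=
  LinearMap.trace_mul_comm ℝ (A : V →ₗ[ℝ] V) (B : V →ₗ[ℝ] V)

theorem tr_sum {α : Type} (S : Finset α) (A : α → V →L[ℝ] V) :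
    tr (∑ s ∈ S, A s) = ∑ s ∈ S, tr (A s) := by
  classical
  induction S using Finset.induction_on with
  | empty => simp [tr]
  | insert a s ha ih =>
    rw [Finset.sum_insert ha, Finset.sum_insert ha, ← ih]
    exact map_add (LinearMap.trace ℝ V) (A a : V →ₗ[ℝ] V) _

theorem tr_neg (A : V →L[ℝ] V) : tr (-A) = -tr A := map_neg (LinearMap.trace ℝ V) (A : V →ₗ[ℝ] V)

theorem tr_Ylog (R Z : V →L[ℝ] V) :
    tr (Z * Ylog R) = ∑ i, Real.log (ev R i) * ⟪eb R i, Z (eb R i)⟫_ℝ := by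
  rw [tr, LinearMap.trace_eq_sum_inner _ (eb R)]
  refine Finset.sum_congr rfl fun i _ => ?_
  show ⟪eb R i, Z (Ylog R (eb R i))⟫_ℝ = _
  rw [Ylog_eb, map_smul, inner_smul_right]

variable {Γ : Type} [Group Γ]

theorem crit {S : Finset Γ} (hS : ∀ s ∈ S, s⁻¹ ∈ S) {R : Γ → V →L[ℝ] V}
    (hR : ∀ s, R s⁻¹ * R s = 1)
    (hmin : ∀ g : (V →L[ℝ] V)ˣ, ∑ s ∈ S, Lam (R s) ≤ ∑ s ∈ S, Lam (cj g (R s))) :
    ∑ s ∈ S, Ylog (R s) = 0 := by
  classical
  have hR' : ∀ s, R s * R s⁻¹ = 1 := fun s => by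
    have := hR s⁻¹
    rwa [inv_inv] at this
  set X := ∑ s ∈ S, Ylog (R s) with hX
  let g : ℝ → (V →L[ℝ] V)ˣ := fun t => ⟨NormedSpace.exp (t • X), NormedSpace.exp (t • -X), by
      rw [smul_neg]; exact UH.ex_mul_neg (t • X), by
      rw [smul_neg]; exact UH.ex_neg_mul (t • X)⟩
  have hg : ∀ t A, cj (g t) A = NormedSpace.exp (t • X) * A * NormedSpace.exp (t • -X) :=
    fun t A => rfl
  have hder : ∀ A : V →L[ℝ] V, HasDerivAt (fun t => cj (g t) A) (X * A - A * X) 0 := by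
    intro A
    have h1 : HasDerivAt (fun t : ℝ => NormedSpace.exp (t • X)) X 0 := by
      have := hasDerivAt_exp_smul_const (𝕂 := ℝ) X 0
      rwa [zero_smul, NormedSpace.exp_zero, one_mul] at this
    have h2 : HasDerivAt (fun t : ℝ => NormedSpace.exp (t • -X)) (-X) 0 := by
      have := hasDerivAt_exp_smul_const (𝕂 := ℝ) (-X) 0
      rwa [zero_smul, NormedSpace.exp_zero, one_mul] at this
    have h3 := (h1.mul_const A).mul h2
    rw [zero_smul, zero_smul, NormedSpace.exp_zero, mul_one, one_mul, mul_neg] at h3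
    rw [sub_eq_add_neg]
    exact h3
  have h00 : ∀ A, cj (g 0) A = A := by
    intro A
    rw [hg, zero_smul, zero_smul, NormedSpace.exp_zero, mul_one, one_mul]
  -- bounds
  set M : ℝ := 1 + ∑ s ∈ S, (‖R s‖ + ‖R s⁻¹‖) with hM
  have hsum0 : 0 ≤ ∑ s ∈ S, (‖R s‖ + ‖R s⁻¹‖) := Finset.sum_nonneg fun _ _ => by positivity
  have hM1 : 1 ≤ M := by linarith
  have hRM : ∀ s ∈ S, ‖R s‖ + 1 ≤ M ∧ ‖R s⁻¹‖ + 1 ≤ M := by
    intro s hs
    have h1 : ‖R s‖ + ‖R s⁻¹‖ ≤ ∑ s ∈ S, (‖R s‖ + ‖R s⁻¹‖) :=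
      Finset.single_le_sum (f := fun s => ‖R s‖ + ‖R s⁻¹‖) (fun _ _ => by positivity) hs
    exact ⟨by linarith [norm_nonneg (R s⁻¹)], by linarith [norm_nonneg (R s)]⟩
  obtain ⟨C, hC, hkl⟩ := klein (V := V) hM1
  have hnear : ∀ A : V →L[ℝ] V, ∀ᶠ t in 𝓝 (0 : ℝ), ‖cj (g t) A‖ ≤ ‖A‖ + 1 := by
    intro A
    have h1 := (hder A).continuousAt.norm
    have h2 : Tendsto (fun t => ‖cj (g t) A‖) (𝓝 0) (𝓝 ‖A‖) := by
      have := h1.tendsto
      rwa [h00] at this
    exact (h2.eventually (gt_mem_nhds (show ‖A‖ < ‖A‖ + 1 by linarith))).mono fun t ht => ht.le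
  let G : ℝ → ℝ := fun t => ∑ s ∈ S, ∑ i, (2 * (Real.log (ev (R s) i) / ev (R s) i) *
      (‖cj (g t) (R s) (eb (R s) i)‖ ^ 2 - ev (R s) i) +
        C * ‖(gram (cj (g t) (R s)) - gram (R s)) (eb (R s) i)‖ ^ 2)
  have hG0 : G 0 = 0 := by
    refine Finset.sum_eq_zero fun s _ => Finset.sum_eq_zero fun i _ => ?_
    rw [h00, ← inner_eb_self (R s) i, real_inner_self_eq_norm_sq, sub_self, mul_zero, sub_self]
    simp
  have hGpos : ∀ᶠ t in 𝓝 (0 : ℝ), G 0 ≤ G t := by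
    have h1 : ∀ᶠ t in 𝓝 (0 : ℝ), ∀ s ∈ S, ‖cj (g t) (R s)‖ ≤ M ∧ ‖cj (g t) (R s⁻¹)‖ ≤ M := by
      rw [Filter.eventually_all_finset]
      intro s hs
      filter_upwards [hnear (R s), hnear (R s⁻¹)] with t h1 h2
      exact ⟨h1.trans (hRM s hs).1, h2.trans (hRM s hs).2⟩
    filter_upwards [h1] with t ht
    rw [hG0]
    have h2 := hmin (g t)
    have h3 : ∑ s ∈ S, Lam (cj (g t) (R s)) ≤ ∑ s ∈ S, Lam (R s) + G t := by
      show _ ≤ _ + ∑ s ∈ S, _
      rw [← Finset.sum_add_distrib]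
      refine Finset.sum_le_sum fun s hs => ?_
      have h4 := hkl (R s) (R s⁻¹) (cj (g t) (R s)) (cj (g t) (R s⁻¹)) (hR s)
        (by rw [cj_mul, hR, cj_one]) (by linarith [(hRM s hs).1]) (by linarith [(hRM s hs).2])
        (ht s hs).1 (ht s hs).2
      refine h4.trans (le_of_eq ?_)
      rw [Lam, ← Finset.sum_add_distrib]
      refine Finset.sum_congr rfl fun i _ => ?_
      ring
    linarith
  -- the derivative
  have hGder : HasDerivAt G (∑ s ∈ S, ∑ i, (2 * (Real.log (ev (R s) i) / ev (R s) i) *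
      (2 * ⟪R s (eb (R s) i), (X * R s - R s * X) (eb (R s) i)⟫_ℝ))) 0 := by
    refine HasDerivAt.fun_sum fun s _ => HasDerivAt.fun_sum fun i _ => ?_
    have h1 : HasDerivAt (fun t => cj (g t) (R s) (eb (R s) i))
        ((X * R s - R s * X) (eb (R s) i)) 0 := by
      have := (hder (R s)).clm_apply (hasDerivAt_const (0 : ℝ) (eb (R s) i))
      simpa using this
    have h2 := h1.norm_sq
    rw [h00] at h2
    have h3 : HasDerivAt (fun t => (gram (cj (g t) (R s)) - gram (R s)) (eb (R s) i))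
        ((star (X * R s - R s * X) * R s + star (R s) * (X * R s - R s * X)) (eb (R s) i)) 0 := by
      have h4 := (hder (R s)).star.mul (hder (R s))
      rw [h00] at h4
      have h5 : HasDerivAt (fun t => gram (cj (g t) (R s)) - gram (R s))
          (star (X * R s - R s * X) * R s + star (R s) * (X * R s - R s * X)) 0 :=
        h4.sub_const (gram (R s))
      have := h5.clm_apply (hasDerivAt_const (0 : ℝ) (eb (R s) i))
      simpa using this
    have h4 := h3.norm_sq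
    rw [h00, sub_self, zero_apply, inner_zero_left, mul_zero] at h4
    have h5 := ((h2.sub_const (ev (R s) i)).const_mul
      (2 * (Real.log (ev (R s) i) / ev (R s) i))).add (h4.const_mul C)
    rw [mul_zero, add_zero] at h5
    exact h5
  have hD := IsLocalMin.hasDerivAt_eq_zero (show IsLocalMin G 0 from hGpos) hGder
  -- compute
  have hterm : ∀ s ∈ S, ∑ i, (2 * (Real.log (ev (R s) i) / ev (R s) i) *
      (2 * ⟪R s (eb (R s) i), (X * R s - R s * X) (eb (R s) i)⟫_ℝ)) =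
      -4 * tr (X * Ylog (R s⁻¹)) - 4 * tr (X * Ylog (R s)) := by
    intro s _
    have h1 : tr (X * Ylog (R s⁻¹)) = -tr (R s⁻¹ * X * R s * Ylog (R s)) := by
      have h2 : Ylog (R s⁻¹) = -(R s * Ylog (R s) * R s⁻¹) := by
        have h3 := Ylog_inv (hR s) (hR' s)
        calc Ylog (R s⁻¹) = Ylog (R s⁻¹) * (R s * R s⁻¹) := by rw [hR', mul_one]
          _ = Ylog (R s⁻¹) * R s * R s⁻¹ := by rw [mul_assoc]
          _ = _ := by rw [h3, neg_mul]
      rw [h2, mul_neg, tr_neg]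
      have h4 : tr (X * (R s * Ylog (R s) * R s⁻¹)) = tr (R s⁻¹ * X * R s * Ylog (R s)) := by
        have e1 : X * (R s * Ylog (R s) * R s⁻¹) = (X * R s * Ylog (R s)) * R s⁻¹ := by
          simp only [mul_assoc]
        rw [e1, tr_mul_comm]
        simp only [mul_assoc]
      rw [h4]
    rw [h1, tr_Ylog, tr_Ylog]
    have e2 : -4 * -(∑ i, Real.log (ev (R s) i) *
          ⟪eb (R s) i, (R s⁻¹ * X * R s) (eb (R s) i)⟫_ℝ) -
        4 * ∑ i, Real.log (ev (R s) i) * ⟪eb (R s) i, X (eb (R s) i)⟫_ℝ =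
        ∑ i, (4 * (Real.log (ev (R s) i) *
          ⟪eb (R s) i, (R s⁻¹ * X * R s) (eb (R s) i)⟫_ℝ) -
          4 * (Real.log (ev (R s) i) * ⟪eb (R s) i, X (eb (R s) i)⟫_ℝ)) := by
      rw [Finset.sum_sub_distrib, ← Finset.mul_sum, ← Finset.mul_sum]
      ring
    rw [e2]
    refine Finset.sum_congr rfl fun i _ => ?_
    have hpos := ev_pos (hR s) i
    have h5 : ∀ z, ⟪R s (eb (R s) i), z⟫_ℝ = ev (R s) i * ⟪eb (R s) i, R s⁻¹ z⟫_ℝ := by
      intro z
      have hx' : R s (R s⁻¹ z) = z := by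
        have := congrArg (fun A : V →L[ℝ] V => A z) (hR' s)
        simpa using this
      conv_lhs => rw [← hx']
      rw [← gram_inner, gram_eb, inner_smul_left]
      simp
    rw [h5]
    have h6 : R s⁻¹ ((X * R s - R s * X) (eb (R s) i)) =
        (R s⁻¹ * X * R s) (eb (R s) i) - X (eb (R s) i) := by
      have h7 : R s⁻¹ * (X * R s - R s * X) = R s⁻¹ * X * R s - X := by
        rw [mul_sub, ← mul_assoc, ← mul_assoc, hR, one_mul]
      have := congrArg (fun A : V →L[ℝ] V => A (eb (R s) i)) h7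
      simpa using this
    rw [h6, inner_sub_right]
    field_simp
    ring
  rw [Finset.sum_congr rfl hterm, Finset.sum_sub_distrib, ← Finset.mul_sum, ← Finset.mul_sum] at hD
  have h1 : ∑ s ∈ S, tr (X * Ylog (R s⁻¹)) = ∑ s ∈ S, tr (X * Ylog (R s)) := by
    refine Finset.sum_bij (fun s _ => s⁻¹) (fun s hs => hS s hs) (fun a _ b _ hab => inv_inj.1 hab)
      (fun b hb => ⟨b⁻¹, hS b hb, inv_inv b⟩) fun s _ => rfl
  have h2 : ∑ s ∈ S, tr (X * Ylog (R s)) = tr (X * X) := by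
    rw [← tr_sum, ← Finset.mul_sum]
  rw [h1, h2] at hD
  have h3 : tr (X * X) = 0 := by linarith
  have hXs : ∀ x y, ⟪X x, y⟫_ℝ = ⟪x, X y⟫_ℝ := by
    intro x y
    rw [hX, sum_apply, sum_apply, sum_inner, inner_sum]
    exact Finset.sum_congr rfl fun s _ => Ylog_symm _ _ _
  set f := stdOrthonormalBasis ℝ V with hf
  rw [tr, LinearMap.trace_eq_sum_inner _ f] at h3
  have h4 : ∀ i, ⟪f i, ((X * X : V →L[ℝ] V) : V →ₗ[ℝ] V) (f i)⟫_ℝ = ‖X (f i)‖ ^ 2 := by
    intro i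
    show ⟪f i, X (X (f i))⟫_ℝ = _
    rw [← hXs, real_inner_self_eq_norm_sq]
  rw [Finset.sum_congr rfl fun i _ => h4 i, Finset.sum_eq_zero_iff_of_nonneg
    fun i _ => sq_nonneg _] at h3
  have h5 : ∀ i, X (f i) = 0 := fun i =>
    norm_eq_zero.1 (pow_eq_zero_iff two_ne_zero |>.1 (h3 i (Finset.mem_univ i)))
  have h6 : (X : V →ₗ[ℝ] V) = 0 := f.toBasis.ext fun i => by
    rw [OrthonormalBasis.coe_toBasis]
    exact h5 i
  ext v
  exact LinearMap.congr_fun h6 v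

end Pool.Agent.U352.SA
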