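import Mathlib

/-!
Polynomial functions and maps on finite-dimensional spaces.
-/

set_option autoImplicit false
set_option linter.unusedSectionVars false

open Filter Topology

namespace Pool.Agent.U352.SA

/-- the affine functions -/
def affF (E : Type) [AddCommGroup E] [Module ℝ E] : Submodule ℝ (E → ℝ) where
  carrier := {f | ∃ (l : E →ₗ[ℝ] ℝ) (c : ℝ), f = fun x => l x + c}
  add_mem' := by
    rintro _ _ ⟨l, c, rfl⟩ ⟨l', c', rfl⟩
    refine ⟨l + l', c + c', funext fun x => ?_⟩
    simp only [Pi.add_apply, LinearMap.add_apply]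
    ring
  zero_mem' := ⟨0, 0, funext fun x => by simp⟩
  smul_mem' := by
    rintro a _ ⟨l, c, rfl⟩
    refine ⟨a • l, a * c, funext fun x => ?_⟩
    simp only [Pi.smul_apply, LinearMap.smul_apply, smul_eq_mul]
    ring

section
variable {E F : Type} [AddCommGroup E] [Module ℝ E] [AddCommGroup F] [Module ℝ F]

theorem one_mem_affF : (1 : E → ℝ) ∈ affF E := ⟨0, 1, funext fun x => by simp⟩

theorem lin_mem_affF (l : E →ₗ[ℝ] ℝ) : (fun x => l x) ∈ affF E := ⟨l, 0, funext fun x => by simp⟩

theorem pow_succ_le (n : ℕ) : affF E ^ n ≤ affF E ^ (n + 1) := by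
  intro f hf
  rw [pow_succ]
  have := Submodule.mul_mem_mul hf (one_mem_affF (E := E))
  rwa [mul_one] at this

theorem pow_mono {n m : ℕ} (h : n ≤ m) : affF E ^ n ≤ affF E ^ m := by
  induction m, h using Nat.le_induction with
  | base => exact le_rfl
  | succ m _ ih => exact ih.trans (pow_succ_le m)

theorem const_mem (n : ℕ) (c : ℝ) : (fun _ : E => c) ∈ affF E ^ n := by
  have h1 : (1 : E → ℝ) ∈ affF E ^ 0 := by
    rw [pow_zero]
    exact Submodule.one_le.1 le_rfl
  have h2 := (affF E ^ n).smul_mem c (pow_mono (Nat.zero_le n) h1)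
  convert h2 using 1
  funext x
  simp

theorem fg_affF [FiniteDimensional ℝ E] : (affF E).FG := by
  let T : ((E →ₗ[ℝ] ℝ) × ℝ) →ₗ[ℝ] (E → ℝ) :=
    { toFun := fun p x => p.1 x + p.2
      map_add' := fun p p' => by
        funext x
        simp only [Prod.fst_add, Prod.snd_add, LinearMap.add_apply, Pi.add_apply]
        ring
      map_smul' := fun c p => by
        funext x
        simp only [Prod.smul_fst, Prod.smul_snd, LinearMap.smul_apply, Pi.smul_apply, smul_eq_mul,
          RingHom.id_apply]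
        ring }
  have : affF E = LinearMap.range T := by
    ext f
    constructor
    · rintro ⟨l, c, rfl⟩
      exact ⟨(l, c), rfl⟩
    · rintro ⟨⟨l, c⟩, rfl⟩
      exact ⟨l, c, rfl⟩
  rw [this]
  exact Module.Finite.iff_fg.1 (Module.Finite.range T)

theorem fg_pow [FiniteDimensional ℝ E] (n : ℕ) : (affF E ^ n).FG := fg_affF.pow n

/-- composition -/
def compA (g : F → E) : (E → ℝ) →ₐ[ℝ] (F → ℝ) where
  toFun f := f ∘ g
  map_one' := rfl
  map_mul' _ _ := rfl
  map_zero' := rfl
  map_add' _ _ := rfl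
  commutes' _ := rfl

theorem comp_mem {g : F → E} {k : ℕ} (hg : ∀ l : E →ₗ[ℝ] ℝ, (fun x => l (g x)) ∈ affF F ^ k)
    {f : E → ℝ} {n : ℕ} (hf : f ∈ affF E ^ n) : (fun x => f (g x)) ∈ affF F ^ (k * n) := by
  have h1 : (affF E).map (compA g).toLinearMap ≤ affF F ^ k := by
    rintro _ ⟨f, ⟨l, c, rfl⟩, rfl⟩
    exact (affF F ^ k).add_mem (hg l) (const_mem k c)
  have h2 : (compA g).toLinearMap f ∈ (affF E ^ n).map (compA g).toLinearMap := ⟨f, hf, rfl⟩
  rw [Submodule.map_pow] at h2
  rw [pow_mul]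
  exact pow_le_pow_left' h1 n h2

/-- a polynomial map of degree at most `n` -/
def IsPolN (n : ℕ) (q : E → F) : Prop := ∀ l : F →ₗ[ℝ] ℝ, (fun x => l (q x)) ∈ affF E ^ n

/-- a polynomial map -/
def IsPol (q : E → F) : Prop := ∃ n, IsPolN n q

theorem IsPolN.mono {n m : ℕ} (h : n ≤ m) {q : E → F} (hq : IsPolN n q) : IsPolN m q :=
  fun l => pow_mono h (hq l)

theorem IsPol.comp {G : Type} [AddCommGroup G] [Module ℝ G] {q : E → F} {g : G → E}
    (hq : IsPol q) (hg : IsPol g) : IsPol (fun x => q (g x)) := by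
  obtain ⟨n, hn⟩ := hq
  obtain ⟨k, hk⟩ := hg
  exact ⟨k * n, fun l => comp_mem hk (hn l)⟩

theorem IsPol.linear (T : E →ₗ[ℝ] F) : IsPol (fun x => T x) :=
  ⟨1, fun l => by rw [pow_one]; exact lin_mem_affF (l ∘ₗ T)⟩

theorem IsPol.const (c : F) : IsPol (fun _ : E => c) := ⟨0, fun l => const_mem 0 (l c)⟩

theorem IsPol.add {q q' : E → F} (hq : IsPol q) (hq' : IsPol q') : IsPol (fun x => q x + q' x) := by
  obtain ⟨n, hn⟩ := hq
  obtain ⟨m, hm⟩ := hq'
  refine ⟨max n m, fun l => ?_⟩
  have := (affF E ^ (max n m)).add_mem (pow_mono (le_max_left n m) (hn l))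
    (pow_mono (le_max_right n m) (hm l))
  convert this using 1
  funext x
  simp

theorem IsPol.clm (T : F →ₗ[ℝ] F) {q : E → F} (hq : IsPol q) : IsPol (fun x => T (q x)) :=
  (IsPol.linear T).comp hq

theorem IsPol.sub {q q' : E → F} (hq : IsPol q) (hq' : IsPol q') : IsPol (fun x => q x - q' x) := by
  have h1 : IsPol (fun x => -(q' x)) := (IsPol.linear (-LinearMap.id : F →ₗ[ℝ] F)).comp hq'
  have := hq.add h1
  simpa [sub_eq_add_neg] using this

/-- restriction to a line -/
theorem line {f : E → ℝ} {n : ℕ} (hf : f ∈ affF E ^ n) (x v : E) :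
    ∃ p : Polynomial ℝ, ∀ t : ℝ, f (x + t • v) = p.eval t := by
  induction n generalizing f with
  | zero =>
    rw [pow_zero, Submodule.mem_one] at hf
    obtain ⟨c, rfl⟩ := hf
    exact ⟨Polynomial.C c, fun t => by simp⟩
  | succ n ih =>
    rw [pow_succ] at hf
    refine Submodule.mul_induction_on hf ?_ ?_
    · rintro g hg _ ⟨l, c, rfl⟩
      obtain ⟨p, hp⟩ := ih hg
      refine ⟨p * (Polynomial.C (l x + c) + Polynomial.C (l v) * Polynomial.X), fun t => ?_⟩
      rw [Pi.mul_apply, hp]
      simp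
      left
      ring
    · rintro g h ⟨p, hp⟩ ⟨p', hp'⟩
      exact ⟨p + p', fun t => by rw [Pi.add_apply, hp, hp', Polynomial.eval_add]⟩

/-- the product of nonzero polynomial functions is nonzero -/
theorem mul_ne {f g : E → ℝ} {n m : ℕ} (hf : f ∈ affF E ^ n) (hg : g ∈ affF E ^ m) {x y : E}
    (hx : f x ≠ 0) (hy : g y ≠ 0) : ∃ z, f z ≠ 0 ∧ g z ≠ 0 := by
  obtain ⟨p, hp⟩ := line hf x (y - x)
  obtain ⟨q, hq⟩ := line hg x (y - x)
  have hp0 : p ≠ 0 := by
    rintro rfl
    have := hp 0
    simp at this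
    exact hx this
  have hq0 : q ≠ 0 := by
    rintro rfl
    have := hq 1
    simp at this
    exact hy this
  obtain ⟨t, ht⟩ : ∃ t : ℝ, (p * q).eval t ≠ 0 := by
    by_contra h
    push Not at h
    exact mul_ne_zero hp0 hq0 (Polynomial.funext fun t => by rw [h t, Polynomial.eval_zero])
  rw [Polynomial.eval_mul] at ht
  refine ⟨x + t • (y - x), ?_, ?_⟩
  · rw [hp]
    exact left_ne_zero_of_mul ht
  · rw [hq]
    exact right_ne_zero_of_mul ht

end

section
variable {E F : Type} [NormedAddCommGroup E] [NormedSpace ℝ E] [FiniteDimensional ℝ E]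
  [NormedAddCommGroup F] [NormedSpace ℝ F] [FiniteDimensional ℝ F]

theorem diffr {f : E → ℝ} {n : ℕ} (hf : f ∈ affF E ^ n) : Differentiable ℝ f ∧
    ∀ v, (fun x => fderiv ℝ f x v) ∈ affF E ^ (n - 1) := by
  have haff : ∀ (l : E →ₗ[ℝ] ℝ) (c : ℝ) (x : E), HasFDerivAt (fun x => l x + c)
      (LinearMap.toContinuousLinearMap l) x := fun l c x =>
    ((LinearMap.toContinuousLinearMap l).hasFDerivAt (x := x)).add_const c
  induction n generalizing f with
  | zero =>
    rw [pow_zero, Submodule.mem_one] at hf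
    obtain ⟨c, rfl⟩ := hf
    have h1 : (algebraMap ℝ (E → ℝ) c) = fun _ => c := rfl
    rw [h1]
    refine ⟨differentiable_const c, fun v => ?_⟩
    simp only [fderiv_fun_const, Pi.zero_apply, zero_apply]
    exact const_mem _ 0
  | succ n ih =>
    rw [pow_succ] at hf
    refine Submodule.mul_induction_on hf ?_ ?_
    · rintro g hg _ ⟨l, c, rfl⟩
      obtain ⟨h1, h2⟩ := ih hg
      have h3 : ∀ x, HasFDerivAt (g * fun x => l x + c)
          (g x • LinearMap.toContinuousLinearMap l + (l x + c) • fderiv ℝ g x) x := fun x =>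
        (h1 x).hasFDerivAt.mul (haff l c x)
      refine ⟨fun x => (h3 x).differentiableAt, fun v => ?_⟩
      have h4 : (fun x => fderiv ℝ (g * fun x => l x + c) x v) =
          fun x => l v * g x + (l x + c) * fderiv ℝ g x v := by
        funext x
        rw [(h3 x).fderiv]
        simp
        ring
      rw [h4, Nat.add_sub_cancel]
      refine (affF E ^ n).add_mem ?_ ?_
      · exact (affF E ^ n).smul_mem (l v) hg
      · rcases Nat.eq_zero_or_pos n with h0 | h0
        · subst h0
          rw [pow_zero, Submodule.mem_one] at hg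
          obtain ⟨a, rfl⟩ := hg
          have h5 : (algebraMap ℝ (E → ℝ) a) = fun _ => a := rfl
          rw [h5]
          simp only [fderiv_fun_const, Pi.zero_apply, zero_apply, mul_zero]
          exact const_mem _ 0
        · have h5 : affF E ^ n = affF E ^ (n - 1) * affF E := by
            rw [← pow_succ, Nat.sub_add_cancel h0]
          rw [h5]
          have := Submodule.mul_mem_mul (h2 v) (show (fun x => l x + c) ∈ affF E from ⟨l, c, rfl⟩)
          convert this using 1
          funext x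
          simp only [Pi.mul_apply]
          ring
    · rintro g h ⟨h1, h2⟩ ⟨h3, h4⟩
      refine ⟨h1.add h3, fun v => ?_⟩
      have h5 : (fun x => fderiv ℝ (g + h) x v) = fun x => fderiv ℝ g x v + fderiv ℝ h x v := by
        funext x
        rw [fderiv_add (h1 x) (h3 x)]
        rfl
      rw [h5]
      exact Submodule.add_mem _ (h2 v) (h4 v)

theorem IsPolN.diff {n : ℕ} {q : E → F} (hq : IsPolN n q) : Differentiable ℝ q := by
  let b := Module.finBasis ℝ F
  have h1 : q = fun x => ∑ i, b.coord i (q x) • b i := by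
    funext x
    exact (b.sum_repr (q x)).symm
  rw [h1]
  refine Differentiable.fun_sum fun i _ => ?_
  exact (diffr (hq (b.coord i))).1.smul_const (b i)

theorem IsPolN.deriv {n : ℕ} {q : E → F} (hq : IsPolN (n + 1) q) (v : E) :
    IsPolN n (fun x => fderiv ℝ q x v) := by
  intro l
  have h1 := (diffr (hq l)).2 v
  rw [Nat.add_sub_cancel] at h1
  convert h1 using 1
  funext x
  have h2 : HasFDerivAt (fun x => l (q x)) ((LinearMap.toContinuousLinearMap l).comp
      (fderiv ℝ q x)) x :=
    (LinearMap.toContinuousLinearMap l).hasFDerivAt.comp x (hq.diff x).hasFDerivAt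
  rw [h2.fderiv]
  rfl

theorem IsPol.continuous {q : E → F} (hq : IsPol q) : Continuous q := by
  obtain ⟨n, hn⟩ := hq
  exact hn.diff.continuous

end

end Pool.Agent.U352.SA
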