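import Pool.Agent.U352.SA.Red
import Pool.Agent.U352.SA.Poly
import Pool.Agent.U352.AF.Quo

/-!
Derivatives of equivariant polynomial maps to balanced representations.
-/

set_option autoImplicit false
set_option linter.unusedSectionVars false

open Filter Topology
open scoped InnerProductSpace TensorProduct

namespace Pool.Agent.U352.SA

open Pool.Agent.W689.Mk (lin hol_add hol_sub hol_inv_apply hol_apply_inv lin_inv_apply lin_mul)
open Pool.Agent.U352.AF (LInv lin_apply_inv hol_mul)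

variable {Γ E : Type} [Group Γ] [NormedAddCommGroup E] [NormedSpace ℝ E] [FiniteDimensional ℝ E]
  {hol : Γ →* (E ≃ᵃ[ℝ] E)} {S : Finset Γ}

section
variable {Q : Type} [NormedAddCommGroup Q] [NormedSpace ℝ Q] [FiniteDimensional ℝ Q]

theorem deriv_line {q : E → Q} (hq : Differentiable ℝ q) (p w : E) (t : ℝ) :
    HasDerivAt (fun t : ℝ => q (p + t • w)) (fderiv ℝ q (p + t • w) w) t := by
  have h1 : HasDerivAt (fun t : ℝ => p + t • w) w t := by
    have := ((hasDerivAt_id t).smul_const w).const_add p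
    simpa using this
  exact (hq (p + t • w)).hasFDerivAt.comp_hasDerivAt t h1

theorem deriv_equi {q : E → Q} (hq : Differentiable ℝ q) {C : Set E} {V : Submodule ℝ E}
    (hCV : ∀ x ∈ C, ∀ v ∈ V, x + v ∈ C) {ρ : Representation ℝ Γ Q}
    (heq : ∀ γ, ∀ x ∈ C, q (hol γ x) = ρ γ (q x)) (γ : Γ) {x : E} (hx : x ∈ C) {v : E}
    (hv : v ∈ V) : fderiv ℝ q (hol γ x) (lin hol γ v) = ρ γ (fderiv ℝ q x v) := by
  have h1 := deriv_line hq (hol γ x) (lin hol γ v) 0
  have h2 : HasDerivAt (fun t : ℝ => ρ γ (q (x + t • v))) (ρ γ (fderiv ℝ q x v)) 0 := by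
    have h3 := deriv_line hq x v 0
    rw [zero_smul, add_zero] at h3
    exact (LinearMap.toContinuousLinearMap (ρ γ)).hasFDerivAt.comp_hasDerivAt 0 h3
  have h4 : (fun t : ℝ => q (hol γ x + t • lin hol γ v)) = fun t : ℝ => ρ γ (q (x + t • v)) := by
    funext t
    rw [← heq γ _ (hCV x hx _ (V.smul_mem t hv)), hol_add]
    congr 2
    exact (map_smul ((hol γ).linear : E →ₗ[ℝ] E) t v).symm
  rw [zero_smul, add_zero, h4] at h1
  exact h1.unique h2

theorem of_deriv_const {q : E → Q} (hq : Differentiable ℝ q) {x v : E} {a : Q}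
    (h : ∀ t : ℝ, fderiv ℝ q (x + t • v) v = a) : q (x + v) = q x + a := by
  have h1 : ∀ t : ℝ, HasDerivAt (fun t : ℝ => q (x + t • v) - t • a) 0 t := by
    intro t
    have h2 := (deriv_line hq x v t).sub ((hasDerivAt_id t).smul_const a)
    rw [h t, one_smul, sub_self] at h2
    exact h2
  have h3 := is_const_of_deriv_eq_zero (fun t => (h1 t).differentiableAt) (fun t => (h1 t).deriv) 1 0
  simp only [one_smul, zero_smul, add_zero, sub_zero] at h3
  rw [← h3]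
  abel

end

theorem tensor_id {Q : Type} [NormedAddCommGroup Q] [InnerProductSpace ℝ Q]
    [FiniteDimensional ℝ Q] {m : ℕ} (u : OrthonormalBasis (Fin m) ℝ (Eu m))
    (D : Eu m →ₗ[ℝ] Q) (R : Eu m →ₗ[ℝ] Eu m) :
    ∑ i, D (R (u i)) ⊗ₜ[ℝ] u i = ∑ j, D (u j) ⊗ₜ[ℝ] LinearMap.adjoint R (u j) := by
  have h1 : ∀ i, D (R (u i)) ⊗ₜ[ℝ] u i = ∑ j, (⟪u j, R (u i)⟫_ℝ) • (D (u j) ⊗ₜ[ℝ] u i) := by
    intro i
    conv_lhs => rw [← u.sum_repr' (R (u i)), map_sum, TensorProduct.sum_tmul]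
    refine Finset.sum_congr rfl fun j _ => ?_
    rw [map_smul, TensorProduct.smul_tmul']
  have h2 : ∀ j, D (u j) ⊗ₜ[ℝ] LinearMap.adjoint R (u j) =
      ∑ i, (⟪u j, R (u i)⟫_ℝ) • (D (u j) ⊗ₜ[ℝ] u i) := by
    intro j
    conv_lhs => rw [← u.sum_repr' (LinearMap.adjoint R (u j)), TensorProduct.tmul_sum]
    refine Finset.sum_congr rfl fun i _ => ?_
    rw [TensorProduct.tmul_smul, LinearMap.adjoint_inner_right, real_inner_comm]
  rw [Finset.sum_congr rfl fun i _ => h1 i, Finset.sum_congr rfl fun j _ => h2 j,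
    Finset.sum_comm]

theorem reduce {V : Submodule ℝ E} {C : Set E} (hV : LInv hol V)
    (hCV : ∀ x ∈ C, ∀ v ∈ V, x + v ∈ C) {m : ℕ} {ρV : Representation ℝ Γ (Eu m)}
    (hρV : Bal S ρV) (e : V ≃ₗ[ℝ] Eu m)
    (he : ∀ γ (v : V), e ⟨lin hol γ v, hV γ v v.2⟩ = ρV γ (e v)) (n : ℕ) :
    ∀ (Q : Type) [NormedAddCommGroup Q] [InnerProductSpace ℝ Q] [FiniteDimensional ℝ Q]
      (ρ : Representation ℝ Γ Q) (_ : Bal S ρ) (q : E → Q) (_ : IsPolN n q)
      (_ : ∀ γ, ∀ x ∈ C, q (hol γ x) = ρ γ (q x)) (_ : ∃ x ∈ C, ∃ y ∈ C, q x ≠ q y),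
      ∃ (Q' : Type) (_ : NormedAddCommGroup Q') (_ : InnerProductSpace ℝ Q')
        (_ : FiniteDimensional ℝ Q') (ρ' : Representation ℝ Γ Q') (q' : E → Q'),
        Bal S ρ' ∧ IsPol q' ∧ (∀ γ, ∀ x ∈ C, q' (hol γ x) = ρ' γ (q' x)) ∧
          (∃ x ∈ C, ∃ y ∈ C, q' x ≠ q' y) ∧
            ∀ x ∈ C, ∀ y ∈ C, ∀ v ∈ V, fderiv ℝ q' x v = fderiv ℝ q' y v := by
  induction n with
  | zero =>
    intro Q _ _ _ ρ hρ q hq heq hne
    exfalso
    obtain ⟨x, hx, y, hy, hxy⟩ := hne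
    apply hxy
    have h1 : ∀ l : Q →ₗ[ℝ] ℝ, l (q x) = l (q y) := by
      intro l
      have h2 := hq l
      rw [pow_zero, Submodule.mem_one] at h2
      obtain ⟨c, hc⟩ := h2
      have h3 := congrFun hc x
      have h4 := congrFun hc y
      have h5 : (algebraMap ℝ (E → ℝ) c) x = (algebraMap ℝ (E → ℝ) c) y := rfl
      rw [h3, h4] at h5
      exact h5
    let b := Module.finBasis ℝ Q
    exact b.ext_elem fun i => h1 (b.coord i)
  | succ n ih =>
    intro Q _ _ _ ρ hρ q hq heq hne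
    classical
    have hdq := hq.diff
    let u : OrthonormalBasis (Fin m) ℝ (Eu m) := EuclideanSpace.basisFun (Fin m) ℝ
    let D : E → Eu m →ₗ[ℝ] Q := fun x =>
      (fderiv ℝ q x : E →ₗ[ℝ] Q) ∘ₗ V.subtype ∘ₗ e.symm.toLinearMap
    let q1 : E → Q ⊗[ℝ] Eu m := fun x => ∑ i, D x (u i) ⊗ₜ[ℝ] u i
    have hq1 : IsPolN n q1 := by
      intro l
      have h1 : (fun x => l (q1 x)) = ∑ i, fun x => l (D x (u i) ⊗ₜ[ℝ] u i) := by
        funext x
        rw [Finset.sum_apply]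
        exact map_sum l _ _
      rw [h1]
      refine Submodule.sum_mem _ fun i _ => ?_
      let li : Q →ₗ[ℝ] ℝ := l ∘ₗ (TensorProduct.mk ℝ Q (Eu m)).flip (u i)
      exact hq.deriv ((e.symm (u i) : V) : E) li
    have hq1e : ∀ γ, ∀ x ∈ C, q1 (hol γ x) = homRep ρ ρV γ (q1 x) := by
      intro γ x hx
      show ∑ i, D (hol γ x) (u i) ⊗ₜ[ℝ] u i = TensorProduct.map (ρ γ)
        (LinearMap.adjoint (ρV γ⁻¹)) (∑ j, D x (u j) ⊗ₜ[ℝ] u j)
      have h1 : ∀ i, D (hol γ x) (u i) = ρ γ (D x (ρV γ⁻¹ (u i))) := by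
        intro i
        have h2 : e.symm (ρV γ⁻¹ (u i)) =
            (⟨lin hol γ⁻¹ (e.symm (u i)), hV _ _ (e.symm (u i)).2⟩ : V) := by
          rw [LinearEquiv.symm_apply_eq, he, e.apply_symm_apply]
        have h3 := deriv_equi hdq hCV heq γ hx (v := lin hol γ⁻¹ (e.symm (u i) : V))
          (hV _ _ (e.symm (u i)).2)
        rw [lin_apply_inv] at h3
        show fderiv ℝ q (hol γ x) ((e.symm (u i) : V) : E) =
          ρ γ (fderiv ℝ q x ((e.symm (ρV γ⁻¹ (u i)) : V) : E))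
        rw [h3, h2]
      rw [Finset.sum_congr rfl fun i _ => by rw [h1 i], map_sum,
        Finset.sum_congr rfl fun j _ => TensorProduct.map_tmul _ _ _ _]
      exact tensor_id u (ρ γ ∘ₗ D x) (ρV γ⁻¹)
    by_cases hc : ∃ x ∈ C, ∃ y ∈ C, q1 x ≠ q1 y
    · exact ih (Q ⊗[ℝ] Eu m) (homRep ρ ρV) (hρ.hom hρV) q1 hq1 hq1e hc
    · push Not at hc
      refine ⟨Q, inferInstance, inferInstance, inferInstance, ρ, q, hρ, ⟨n + 1, hq⟩, heq, hne,
        fun x hx y hy v hv => ?_⟩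
      have h1 := hc x hx y hy
      have h2 : D x = D y := by
        refine u.toBasis.ext fun j => ?_
        rw [OrthonormalBasis.coe_toBasis]
        let L : Q ⊗[ℝ] Eu m →ₗ[ℝ] Q := (TensorProduct.rid ℝ Q).toLinearMap ∘ₗ
          TensorProduct.map LinearMap.id (innerₛₗ ℝ (u j))
        have hL : ∀ x, L (q1 x) = D x (u j) := by
          intro x
          show L (∑ i, D x (u i) ⊗ₜ[ℝ] u i) = _
          rw [map_sum, Finset.sum_eq_single j]
          · show (TensorProduct.rid ℝ Q) (D x (u j) ⊗ₜ[ℝ] ⟪u j, u j⟫_ℝ) = _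
            rw [TensorProduct.rid_tmul, real_inner_self_eq_norm_sq, u.norm_eq_one]
            simp
          · intro i _ hi
            show (TensorProduct.rid ℝ Q) (D x (u i) ⊗ₜ[ℝ] ⟪u j, u i⟫_ℝ) = _
            rw [TensorProduct.rid_tmul, u.inner_eq_zero hi.symm, zero_smul]
          · intro h
            exact absurd (Finset.mem_univ j) h
        rw [← hL, ← hL, h1]
      have h3 := LinearMap.congr_fun h2 (e ⟨v, hv⟩)
      have h4 : ∀ x, D x (e ⟨v, hv⟩) = fderiv ℝ q x v := by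
        intro x
        show fderiv ℝ q x ((e.symm (e ⟨v, hv⟩) : V) : E) = _
        rw [e.symm_apply_apply]
      rwa [h4, h4] at h3

end Pool.Agent.U352.SA
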