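import Pool.Agent.U352.SA.Der
import Pool.Agent.W689.Ch.Wt

/-!
Existence of a contractible invariant set which is minimal in the Zariski topology.
-/

set_option autoImplicit false
set_option linter.unusedSectionVars false

open Filter Topology
open scoped InnerProductSpace TensorProduct

namespace Pool.Agent.U352.SA

open Pool.Agent.W689.Mk (lin hol_add hol_sub hol_inv_apply hol_apply_inv lin_inv_apply lin_mul)
open Pool.Agent.U352.AF (LInv lin_apply_inv hol_mul IsQuot exists_quot)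
open Pool.Agent.W689.Ch (Wt)

variable {Γ : Type} [Group Γ]

/-- equivariant polynomial maps to balanced representations are constant on `C` -/
def Star {E : Type} [NormedAddCommGroup E] [NormedSpace ℝ E] (S : Finset Γ)
    (hol : Γ →* (E ≃ᵃ[ℝ] E)) (C : Set E) : Prop :=
  ∀ (Q : Type) [NormedAddCommGroup Q] [InnerProductSpace ℝ Q] [FiniteDimensional ℝ Q]
    (ρ : Representation ℝ Γ Q), Bal S ρ → ∀ q : E → Q, IsPol q →
    (∀ γ, ∀ x ∈ C, q (hol γ x) = ρ γ (q x)) → ∀ x ∈ C, ∀ y ∈ C, q x = q y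

/-- the good sets -/
structure Good (X : Type) [TopologicalSpace X] [MulAction Γ X] {E : Type} [NormedAddCommGroup E]
    [NormedSpace ℝ E] (S : Finset Γ) (hol : Γ →* (E ≃ᵃ[ℝ] E)) (C : Set E) : Prop where
  ne : C.Nonempty
  inv : ∀ γ, ∀ x ∈ C, hol γ x ∈ C
  star : Star S hol C
  par : ∃ (P : Type) (_ : NormedAddCommGroup P) (_ : NormedSpace ℝ P) (_ : FiniteDimensional ℝ P)
    (φ : P → E) (ψ : E →ₗ[ℝ] P), IsPol φ ∧ (∀ y, ψ (φ y) = y) ∧ (∀ x ∈ C, φ (ψ x) = x) ∧
      ∀ y, φ y ∈ C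
  ext : ∀ d : X → E, Continuous d → (∀ (γ : Γ) (x : X), d (γ • x) = hol γ (d x)) →
    ∃ r : X → E, Continuous r ∧ (∀ x, r x ∈ C) ∧ (∀ (γ : Γ) (x : X), r (γ • x) = hol γ (r x)) ∧
      ∀ x, d x ∈ C → r x = d x

section
variable {E : Type} [NormedAddCommGroup E] [NormedSpace ℝ E] [FiniteDimensional ℝ E]
  {hol : Γ →* (E ≃ᵃ[ℝ] E)}

theorem exists_minimal_inv [Nontrivial E] (hol : Γ →* (E ≃ᵃ[ℝ] E)) :
    ∃ V : Submodule ℝ E, V ≠ ⊥ ∧ LInv hol V ∧ ∀ W ≤ V, LInv hol W → W = ⊥ ∨ W = V := by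
  classical
  have hex : ∃ k : ℕ, ∃ V : Submodule ℝ E, V ≠ ⊥ ∧ LInv hol V ∧ Module.finrank ℝ V = k :=
    ⟨_, ⊤, top_ne_bot, fun _ _ _ => trivial, rfl⟩
  obtain ⟨V, h1, h2, h3⟩ := Nat.find_spec hex
  refine ⟨V, h1, h2, fun W hW hW' => ?_⟩
  by_cases h0 : W = ⊥
  · exact Or.inl h0
  · right
    have h4 : Nat.find hex ≤ Module.finrank ℝ W := Nat.find_min' hex ⟨W, h0, hW', rfl⟩
    exact Submodule.eq_of_le_of_finrank_le hW (by rw [h3]; exact h4)

/-- the representation on an invariant subspace -/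
noncomputable def subRep {V : Submodule ℝ E} (hV : LInv hol V) : Representation ℝ Γ V where
  toFun γ := ((hol γ).linear : E →ₗ[ℝ] E).restrict (hV γ)
  map_one' := by
    ext v
    show (hol 1).linear (v : E) = v
    rw [map_one]
    rfl
  map_mul' γ δ := by
    ext v
    exact lin_mul (hol := hol) γ δ v

theorem affine_sum (A : E ≃ᵃ[ℝ] E) {ι : Type} (F : Finset ι) (w : ι → ℝ) (p : ι → E)
    (hw : ∑ i ∈ F, w i = 1) : A (∑ i ∈ F, w i • p i) = ∑ i ∈ F, w i • A (p i) := by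
  have h1 : ∀ v, A v = A 0 + A.linear v := fun v => by
    have := A.map_vadd 0 v
    rw [vadd_eq_add, vadd_eq_add, add_zero] at this
    rw [this, add_comm]
  have h2 : ∀ i ∈ F, w i • A (p i) = w i • A 0 + w i • A.linear (p i) := fun i _ => by
    rw [h1 (p i), smul_add]
  rw [Finset.sum_congr rfl h2, Finset.sum_add_distrib, ← Finset.sum_smul, hw, one_smul,
    h1 (∑ i ∈ F, w i • p i), map_sum]
  simp only [map_smul]

end

section
variable {X : Type} [TopologicalSpace X] [MulAction Γ X] {w : X → ℝ}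
  {E : Type} [NormedAddCommGroup E] [NormedSpace ℝ E] [FiniteDimensional ℝ E]

theorem cont_tsum {W : Type} [NormedAddCommGroup W] {g : Γ → X → W} (hg : ∀ γ, Continuous (g γ))
    (h : ∀ x, ∃ U ∈ 𝓝 x, ∃ F : Finset Γ, ∀ γ : Γ, γ ∉ F → ∀ y ∈ U, g γ y = 0) :
    Continuous fun x => ∑' γ : Γ, g γ x := by
  rw [continuous_iff_continuousAt]
  intro x
  obtain ⟨U, hU, F, hF⟩ := h x
  have h1 : ∀ᶠ y in 𝓝 x, ∑ γ ∈ F, g γ y = ∑' γ : Γ, g γ y := by
    filter_upwards [hU] with y hy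
    exact (tsum_eq_sum fun γ hγ => hF γ hγ y hy).symm
  have h2 : Continuous fun y => ∑ γ ∈ F, g γ y := continuous_finsetSum _ fun γ _ => hg γ
  exact h2.continuousAt.congr h1

/-- the average of a map -/
noncomputable def avx (hol : Γ →* (E ≃ᵃ[ℝ] E)) (w : X → ℝ) (g : X → E) (x : X) : E :=
  ∑' γ : Γ, w (γ • x) • hol γ⁻¹ (g (γ • x))

theorem hol_cont (A : E ≃ᵃ[ℝ] E) : Continuous A :=
  AffineMap.continuous_of_finiteDimensional (A : E →ᵃ[ℝ] E)

theorem avx_sum (hol : Γ →* (E ≃ᵃ[ℝ] E)) (hw : Wt Γ w) (g : X → E) (x : X) : ∃ F : Finset Γ,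
    avx hol w g x = ∑ γ ∈ F, w (γ • x) • hol γ⁻¹ (g (γ • x)) ∧ ∑ γ ∈ F, w (γ • x) = 1 ∧
      ∀ γ ∉ F, w (γ • x) = 0 := by
  obtain ⟨U, hU, F, hF⟩ := hw.locfin x
  have hx := mem_of_mem_nhds hU
  refine ⟨F, tsum_eq_sum fun γ hγ => by rw [hF γ hγ x hx, zero_smul], ?_, fun γ hγ => hF γ hγ x hx⟩
  rw [← hw.sum x]
  exact (tsum_eq_sum fun γ hγ => hF γ hγ x hx).symm

theorem avx_cont (hol : Γ →* (E ≃ᵃ[ℝ] E)) (hc : ∀ γ : Γ, Continuous fun x : X => γ • x)
    (hw : Wt Γ w) {g : X → E} (hg : Continuous g) : Continuous (avx hol w g) := by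
  refine cont_tsum (fun γ => (hw.cont.comp (hc γ)).smul
    ((hol_cont (hol γ⁻¹)).comp (hg.comp (hc γ)))) fun x => ?_
  obtain ⟨U, hU, F, hF⟩ := hw.locfin x
  exact ⟨U, hU, F, fun γ hγ y hy => by
    show w (γ • y) • _ = _
    rw [hF γ hγ y hy, zero_smul]⟩

theorem avx_equi (hol : Γ →* (E ≃ᵃ[ℝ] E)) (hw : Wt Γ w) (g : X → E) (δ : Γ) (x : X) :
    avx hol w g (δ • x) = hol δ (avx hol w g x) := by
  obtain ⟨F, h1, h2, h3⟩ := avx_sum hol hw g x
  have h4 : avx hol w g (δ • x) = ∑' γ : Γ, w (γ • x) • hol (γ * δ⁻¹)⁻¹ (g (γ • x)) := by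
    unfold avx
    rw [← Equiv.tsum_eq (Equiv.mulRight δ)
      (fun γ : Γ => w (γ • x) • hol (γ * δ⁻¹)⁻¹ (g (γ • x)))]
    refine tsum_congr fun γ => ?_
    show w (γ • δ • x) • hol γ⁻¹ (g (γ • δ • x)) =
      w ((γ * δ) • x) • hol (γ * δ * δ⁻¹)⁻¹ (g ((γ * δ) • x))
    rw [mul_inv_cancel_right, smul_smul]
  rw [h4, tsum_eq_sum (s := F) fun γ hγ => by rw [h3 γ hγ, zero_smul], h1,
    affine_sum (hol δ) F _ _ h2]
  refine Finset.sum_congr rfl fun γ _ => ?_
  rw [mul_inv_rev, inv_inv, hol_mul]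

end

section
variable {X : Type} [TopologicalSpace X] [MulAction Γ X] {w : X → ℝ} {S : Finset Γ}

theorem exists_good (hc : ∀ γ : Γ, Continuous fun x : X => γ • x) (hw : Wt Γ w)
    (hS : ∀ s ∈ S, s⁻¹ ∈ S) (hgen : Subgroup.closure (S : Set Γ) = ⊤) (n : ℕ) :
    ∀ (E : Type) [NormedAddCommGroup E] [NormedSpace ℝ E] [FiniteDimensional ℝ E]
      (hol : Γ →* (E ≃ᵃ[ℝ] E)), Module.finrank ℝ E = n → ∃ C : Set E, Good X S hol C := by
  classical
  induction n using Nat.strong_induction_on with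
  | _ n ih =>
  intro E _ _ _ hol hn
  rcases subsingleton_or_nontrivial E with hE | hE
  · refine ⟨Set.univ, ⟨0, trivial⟩, fun _ _ _ => trivial, ?_, ?_, ?_⟩
    · intro Q _ _ _ ρ _ q _ _ x _ y _
      rw [Subsingleton.elim x y]
    · exact ⟨E, inferInstance, inferInstance, inferInstance, fun x => x, LinearMap.id,
        IsPol.linear LinearMap.id, fun _ => rfl, fun _ _ => rfl, fun _ => trivial⟩
    · exact fun d hd he => ⟨d, hd, fun _ => trivial, he, fun _ _ => rfl⟩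
  obtain ⟨V, hV0, hV, hmin⟩ := exists_minimal_inv hol
  have hVn : Nontrivial V := Submodule.nontrivial_iff_ne_bot.2 hV0
  have hirr : ∀ W : Submodule ℝ V, (∀ γ, ∀ v ∈ W, subRep hV γ v ∈ W) → W = ⊥ ∨ W = ⊤ := by
    intro W hW
    have h1 : LInv hol (W.map V.subtype) := by
      rintro γ _ ⟨v, hv, rfl⟩
      exact ⟨subRep hV γ v, hW γ v hv, rfl⟩
    rcases hmin _ (Submodule.map_subtype_le V W) h1 with h | h
    · left
      rw [eq_bot_iff]
      intro v hv
      have h2 : (v : E) ∈ W.map V.subtype := ⟨v, hv, rfl⟩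
      rw [h, Submodule.mem_bot] at h2
      exact Subtype.ext h2
    · right
      rw [eq_top_iff]
      intro v _
      have h2 : (v : E) ∈ W.map V.subtype := by rw [h]; exact v.2
      obtain ⟨u, hu, hu'⟩ := h2
      rwa [← Subtype.ext hu']
  obtain ⟨m, ρV, e, hρV, he⟩ := exists_bal hS hgen (subRep hV) hirr
  obtain ⟨Q, _, _, _, π, hol₁, hq⟩ := exists_quot hV
  have hfr : Module.finrank ℝ Q < n := by
    have h1 := LinearMap.finrank_range_add_finrank_ker π
    rw [LinearMap.range_eq_top.2 hq.surj, finrank_top] at h1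
    have h2 : LinearMap.ker π = V := by
      ext x
      exact hq.ker x
    rw [h2, hn] at h1
    have h3 : 0 < Module.finrank ℝ V := Module.finrank_pos
    omega
  obtain ⟨B, hB⟩ := ih _ hfr Q hol₁ rfl
  obtain ⟨c, hcπ⟩ := π.exists_rightInverse_of_surjective (LinearMap.range_eq_top.2 hq.surj)
  have hπc : ∀ b, π (c b) = b := fun b => LinearMap.congr_fun hcπ b
  have hcV : ∀ x, x - c (π x) ∈ V := fun x => by
    rw [← hq.eq_iff, hπc]
  have hπV : ∀ (x : E), ∀ v ∈ V, π (x + v) = π x := by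
    intro x v hv
    rw [map_add, (hq.ker v).2 hv, add_zero]
  set C₁ : Set E := {x | π x ∈ B} with hC₁
  have hCV : ∀ x ∈ C₁, ∀ v ∈ V, x + v ∈ C₁ := by
    intro x hx v hv
    show π (x + v) ∈ B
    rw [hπV x v hv]
    exact hx
  have hCi : ∀ γ, ∀ x ∈ C₁, hol γ x ∈ C₁ := by
    intro γ x hx
    show π (hol γ x) ∈ B
    rw [← hq.equi]
    exact hB.inv γ _ hx
  have hcB : ∀ b ∈ B, c b ∈ C₁ := fun b hb => by
    show π (c b) ∈ B
    rwa [hπc]
  have hπcont : Continuous π := π.continuous_of_finiteDimensional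
  have hccont : Continuous c := c.continuous_of_finiteDimensional
  obtain ⟨P', _, _, _, φ', ψ', hφ', hψφ, hφψ, hφB⟩ := hB.par
  by_cases hstar : Star S hol C₁
  · refine ⟨C₁, ?_, hCi, hstar, ?_, ?_⟩
    · obtain ⟨b, hb⟩ := hB.ne
      exact ⟨c b, hcB b hb⟩
    · let ψ : E →ₗ[ℝ] P' × V := LinearMap.prod (ψ' ∘ₗ π)
        (LinearMap.codRestrict V (LinearMap.id - c ∘ₗ π) fun x => hcV x)
      refine ⟨P' × V, inferInstance, inferInstance, inferInstance,
        fun p => c (φ' p.1) + (p.2 : E), ψ, ?_, ?_, ?_, ?_⟩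
      · refine IsPol.add ?_ (IsPol.linear (V.subtype ∘ₗ LinearMap.snd ℝ P' V))
        exact (IsPol.linear c).comp (hφ'.comp (IsPol.linear (LinearMap.fst ℝ P' V)))
      · rintro ⟨a, v⟩
        have h1 : π (c (φ' a) + (v : E)) = φ' a := by rw [hπV _ _ v.2, hπc]
        refine Prod.ext ?_ (Subtype.ext ?_)
        · show ψ' (π (c (φ' a) + (v : E))) = a
          rw [h1, hψφ]
        · show (c (φ' a) + (v : E)) - c (π (c (φ' a) + (v : E))) = v
          rw [h1, add_sub_cancel_left]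
      · intro x hx
        show c (φ' (ψ' (π x))) + (x - c (π x)) = x
        rw [hφψ _ hx, add_sub_cancel]
      · rintro ⟨a, v⟩
        exact hCV _ (hcB _ (hφB a)) v v.2
    · intro d hd hde
      obtain ⟨rB, h1, h2, h3, h4⟩ := hB.ext (fun x => π (d x)) (hπcont.comp hd)
        (fun γ x => by rw [hde, hq.equi])
      let r₀ : X → E := fun x => c (rB x) + (d x - c (π (d x)))
      have hr₀ : Continuous r₀ := (hccont.comp h1).add (hd.sub (hccont.comp (hπcont.comp hd)))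
      have hπr₀ : ∀ x, π (r₀ x) = rB x := fun x => by
        show π (c (rB x) + (d x - c (π (d x)))) = _
        rw [hπV _ _ (hcV _), hπc]
      refine ⟨avx hol w r₀, avx_cont hol hc hw hr₀, fun x => ?_, avx_equi hol hw r₀, fun x hx => ?_⟩
      · obtain ⟨F, e1, e2, -⟩ := avx_sum hol hw r₀ x
        show π (avx hol w r₀ x) ∈ B
        have h5 : π (avx hol w r₀ x) = rB x := by
          rw [e1, map_sum]
          have h6 : ∀ γ ∈ F, π (w (γ • x) • hol γ⁻¹ (r₀ (γ • x))) = w (γ • x) • rB x := by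
            intro γ _
            rw [map_smul, ← hq.equi, hπr₀, h3, hol_inv_apply]
          rw [Finset.sum_congr rfl h6, ← Finset.sum_smul, e2, one_smul]
        rw [h5]
        exact h2 x
      · obtain ⟨F, e1, e2, -⟩ := avx_sum hol hw r₀ x
        rw [e1]
        have h6 : ∀ γ ∈ F, w (γ • x) • hol γ⁻¹ (r₀ (γ • x)) = w (γ • x) • d x := by
          intro γ _
          have h7 : d (γ • x) ∈ C₁ := by
            rw [hde]
            exact hCi γ _ hx
          have h8 : r₀ (γ • x) = d (γ • x) := by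
            show c (rB (γ • x)) + (d (γ • x) - c (π (d (γ • x)))) = _
            rw [h4 _ h7, add_sub_cancel]
          rw [h8, hde, hol_inv_apply]
        rw [Finset.sum_congr rfl h6, ← Finset.sum_smul, e2, one_smul]
  · -- the section
    unfold Star at hstar
    push Not at hstar
    obtain ⟨Q₀, _, _, _, ρ₀, hρ₀, q₀, ⟨k, hq₀⟩, he₀, x₀, hx₀, y₀, hy₀, hne₀⟩ := hstar
    obtain ⟨Q', _, _, _, ρ', q, hρ', hqp, hqe, ⟨x₁, hx₁, y₁, hy₁, hne₁⟩, hqd⟩ :=
      reduce hV hCV hρV e (fun γ v => he γ v) k Q₀ ρ₀ hρ₀ q₀ hq₀ he₀ ⟨x₀, hx₀, y₀, hy₀, hne₀⟩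
    have hdq : Differentiable ℝ q := by
      obtain ⟨k', hk'⟩ := hqp
      exact hk'.diff
    let T : V →ₗ[ℝ] Q' := (fderiv ℝ q x₁ : E →ₗ[ℝ] Q') ∘ₗ V.subtype
    have hT : ∀ x ∈ C₁, ∀ v : V, fderiv ℝ q x v = T v := fun x hx v =>
      hqd x hx x₁ hx₁ v v.2
    have hqT : ∀ x ∈ C₁, ∀ v : V, q (x + v) = q x + T v := fun x hx v =>
      of_deriv_const hdq fun t => hT _ (hCV x hx _ (V.smul_mem t v.2)) v
    have hTe : ∀ γ v, T (subRep hV γ v) = ρ' γ (T v) := by
      intro γ v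
      have h1 := deriv_equi hdq hCV hqe γ hx₁ v.2
      have h2 := hT (hol γ x₁) (hCi γ _ hx₁) (subRep hV γ v)
      rw [← h2]
      exact h1
    have hTi : Function.Injective T := by
      rw [← LinearMap.ker_eq_bot]
      have hk : ∀ γ, ∀ v ∈ LinearMap.ker T, subRep hV γ v ∈ LinearMap.ker T := by
        intro γ v hv
        rw [LinearMap.mem_ker] at hv ⊢
        rw [hTe, hv, map_zero]
      rcases hirr _ hk with h | h
      · exact h
      · exfalso
        have hT0 : ∀ v, T v = 0 := fun v => by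
          have : v ∈ LinearMap.ker T := by rw [h]; trivial
          exact this
        have hqV : ∀ x ∈ C₁, ∀ y, x - y ∈ V → q y = q x := by
          intro x hx y hxy
          have h1 : y - x ∈ V := by rw [← neg_sub]; exact V.neg_mem hxy
          have h2 := hqT x hx ⟨y - x, h1⟩
          rw [hT0, add_zero] at h2
          have h3 : x + ((⟨y - x, h1⟩ : V) : E) = y := add_sub_cancel x y
          rw [h3] at h2
          exact h2
        have hBs := hB.star Q' ρ' hρ' (fun b => q (c b)) (hqp.comp (IsPol.linear c))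
          (fun γ b hb => by
            rw [← hqe γ _ (hcB b hb)]
            refine hqV _ (hCi γ _ (hcB b hb)) _ ?_
            rw [← hq.eq_iff, hπc, ← hq.equi, hπc])
        apply hne₁
        have h5 : ∀ x ∈ C₁, q (c (π x)) = q x := fun x hx => hqV x hx _ (hcV x)
        rw [← h5 x₁ hx₁, ← h5 y₁ hy₁]
        exact hBs _ hx₁ _ hy₁
    obtain ⟨l, hl1, hl2⟩ := exists_left_inv hS hgen hρ' (subRep hV) T hTi hTe
    let sec : Q → E := fun b => c b - (l (q (c b)) : E)
    have hπsec : ∀ b, π (sec b) = b := by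
      intro b
      show π (c b - (l (q (c b)) : E)) = b
      rw [map_sub, (hq.ker _).2 (l (q (c b))).2, sub_zero, hπc]
    have hsecx : ∀ x ∈ C₁, sec (π x) = x - (l (q x) : E) := by
      intro x hx
      have h1 := hqT (c (π x)) (hcB _ hx) ⟨x - c (π x), hcV x⟩
      have h2 : c (π x) + ((⟨x - c (π x), hcV x⟩ : V) : E) = x := add_sub_cancel _ _
      rw [h2] at h1
      show c (π x) - (l (q (c (π x))) : E) = x - (l (q x) : E)
      rw [h1, map_add, hl1]
      show c (π x) - (l (q (c (π x))) : E) = x - ((l (q (c (π x))) : E) + (x - c (π x)))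
      abel
    have hsece : ∀ γ, ∀ b ∈ B, sec (hol₁ γ b) = hol γ (sec b) := by
      intro γ b hb
      have hx := hcB b hb
      have h1 : hol₁ γ b = π (hol γ (c b)) := by rw [← hq.equi, hπc]
      rw [h1, hsecx _ (hCi γ _ hx), hqe γ _ hx, hl2]
      have h2 : sec b = c b + -(l (q (c b)) : E) := sub_eq_add_neg _ _
      rw [h2, hol_add]
      show hol γ (c b) - (hol γ).linear (l (q (c b)) : E) = _
      rw [sub_eq_add_neg]
      congr 1
      exact (map_neg ((hol γ).linear : E →ₗ[ℝ] E) _).symm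
    have hsecP : IsPol sec := by
      refine IsPol.sub (IsPol.linear c) ?_
      exact (IsPol.linear (V.subtype ∘ₗ l)).comp (hqp.comp (IsPol.linear c))
    have hsecc : Continuous sec := hsecP.continuous
    refine ⟨sec '' B, ?_, ?_, ?_, ?_, ?_⟩
    · exact hB.ne.image sec
    · rintro γ _ ⟨b, hb, rfl⟩
      exact ⟨hol₁ γ b, hB.inv γ b hb, hsece γ b hb⟩
    · intro Q₂ _ _ _ ρ₂ hρ₂ q₂ hq₂ he₂ x hx y hy
      obtain ⟨a, ha, rfl⟩ := hx
      obtain ⟨b, hb, rfl⟩ := hy
      exact hB.star Q₂ ρ₂ hρ₂ (fun b => q₂ (sec b)) (hq₂.comp hsecP)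
        (fun γ b hb => by rw [hsece γ b hb, he₂ γ _ ⟨b, hb, rfl⟩]) a ha b hb
    · refine ⟨P', inferInstance, inferInstance, inferInstance, fun y => sec (φ' y), ψ' ∘ₗ π,
        hsecP.comp hφ', fun y => ?_, ?_, fun y => ⟨φ' y, hφB y, rfl⟩⟩
      · show ψ' (π (sec (φ' y))) = y
        rw [hπsec, hψφ]
      · rintro _ ⟨b, hb, rfl⟩
        show sec (φ' (ψ' (π (sec b)))) = sec b
        rw [hπsec, hφψ b hb]
    · intro d hd hde
      obtain ⟨rB, h1, h2, h3, h4⟩ := hB.ext (fun x => π (d x)) (hπcont.comp hd)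
        (fun γ x => by rw [hde, hq.equi])
      refine ⟨fun x => sec (rB x), hsecc.comp h1, fun x => ⟨rB x, h2 x, rfl⟩,
        fun γ x => by
          show sec (rB (γ • x)) = hol γ (sec (rB x))
          rw [h3, hsece γ _ (h2 x)], fun x hx => ?_⟩
      obtain ⟨b, hb, hbx⟩ := hx
      have h5 : π (d x) = b := by rw [← hbx, hπsec]
      have h6 := h4 x (by show π (d x) ∈ B; rw [h5]; exact hb)
      show sec (rB x) = d x
      rw [h6]
      show sec (π (d x)) = d x
      rw [h5, hbx]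

end

end Pool.Agent.U352.SA
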