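import Pool.Agent.U352.SA.Log

/-!
The representation on linear maps between balanced representations is balanced.
-/

set_option autoImplicit false
set_option linter.unusedSectionVars false

open scoped InnerProductSpace TensorProduct

namespace Pool.Agent.U352.SA

section
variable {V U : Type} [NormedAddCommGroup V] [InnerProductSpace ℝ V] [FiniteDimensional ℝ V]
  [NormedAddCommGroup U] [InnerProductSpace ℝ U] [FiniteDimensional ℝ U]

theorem LogOf.tensor {Y R : V →ₗ[ℝ] V} {Y' R' : U →ₗ[ℝ] U} (h : LogOf Y R) (h' : LogOf Y' R') :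
    LogOf (TensorProduct.map Y LinearMap.id + TensorProduct.map LinearMap.id Y')
      (TensorProduct.map R R') := by
  obtain ⟨ι, _, b, y, h1, h2, h3⟩ := h
  obtain ⟨ι', _, b', y', h1', h2', h3'⟩ := h'
  refine ⟨ι × ι', inferInstance, b.tensorProduct b', fun p => y p.1 + y' p.2, ?_, ?_, ?_⟩
  · rintro ⟨i, j⟩
    rw [OrthonormalBasis.tensorProduct_apply, LinearMap.add_apply, TensorProduct.map_tmul,
      TensorProduct.map_tmul, h1, h1', LinearMap.id_apply, LinearMap.id_apply,
      ← TensorProduct.smul_tmul', TensorProduct.tmul_smul, ← add_smul]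
  · rintro ⟨i, j⟩
    rw [OrthonormalBasis.tensorProduct_apply, TensorProduct.map_tmul, TensorProduct.inner_tmul,
      h2, h2', Real.exp_add]
  · rintro ⟨i, j⟩ ⟨i', j'⟩ hne
    rw [OrthonormalBasis.tensorProduct_apply, OrthonormalBasis.tensorProduct_apply,
      TensorProduct.map_tmul, TensorProduct.map_tmul, TensorProduct.inner_tmul]
    by_cases hi : i = i'
    · have hj : j ≠ j' := fun hj => hne (by rw [hi, hj])
      rw [h3' _ _ hj, mul_zero]
    · rw [h3 _ _ hi, zero_mul]

theorem LogOf.dual {Y R R' : V →ₗ[ℝ] V} (h : LogOf Y R) (hs : Function.Surjective R)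
    (hR' : ∀ x z, ⟪R' x, R z⟫_ℝ = ⟪x, z⟫_ℝ) : LogOf (-Y) R' := by
  classical
  obtain ⟨ι, _, b, y, h1, h2, h3⟩ := h
  have key : ∀ i, R' (b i) = Real.exp (-y i) • R (b i) := by
    intro i
    refine ext_inner_right ℝ fun v => ?_
    obtain ⟨z, rfl⟩ := hs v
    rw [hR', inner_smul_left, quadR b y h2 h3, Finset.sum_eq_single i]
    · have h4 : ⟪b i, b i⟫_ℝ = 1 := by
        rw [real_inner_self_eq_norm_sq, b.norm_eq_one]; norm_num
      rw [h4]
      have h5 : Real.exp (-y i) * Real.exp (y i) = 1 := by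
        rw [← Real.exp_add, neg_add_cancel, Real.exp_zero]
      simp only [conj_trivial, one_mul]
      rw [← mul_comm (Real.exp (y i)), ← mul_assoc, h5, one_mul]
    · intro j _ hj
      rw [b.inner_eq_zero hj, zero_mul, zero_mul]
    · intro h
      exact absurd (Finset.mem_univ i) h
  refine ⟨ι, inferInstance, b, fun i => -y i, fun i => ?_, fun i => ?_, fun i j hij => ?_⟩
  · rw [LinearMap.neg_apply, h1, neg_smul]
  · rw [key, inner_smul_left, inner_smul_right, h2]
    have h5 : Real.exp (-y i) * Real.exp (y i) = 1 := by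
      rw [← Real.exp_add, neg_add_cancel, Real.exp_zero]
    simp only [conj_trivial]
    rw [h5, mul_one]
  · rw [key, key, inner_smul_left, inner_smul_right, h3 i j hij, mul_zero, mul_zero]

end

section
variable {Γ : Type} [Group Γ] {V U : Type} [NormedAddCommGroup V] [InnerProductSpace ℝ V]
  [FiniteDimensional ℝ V] [NormedAddCommGroup U] [InnerProductSpace ℝ U] [FiniteDimensional ℝ U]

/-- the representation on `U ⊗ V ≅ Hom(V, U)` -/
noncomputable def homRep (σ : Representation ℝ Γ U) (ρ : Representation ℝ Γ V) :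
    Representation ℝ Γ (U ⊗[ℝ] V) where
  toFun γ := TensorProduct.map (σ γ) (LinearMap.adjoint (ρ γ⁻¹))
  map_one' := by
    rw [map_one, inv_one, map_one]
    have : LinearMap.adjoint (1 : V →ₗ[ℝ] V) = LinearMap.id := by
      refine LinearMap.ext fun x => ext_inner_right ℝ fun y => ?_
      rw [LinearMap.adjoint_inner_left]
      rfl
    rw [this]
    exact TensorProduct.map_id
  map_mul' γ δ := by
    rw [mul_inv_rev, map_mul, map_mul]
    have : LinearMap.adjoint (ρ δ⁻¹ * ρ γ⁻¹) =
        LinearMap.adjoint (ρ γ⁻¹) ∘ₗ LinearMap.adjoint (ρ δ⁻¹) := by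
      refine LinearMap.ext fun x => ext_inner_right ℝ fun y => ?_
      rw [LinearMap.adjoint_inner_left, LinearMap.comp_apply, LinearMap.adjoint_inner_left,
        LinearMap.adjoint_inner_left]
      rfl
    rw [this]
    exact TensorProduct.map_comp _ _ _ _

theorem Bal.hom {S : Finset Γ} {σ : Representation ℝ Γ U} {ρ : Representation ℝ Γ V}
    (hσ : Bal S σ) (hρ : Bal S ρ) : Bal S (homRep σ ρ) := by
  obtain ⟨Y, hY, hsum⟩ := hσ
  obtain ⟨Z, hZ, hsum'⟩ := hρ
  refine ⟨fun s => TensorProduct.map (Y s) LinearMap.id + TensorProduct.map LinearMap.id (-Z s),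
    fun s hs => ?_, ?_⟩
  · refine (hY s hs).tensor ((hZ s hs).dual (fun v => ⟨ρ s⁻¹ v, rep_apply_inv ρ s v⟩) ?_)
    intro x z
    rw [LinearMap.adjoint_inner_left, rep_inv_apply]
  · have h1 : ∀ s, TensorProduct.map (Y s) (LinearMap.id : V →ₗ[ℝ] V) +
        TensorProduct.map (LinearMap.id : U →ₗ[ℝ] U) (-Z s) =
        (TensorProduct.mapBilinear (RingHom.id ℝ) U V U V).flip LinearMap.id (Y s) -
          TensorProduct.mapBilinear (RingHom.id ℝ) U V U V LinearMap.id (Z s) := by
      intro s
      ext u v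
      simp [TensorProduct.tmul_neg, sub_eq_add_neg]
    rw [Finset.sum_congr rfl fun s _ => h1 s, Finset.sum_sub_distrib, ← map_sum, ← map_sum, hsum,
      hsum', map_zero, map_zero, sub_zero]

end

end Pool.Agent.U352.SA
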