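import Pool.Agent.U352.SA.Log

/-!
The sum of the squares of the logarithms of the eigenvalues of `Rᵀ R`.
-/

set_option autoImplicit false
set_option linter.unusedSectionVars false

open scoped InnerProductSpace

namespace Pool.Agent.U352.SA

theorem abs_log_le {u K : ℝ} (hu : 0 < u) (hK : 1 ≤ K) (h : 1 / u ≤ K) : |Real.log u| ≤ K * |u - 1| := by
  have h1 : Real.log u ≤ u - 1 := Real.log_le_sub_one_of_pos hu
  have h2 : 1 - 1 / u ≤ Real.log u := by
    have := Real.one_sub_inv_le_log_of_pos hu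
    rwa [one_div]
  rcases le_total 1 u with h3 | h3
  · have h4 : 0 ≤ Real.log u := Real.log_nonneg h3
    rw [abs_of_nonneg h4, abs_of_nonneg (by linarith)]
    nlinarith
  · have h4 : Real.log u ≤ 0 := Real.log_nonpos hu.le h3
    rw [abs_of_nonpos h4, abs_of_nonpos (by linarith)]
    have h5 : 1 / u - 1 = (1 / u) * (1 - u) := by field_simp
    have h6 : (1 / u) * (1 - u) ≤ K * (1 - u) := by
      apply mul_le_mul_of_nonneg_right h (by linarith)
    linarith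

/-- the scalar inequality -/
theorem scal {M : ℝ} (hM : 1 ≤ M) : ∃ C : ℝ, 0 ≤ C ∧ ∀ α β : ℝ, M⁻¹ ≤ α → α ≤ M → M⁻¹ ≤ β → β ≤ M →
    Real.log β ^ 2 ≤ Real.log α ^ 2 + 2 * (Real.log α / α) * (β - α) + C * (β - α) ^ 2 := by
  have hM0 : 0 < M := by linarith
  refine ⟨(M ^ 4 + 2 * (M * M ^ 2)) * M ^ 2, by positivity, fun α β h1 h2 h3 h4 => ?_⟩
  have hMi : 0 < M⁻¹ := inv_pos.2 hM0
  have hα : 0 < α := lt_of_lt_of_le hMi h1
  have hβ : 0 < β := lt_of_lt_of_le hMi h3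
  set u := β / α with hu
  have hu0 : 0 < u := div_pos hβ hα
  have hK : 1 / u ≤ M ^ 2 := by
    rw [hu, one_div_div, div_le_iff₀ hβ]
    have : M ^ 2 * β ≥ M ^ 2 * M⁻¹ := by gcongr
    have h5 : M ^ 2 * M⁻¹ = M := by field_simp
    linarith
  have hK1 : 1 ≤ M ^ 2 := one_le_pow₀ hM
  have hlogu : |Real.log u| ≤ M ^ 2 * |u - 1| := abs_log_le hu0 hK1 hK
  have hlogα : |Real.log α| ≤ M := by
    have h5 : Real.log α ≤ M := by
      have := Real.log_le_sub_one_of_pos hα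
      linarith
    have h6 : -M ≤ Real.log α := by
      have := Real.one_sub_inv_le_log_of_pos hα
      have h7 : α⁻¹ ≤ M := by
        rw [inv_le_comm₀ hα hM0]; exact h1
      linarith
    exact abs_le.2 ⟨h6, h5⟩
  have hlogβ : Real.log β = Real.log α + Real.log u := by
    rw [hu, Real.log_div hβ.ne' hα.ne']; ring
  have hrem0 : 0 ≤ u - 1 - Real.log u := by
    have := Real.log_le_sub_one_of_pos hu0
    linarith
  have hrem : u - 1 - Real.log u ≤ M ^ 2 * (u - 1) ^ 2 := by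
    have h5 := Real.one_sub_inv_le_log_of_pos hu0
    have h6 : u - 1 - (1 - u⁻¹) = (1 / u) * (u - 1) ^ 2 := by
      field_simp
    have h7 : (1 / u) * (u - 1) ^ 2 ≤ M ^ 2 * (u - 1) ^ 2 :=
      mul_le_mul_of_nonneg_right hK (sq_nonneg _)
    linarith
  have hsq : Real.log u ^ 2 ≤ M ^ 4 * (u - 1) ^ 2 := by
    rw [← sq_abs (Real.log u), ← sq_abs (u - 1)]
    have := pow_le_pow_left₀ (abs_nonneg _) hlogu 2
    calc |Real.log u| ^ 2 ≤ (M ^ 2 * |u - 1|) ^ 2 := this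
      _ = M ^ 4 * |u - 1| ^ 2 := by ring
  have hcross : -(2 * Real.log α * (u - 1 - Real.log u)) ≤ 2 * (M * (M ^ 2 * (u - 1) ^ 2)) := by
    have h5 : -Real.log α ≤ M := by linarith [neg_abs_le (Real.log α), abs_le.1 hlogα]
    have h6 : -(Real.log α * (u - 1 - Real.log u)) ≤ M * (u - 1 - Real.log u) := by
      have := mul_le_mul_of_nonneg_right h5 hrem0
      linarith
    have h7 : M * (u - 1 - Real.log u) ≤ M * (M ^ 2 * (u - 1) ^ 2) :=
      mul_le_mul_of_nonneg_left hrem hM0.le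
    linarith
  have hu1 : (u - 1) ^ 2 ≤ M ^ 2 * (β - α) ^ 2 := by
    have h5 : u - 1 = (β - α) / α := by rw [hu]; field_simp
    rw [h5, div_pow, div_le_iff₀ (by positivity)]
    have h6 : 1 ≤ M * α := by
      have : M * M⁻¹ ≤ M * α := by gcongr
      rwa [mul_inv_cancel₀ hM0.ne'] at this
    have h7 : 1 ≤ (M * α) ^ 2 := one_le_pow₀ h6
    nlinarith [sq_nonneg (β - α)]
  have hlin : 2 * (Real.log α / α) * (β - α) = 2 * Real.log α * (u - 1) := by
    rw [hu]; field_simp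
  rw [hlogβ, hlin]
  have e1 : (Real.log α + Real.log u) ^ 2 = Real.log α ^ 2 + 2 * Real.log α * (u - 1) +
      -(2 * Real.log α * (u - 1 - Real.log u)) + Real.log u ^ 2 := by ring
  rw [e1]
  have h8 : (M ^ 4 + 2 * (M * M ^ 2)) * (u - 1) ^ 2 ≤
      (M ^ 4 + 2 * (M * M ^ 2)) * (M ^ 2 * (β - α) ^ 2) :=
    mul_le_mul_of_nonneg_left hu1 (by positivity)
  have h9 : (M ^ 4 + 2 * (M * M ^ 2)) * (M ^ 2 * (β - α) ^ 2) =
      (M ^ 4 + 2 * (M * M ^ 2)) * M ^ 2 * (β - α) ^ 2 := by ring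
  nlinarith

section
variable {V : Type} [NormedAddCommGroup V] [InnerProductSpace ℝ V] [FiniteDimensional ℝ V]
  [CompleteSpace V]

/-- `Rᵀ R` -/
noncomputable def gram (R : V →L[ℝ] V) : V →L[ℝ] V := ContinuousLinearMap.adjoint R * R

theorem gram_inner (R : V →L[ℝ] V) (x y : V) : ⟪gram R x, y⟫_ℝ = ⟪R x, R y⟫_ℝ := by
  show ⟪ContinuousLinearMap.adjoint R (R x), y⟫_ℝ = _
  rw [ContinuousLinearMap.adjoint_inner_left]

theorem gram_symm (R : V →L[ℝ] V) : ((gram R : V →L[ℝ] V) : V →ₗ[ℝ] V).IsSymmetric := by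
  intro x y
  show ⟪gram R x, y⟫_ℝ = ⟪x, gram R y⟫_ℝ
  rw [gram_inner, real_inner_comm (gram R y) x, gram_inner, real_inner_comm]

/-- the eigenbasis -/
noncomputable def eb (R : V →L[ℝ] V) : OrthonormalBasis (Fin (Module.finrank ℝ V)) ℝ V :=
  (gram_symm R).eigenvectorBasis rfl

/-- the eigenvalues -/
noncomputable def ev (R : V →L[ℝ] V) : Fin (Module.finrank ℝ V) → ℝ := (gram_symm R).eigenvalues rfl

theorem gram_eb (R : V →L[ℝ] V) (i) : gram R (eb R i) = ev R i • eb R i :=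
  (gram_symm R).apply_eigenvectorBasis rfl i

theorem inner_eb (R : V →L[ℝ] V) (i j) (h : i ≠ j) : ⟪R (eb R i), R (eb R j)⟫_ℝ = 0 := by
  rw [← gram_inner, gram_eb, inner_smul_left, (eb R).inner_eq_zero h, mul_zero]

theorem inner_eb_self (R : V →L[ℝ] V) (i) : ⟪R (eb R i), R (eb R i)⟫_ℝ = ev R i := by
  rw [← gram_inner, gram_eb, inner_smul_left, real_inner_self_eq_norm_sq, (eb R).norm_eq_one]
  simp

theorem ev_le (R : V →L[ℝ] V) (i) : ev R i ≤ ‖R‖ ^ 2 := by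
  rw [← inner_eb_self, real_inner_self_eq_norm_sq]
  have h := R.le_opNorm (eb R i)
  rw [(eb R).norm_eq_one, mul_one] at h
  exact pow_le_pow_left₀ (norm_nonneg _) h 2

theorem one_le_ev {R R' : V →L[ℝ] V} (h : R' * R = 1) (i) : 1 ≤ ‖R'‖ ^ 2 * ev R i := by
  rw [← inner_eb_self, real_inner_self_eq_norm_sq, ← mul_pow]
  have h1 : R' (R (eb R i)) = eb R i := by
    have := congrArg (fun A : V →L[ℝ] V => A (eb R i)) h
    simpa using this
  have h2 := R'.le_opNorm (R (eb R i))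
  rw [h1, (eb R).norm_eq_one] at h2
  exact one_le_pow₀ h2

theorem ev_pos {R R' : V →L[ℝ] V} (h : R' * R = 1) (i) : 0 < ev R i := by
  have h1 := one_le_ev h i
  have h2 : 0 ≤ ev R i := by rw [← inner_eb_self]; exact real_inner_self_nonneg
  rcases h2.lt_or_eq with h3 | h3
  · exact h3
  · rw [← h3, mul_zero] at h1
    exact absurd h1 (by norm_num)

/-- the functional -/
noncomputable def Lam (R : V →L[ℝ] V) : ℝ := ∑ i, Real.log (ev R i) ^ 2

theorem Lam_nonneg (R : V →L[ℝ] V) : 0 ≤ Lam R := Finset.sum_nonneg fun _ _ => sq_nonneg _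

theorem norm_le_of_Lam {R R' : V →L[ℝ] V} (h : R' * R = 1) (h' : R * R' = 1) {F : ℝ}
    (hF : Lam R ≤ F) (hF1 : 1 ≤ F) : ‖R‖ ≤ Real.exp F ∧ ‖R'‖ ≤ Real.exp F := by
  have hl : ∀ i, |Real.log (ev R i)| ≤ F := by
    intro i
    have h1 : Real.log (ev R i) ^ 2 ≤ F := le_trans
      (Finset.single_le_sum (f := fun i => Real.log (ev R i) ^ 2) (fun _ _ => sq_nonneg _)
        (Finset.mem_univ i)) hF
    have h2 : Real.log (ev R i) ^ 2 ≤ F ^ 2 := h1.trans (by nlinarith)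
    exact abs_le_of_sq_le_sq h2 (by linarith)
  have hup : ∀ i, ev R i ≤ Real.exp F := fun i => by
    rw [← Real.exp_log (ev_pos h i)]
    exact Real.exp_le_exp.2 (abs_le.1 (hl i)).2
  have hlo : ∀ i, Real.exp (-F) ≤ ev R i := fun i => by
    rw [← Real.exp_log (ev_pos h i)]
    exact Real.exp_le_exp.2 (abs_le.1 (hl i)).1
  have hquad : ∀ x, ‖R x‖ ^ 2 = ∑ i, ⟪eb R i, x⟫_ℝ ^ 2 * ev R i := by
    intro x
    have h1 := quadR (R := (R : V →ₗ[ℝ] V)) (eb R) (fun i => Real.log (ev R i))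
      (fun i => by rw [Real.exp_log (ev_pos h i)]; exact inner_eb_self R i)
      (fun i j hij => inner_eb R i j hij) x x
    rw [← real_inner_self_eq_norm_sq]
    refine h1.trans (Finset.sum_congr rfl fun i _ => ?_)
    rw [Real.exp_log (ev_pos h i)]; ring
  have hpars : ∀ x, ‖x‖ ^ 2 = ∑ i, ⟪eb R i, x⟫_ℝ ^ 2 := by
    intro x
    have := (eb R).sum_sq_norm_inner_right x
    rw [← this]
    simp [Real.norm_eq_abs, sq_abs]
  have hexp : Real.exp F ≤ Real.exp F ^ 2 := by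
    have : 1 ≤ Real.exp F := Real.one_le_exp (by linarith)
    nlinarith
  constructor
  · refine R.opNorm_le_bound (Real.exp_pos F).le fun x => ?_
    refine (sq_le_sq₀ (norm_nonneg _) (by positivity)).1 ?_
    rw [hquad, mul_pow, hpars, Finset.mul_sum]
    refine Finset.sum_le_sum fun i _ => ?_
    rw [mul_comm]
    exact mul_le_mul_of_nonneg_right ((hup i).trans hexp) (sq_nonneg _)
  · refine R'.opNorm_le_bound (Real.exp_pos F).le fun x => ?_
    have hx : R (R' x) = x := by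
      have := congrArg (fun A : V →L[ℝ] V => A x) h'
      simpa using this
    refine (sq_le_sq₀ (norm_nonneg _) (by positivity)).1 ?_
    have h1 : ‖x‖ ^ 2 = ∑ i, ⟪eb R i, R' x⟫_ℝ ^ 2 * ev R i := by rw [← hquad, hx]
    rw [mul_pow, h1, hpars (R' x), Finset.mul_sum]
    refine Finset.sum_le_sum fun i _ => ?_
    have h2 : 1 ≤ Real.exp F ^ 2 * ev R i := by
      have h3 : Real.exp F * Real.exp (-F) = 1 := by rw [← Real.exp_add]; simp
      calc (1 : ℝ) = Real.exp F * Real.exp (-F) := h3.symm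
        _ ≤ Real.exp F ^ 2 * ev R i := mul_le_mul hexp (hlo i) (Real.exp_pos _).le (by positivity)
    nlinarith [sq_nonneg (⟪eb R i, R' x⟫_ℝ)]

/-- Klein's inequality -/
theorem klein {M : ℝ} (hM : 1 ≤ M) : ∃ C : ℝ, 0 ≤ C ∧ ∀ R₀ R₀' R₁ R₁' : V →L[ℝ] V,
    R₀' * R₀ = 1 → R₁' * R₁ = 1 → ‖R₀‖ ≤ M → ‖R₀'‖ ≤ M → ‖R₁‖ ≤ M → ‖R₁'‖ ≤ M →
    Lam R₁ ≤ ∑ i, (Real.log (ev R₀ i) ^ 2 +
      2 * (Real.log (ev R₀ i) / ev R₀ i) * (‖R₁ (eb R₀ i)‖ ^ 2 - ev R₀ i) +
        C * ‖(gram R₁ - gram R₀) (eb R₀ i)‖ ^ 2) := by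
  classical
  obtain ⟨C, hC, hsc⟩ := scal (M := M ^ 2) (one_le_pow₀ hM)
  refine ⟨C, hC, fun R₀ R₀' R₁ R₁' h0 h1 n0 n0' n1 n1' => ?_⟩
  have hup : ∀ (R : V →L[ℝ] V), ‖R‖ ≤ M → ∀ i, ev R i ≤ M ^ 2 := fun R hR i =>
    (ev_le R i).trans (pow_le_pow_left₀ (norm_nonneg _) hR 2)
  have hlo : ∀ (R R' : V →L[ℝ] V), R' * R = 1 → ‖R'‖ ≤ M → ∀ i, (M ^ 2)⁻¹ ≤ ev R i := by
    intro R R' h hR' i
    have h2 := one_le_ev h i
    have h3 : ‖R'‖ ^ 2 ≤ M ^ 2 := pow_le_pow_left₀ (norm_nonneg _) hR' 2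
    have h4 : 1 ≤ M ^ 2 * ev R i := h2.trans (mul_le_mul_of_nonneg_right h3 (ev_pos h i).le)
    rw [inv_le_iff_one_le_mul₀ (by positivity)]
    linarith
  set e := eb R₀ with he
  set α := ev R₀ with hα
  set w := eb R₁ with hw
  set β := ev R₁ with hβ
  have hp1 : ∀ j, ∑ i, ⟪e i, w j⟫_ℝ ^ 2 = 1 := by
    intro j
    have := e.sum_sq_norm_inner_right (w j)
    rw [w.norm_eq_one] at this
    simpa [Real.norm_eq_abs, sq_abs] using this
  have hp2 : ∀ i, ∑ j, ⟪e i, w j⟫_ℝ ^ 2 = 1 := by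
    intro i
    have := w.sum_sq_norm_inner_left (e i)
    rw [e.norm_eq_one] at this
    simpa [Real.norm_eq_abs, sq_abs] using this
  have hB : ∀ i, ‖R₁ (e i)‖ ^ 2 = ∑ j, ⟪e i, w j⟫_ℝ ^ 2 * β j := by
    intro i
    have h2 := quadR (R := (R₁ : V →ₗ[ℝ] V)) w (fun i => Real.log (β i))
      (fun i => by rw [Real.exp_log (ev_pos h1 i)]; exact inner_eb_self R₁ i)
      (fun i j hij => inner_eb R₁ i j hij) (e i) (e i)
    rw [← real_inner_self_eq_norm_sq]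
    refine h2.trans (Finset.sum_congr rfl fun j _ => ?_)
    rw [Real.exp_log (ev_pos h1 j), real_inner_comm (w j) (e i)]; ring
  have hD : ∀ i, ‖(gram R₁ - gram R₀) (e i)‖ ^ 2 = ∑ j, ⟪e i, w j⟫_ℝ ^ 2 * (β j - α i) ^ 2 := by
    intro i
    have h2 := w.sum_sq_norm_inner_right ((gram R₁ - gram R₀) (e i))
    rw [← h2]
    refine Finset.sum_congr rfl fun j _ => ?_
    have h3 : ⟪w j, (gram R₁ - gram R₀) (e i)⟫_ℝ = ⟪e i, w j⟫_ℝ * (β j - α i) := by
      rw [sub_apply, inner_sub_right, gram_eb, inner_smul_right,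
        real_inner_comm (w j) (e i), real_inner_comm (gram R₁ (e i)) (w j), gram_inner,
        real_inner_comm, ← gram_inner, gram_eb, inner_smul_left, real_inner_comm (e i) (w j)]
      simp only [conj_trivial]
      ring
    rw [h3, Real.norm_eq_abs, sq_abs, mul_pow]
  have hsum : Lam R₁ = ∑ i, ∑ j, ⟪e i, w j⟫_ℝ ^ 2 * Real.log (β j) ^ 2 := by
    rw [Finset.sum_comm]
    show ∑ j, Real.log (β j) ^ 2 = _
    refine Finset.sum_congr rfl fun j _ => ?_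
    rw [← Finset.sum_mul, hp1, one_mul]
  rw [hsum]
  refine Finset.sum_le_sum fun i _ => ?_
  have e1 : Real.log (α i) ^ 2 + 2 * (Real.log (α i) / α i) * (‖R₁ (e i)‖ ^ 2 - α i) +
      C * ‖(gram R₁ - gram R₀) (e i)‖ ^ 2 = ∑ j, ⟪e i, w j⟫_ℝ ^ 2 * (Real.log (α i) ^ 2 +
        2 * (Real.log (α i) / α i) * (β j - α i) + C * (β j - α i) ^ 2) := by
    rw [hB, hD]
    have e2 : ∑ j, ⟪e i, w j⟫_ℝ ^ 2 * (Real.log (α i) ^ 2 +
        2 * (Real.log (α i) / α i) * (β j - α i) + C * (β j - α i) ^ 2) =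
        Real.log (α i) ^ 2 * (∑ j, ⟪e i, w j⟫_ℝ ^ 2) + 2 * (Real.log (α i) / α i) *
          ((∑ j, ⟪e i, w j⟫_ℝ ^ 2 * β j) - α i * ∑ j, ⟪e i, w j⟫_ℝ ^ 2) +
          C * ∑ j, ⟪e i, w j⟫_ℝ ^ 2 * (β j - α i) ^ 2 := by
      simp only [Finset.mul_sum, ← Finset.sum_add_distrib, ← Finset.sum_sub_distrib]
      refine Finset.sum_congr rfl fun j _ => ?_
      ring
    rw [e2, hp2]
    ring
  rw [e1]
  refine Finset.sum_le_sum fun j _ => mul_le_mul_of_nonneg_left ?_ (sq_nonneg _)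
  exact hsc (α i) (β j) (hlo R₀ R₀' h0 n0' i) (hup R₀ n0 i) (hlo R₁ R₁' h1 n1' j) (hup R₁ n1 j)

end

end Pool.Agent.U352.SA
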