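import Mathlib

/-!
Logarithms of positive operators, balanced representations, and invariant complements.
-/

set_option autoImplicit false
set_option linter.unusedSectionVars false

open scoped InnerProductSpace

namespace Pool.Agent.U352.SA

section
variable {V : Type} [NormedAddCommGroup V] [InnerProductSpace ℝ V] [FiniteDimensional ℝ V]

/-- `Y` is the logarithm of `Rᵀ R`. -/
def LogOf (Y R : V →ₗ[ℝ] V) : Prop :=
  ∃ (ι : Type) (_ : Fintype ι) (b : OrthonormalBasis ι ℝ V) (y : ι → ℝ),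
    (∀ i, Y (b i) = y i • b i) ∧ (∀ i, ⟪R (b i), R (b i)⟫_ℝ = Real.exp (y i)) ∧
      ∀ i j, i ≠ j → ⟪R (b i), R (b j)⟫_ℝ = 0

theorem quadR {R : V →ₗ[ℝ] V} {ι : Type} [Fintype ι] (b : OrthonormalBasis ι ℝ V) (y : ι → ℝ)
    (h2 : ∀ i, ⟪R (b i), R (b i)⟫_ℝ = Real.exp (y i))
    (h3 : ∀ i j, i ≠ j → ⟪R (b i), R (b j)⟫_ℝ = 0) (z x : V) :
    ⟪R z, R x⟫_ℝ = ∑ i, ⟪b i, z⟫_ℝ * ⟪b i, x⟫_ℝ * Real.exp (y i) := by
  classical
  conv_lhs => rw [← b.sum_repr' z, ← b.sum_repr' x]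
  rw [map_sum, map_sum, sum_inner]
  refine Finset.sum_congr rfl fun i _ => ?_
  rw [inner_sum, Finset.sum_eq_single i]
  · rw [map_smul, map_smul, inner_smul_left, inner_smul_right, h2]
    simp
    ring
  · intro j _ hj
    rw [map_smul, map_smul, inner_smul_left, inner_smul_right, h3 i j hj.symm]
    simp
  · intro h
    exact absurd (Finset.mem_univ i) h

theorem quadY {Y : V →ₗ[ℝ] V} {ι : Type} [Fintype ι] (b : OrthonormalBasis ι ℝ V) (y : ι → ℝ)
    (h1 : ∀ i, Y (b i) = y i • b i) (x : V) :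
    ⟪x, Y x⟫_ℝ = ∑ i, ⟪b i, x⟫_ℝ ^ 2 * y i := by
  classical
  conv_lhs => rw [← b.sum_repr' x]
  rw [map_sum, inner_sum]
  refine Finset.sum_congr rfl fun i _ => ?_
  rw [sum_inner, Finset.sum_eq_single i]
  · rw [map_smul, h1, inner_smul_left, inner_smul_right, inner_smul_right]
    simp
    ring
  · intro j _ hj
    rw [map_smul, h1, inner_smul_left, inner_smul_right, inner_smul_right, b.inner_eq_zero hj]
    simp
  · intro h
    exact absurd (Finset.mem_univ i) h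

theorem jensen {Y R : V →ₗ[ℝ] V} (h : LogOf Y R) {x : V} (hx : ‖x‖ = 1) :
    Real.exp ⟪x, Y x⟫_ℝ ≤ ⟪R x, R x⟫_ℝ ∧
      (Real.exp ⟪x, Y x⟫_ℝ = ⟪R x, R x⟫_ℝ → ∀ z, ⟪z, x⟫_ℝ = 0 → ⟪R z, R x⟫_ℝ = 0) := by
  classical
  obtain ⟨ι, _, b, y, h1, h2, h3⟩ := h
  set m : ℝ := ⟪x, Y x⟫_ℝ with hm
  have hp : ∑ i, ⟪b i, x⟫_ℝ ^ 2 = 1 := by
    have := b.sum_sq_norm_inner_right x
    rw [hx] at this
    simpa [Real.norm_eq_abs, sq_abs] using this
  have hmy : m = ∑ i, ⟪b i, x⟫_ℝ ^ 2 * y i := by rw [hm, quadY b y h1]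
  have hR : ⟪R x, R x⟫_ℝ = ∑ i, ⟪b i, x⟫_ℝ ^ 2 * Real.exp (y i) := by
    rw [quadR b y h2 h3]
    refine Finset.sum_congr rfl fun i _ => ?_
    ring
  have hdiff : ⟪R x, R x⟫_ℝ - Real.exp m =
      ∑ i, ⟪b i, x⟫_ℝ ^ 2 * (Real.exp (y i) - Real.exp m * (1 + (y i - m))) := by
    have e1 : ∑ i, ⟪b i, x⟫_ℝ ^ 2 * (Real.exp (y i) - Real.exp m * (1 + (y i - m))) =
        ∑ i, ⟪b i, x⟫_ℝ ^ 2 * Real.exp (y i) - Real.exp m * ((∑ i, ⟪b i, x⟫_ℝ ^ 2) +
          ((∑ i, ⟪b i, x⟫_ℝ ^ 2 * y i) - m * ∑ i, ⟪b i, x⟫_ℝ ^ 2)) := by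
      simp only [Finset.mul_sum, ← Finset.sum_add_distrib, ← Finset.sum_sub_distrib]
      refine Finset.sum_congr rfl fun i _ => ?_
      ring
    rw [e1, ← hmy, hp, hR]
    ring
  have hterm : ∀ i, 0 ≤ ⟪b i, x⟫_ℝ ^ 2 * (Real.exp (y i) - Real.exp m * (1 + (y i - m))) := by
    intro i
    refine mul_nonneg (sq_nonneg _) ?_
    have h4 := Real.add_one_le_exp (y i - m)
    have h5 : Real.exp (y i) = Real.exp m * Real.exp (y i - m) := by
      rw [← Real.exp_add]; congr 1; ring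
    rw [h5, ← mul_sub]
    exact mul_nonneg (Real.exp_pos _).le (by linarith)
  refine ⟨?_, fun heq z hz => ?_⟩
  · have := Finset.sum_nonneg fun i (_ : i ∈ Finset.univ) => hterm i
    linarith
  · have h0 : ∑ i, ⟪b i, x⟫_ℝ ^ 2 * (Real.exp (y i) - Real.exp m * (1 + (y i - m))) = 0 := by
      rw [← hdiff, heq, sub_self]
    rw [Finset.sum_eq_zero_iff_of_nonneg fun i _ => hterm i] at h0
    have h6 : ∀ i, ⟪b i, x⟫_ℝ * Real.exp (y i) = ⟪b i, x⟫_ℝ * Real.exp m := by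
      intro i
      by_cases hi : ⟪b i, x⟫_ℝ = 0
      · rw [hi, zero_mul, zero_mul]
      have h7 := h0 i (Finset.mem_univ i)
      rcases mul_eq_zero.1 h7 with h8 | h8
      · exact absurd (pow_eq_zero_iff two_ne_zero |>.1 h8) hi
      · have h5 : Real.exp (y i) = Real.exp m * Real.exp (y i - m) := by
          rw [← Real.exp_add]; congr 1; ring
        have h9 : y i - m = 0 := by
          by_contra hne
          have h10 := Real.add_one_lt_exp hne
          rw [h5, ← mul_sub] at h8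
          rcases mul_eq_zero.1 h8 with h11 | h11
          · exact (Real.exp_pos m).ne' h11
          · linarith
        rw [sub_eq_zero.1 h9]
    rw [quadR b y h2 h3]
    have h12 : ∀ i, ⟪b i, z⟫_ℝ * ⟪b i, x⟫_ℝ * Real.exp (y i) =
        Real.exp m * (⟪z, b i⟫_ℝ * ⟪b i, x⟫_ℝ) := by
      intro i
      rw [mul_assoc, h6 i, real_inner_comm z (b i)]
      ring
    rw [Finset.sum_congr rfl fun i _ => h12 i, ← Finset.mul_sum, b.sum_inner_mul_inner, hz,
      mul_zero]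

/-- the trace of `Y` on `W` -/
noncomputable def trOn (W : Submodule ℝ V) (Y : V →ₗ[ℝ] V) : ℝ :=
  LinearMap.trace ℝ W ((W.orthogonalProjectionOnto : V →ₗ[ℝ] W) ∘ₗ Y ∘ₗ W.subtype)

theorem trOn_eq (W : Submodule ℝ V) (Y : V →ₗ[ℝ] V) {ι : Type} [Fintype ι]
    (w : OrthonormalBasis ι ℝ W) : trOn W Y = ∑ i, ⟪(w i : V), Y (w i)⟫_ℝ := by
  classical
  rw [trOn, LinearMap.trace_eq_sum_inner _ w]
  refine Finset.sum_congr rfl fun i _ => ?_
  show ⟪w i, W.orthogonalProjectionOnto (Y (w i))⟫_ℝ = _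
  exact Submodule.inner_orthogonalProjectionOnto_eq_of_mem_left (w i) (Y (w i))

theorem trOn_sum (W : Submodule ℝ V) {α : Type} (S : Finset α) (Y : α → V →ₗ[ℝ] V) :
    trOn W (∑ s ∈ S, Y s) = ∑ s ∈ S, trOn W (Y s) := by
  classical
  rw [trOn_eq W _ (stdOrthonormalBasis ℝ W), Finset.sum_congr rfl fun s _ =>
    trOn_eq W (Y s) (stdOrthonormalBasis ℝ W), Finset.sum_comm]
  refine Finset.sum_congr rfl fun i _ => ?_
  rw [LinearMap.sum_apply, inner_sum]

theorem trace_bound {Y R : V →ₗ[ℝ] V} (h : LogOf Y R) {W : Submodule ℝ V} (RW : W →ₗ[ℝ] W)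
    (hRW : ∀ w : W, (RW w : V) = R w) (hdet : LinearMap.det RW ≠ 0) :
    trOn W Y ≤ 2 * Real.log |LinearMap.det RW| ∧
      (trOn W Y = 2 * Real.log |LinearMap.det RW| →
        ∀ z ∈ Wᗮ, ∀ w ∈ W, ⟪R z, R w⟫_ℝ = 0) := by
  classical
  set B : W →ₗ[ℝ] W := LinearMap.adjoint RW ∘ₗ RW with hB
  have hsym : B.IsSymmetric := by
    intro u v
    rw [hB, LinearMap.comp_apply, LinearMap.comp_apply, LinearMap.adjoint_inner_left,
      LinearMap.adjoint_inner_right]
  set n := Module.finrank ℝ W with hn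
  set w := hsym.eigenvectorBasis hn.symm with hw
  set β := hsym.eigenvalues hn.symm with hβ
  have hBw : ∀ i, B (w i) = β i • w i := fun i => hsym.apply_eigenvectorBasis hn.symm i
  have hβR : ∀ i, ⟪R (w i : V), R (w i)⟫_ℝ = β i := by
    intro i
    have h1 : ⟪w i, B (w i)⟫_ℝ = β i := by
      rw [hBw, inner_smul_right, real_inner_self_eq_norm_sq, w.norm_eq_one]
      ring
    rw [← h1, hB, LinearMap.comp_apply, LinearMap.adjoint_inner_right, Submodule.coe_inner, hRW]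
  have hdetB : |LinearMap.det RW| ^ 2 = ∏ i, β i := by
    have h1 : LinearMap.det B = ∏ i, β i := by
      simpa using hsym.det_eq_prod_eigenvalues hn.symm
    rw [← h1, ← LinearMap.normDet_eq_abs_det]
    exact LinearMap.normDet_sq RW
  have hprod : ∏ i, β i ≠ 0 := by
    rw [← hdetB]
    exact pow_ne_zero 2 (abs_ne_zero.2 hdet)
  have hβpos : ∀ i, 0 < β i := by
    intro i
    have h1 : 0 ≤ β i := by rw [← hβR]; exact real_inner_self_nonneg
    exact lt_of_le_of_ne h1 (Finset.prod_ne_zero_iff.1 hprod i (Finset.mem_univ i)).symm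
  have hlog : 2 * Real.log |LinearMap.det RW| = ∑ i, Real.log (β i) := by
    rw [← Real.log_prod (fun i _ => (hβpos i).ne'), ← hdetB, Real.log_pow]
    norm_num
  have hnorm : ∀ i, ‖(w i : V)‖ = 1 := fun i => w.norm_eq_one i
  have hle : ∀ i, ⟪(w i : V), Y (w i)⟫_ℝ ≤ Real.log (β i) := by
    intro i
    have h1 := (jensen h (hnorm i)).1
    rw [hβR] at h1
    exact (Real.le_log_iff_exp_le (hβpos i)).2 h1
  rw [trOn_eq W Y w, hlog]
  refine ⟨Finset.sum_le_sum fun i _ => hle i, fun heq z hz => ?_⟩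
  have h1 := (Finset.sum_eq_sum_iff_of_le fun i _ => hle i).1 heq
  have h2 : ∀ i, ⟪R z, R (w i : V)⟫_ℝ = 0 := by
    intro i
    refine (jensen h (hnorm i)).2 ?_ z ?_
    · rw [h1 i (Finset.mem_univ i), Real.exp_log (hβpos i), hβR]
    · rw [real_inner_comm]
      exact hz _ (w i).2
  intro u hu
  have h3 : (u : V) = ∑ i, ⟪w i, (⟨u, hu⟩ : W)⟫_ℝ • (w i : V) := by
    have h4 := w.sum_repr' (⟨u, hu⟩ : W)
    have h5 := congrArg W.subtype h4
    rw [map_sum] at h5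
    exact h5.symm.trans (Finset.sum_congr rfl fun i _ => rfl)
  rw [h3, map_sum, inner_sum]
  refine Finset.sum_eq_zero fun i _ => ?_
  rw [map_smul, inner_smul_right, h2, mul_zero]

end

section
variable {Γ : Type} [Group Γ] {V : Type} [NormedAddCommGroup V] [InnerProductSpace ℝ V]
  [FiniteDimensional ℝ V]

/-- a balanced representation -/
def Bal (S : Finset Γ) (ρ : Representation ℝ Γ V) : Prop :=
  ∃ Y : Γ → V →ₗ[ℝ] V, (∀ s ∈ S, LogOf (Y s) (ρ s)) ∧ ∑ s ∈ S, Y s = 0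

theorem rep_inv_apply {V : Type} [AddCommGroup V] [Module ℝ V] (ρ : Representation ℝ Γ V) (γ : Γ)
    (x : V) : ρ γ⁻¹ (ρ γ x) = x := by
  rw [← Module.End.mul_apply, ← map_mul, inv_mul_cancel, map_one, Module.End.one_apply]

theorem rep_apply_inv {V : Type} [AddCommGroup V] [Module ℝ V] (ρ : Representation ℝ Γ V) (γ : Γ)
    (x : V) : ρ γ (ρ γ⁻¹ x) = x := by
  rw [← Module.End.mul_apply, ← map_mul, mul_inv_cancel, map_one, Module.End.one_apply]

/-- the orthogonal complement of an invariant subspace of a balanced representation is invariant -/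
theorem orth_inv {S : Finset Γ} (hS : ∀ s ∈ S, s⁻¹ ∈ S)
    (hgen : Subgroup.closure (S : Set Γ) = ⊤) {ρ : Representation ℝ Γ V} (hρ : Bal S ρ)
    {W : Submodule ℝ V} (hW : ∀ γ, ∀ w ∈ W, ρ γ w ∈ W) (γ : Γ) {z : V} (hz : z ∈ Wᗮ) :
    ρ γ z ∈ Wᗮ := by
  classical
  obtain ⟨Y, hY, hsum⟩ := hρ
  let RW : Γ → W →ₗ[ℝ] W := fun γ => (ρ γ).restrict (hW γ)
  have hRW : ∀ γ (w : W), (RW γ w : V) = ρ γ w := fun γ w => rfl
  have hinv : ∀ γ, RW γ⁻¹ ∘ₗ RW γ = LinearMap.id := by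
    intro γ
    ext w
    show ρ γ⁻¹ (ρ γ w) = w
    exact rep_inv_apply ρ γ _
  have hdm : ∀ γ, LinearMap.det (RW γ⁻¹) * LinearMap.det (RW γ) = 1 := by
    intro γ
    rw [← LinearMap.det_comp, hinv, LinearMap.det_id]
  have hd : ∀ γ, LinearMap.det (RW γ) ≠ 0 := fun γ h => by
    have := hdm γ
    rw [h, mul_zero] at this
    exact zero_ne_one this
  have hlog : ∀ γ, Real.log |LinearMap.det (RW γ⁻¹)| = -Real.log |LinearMap.det (RW γ)| := by
    intro γ
    have h1 := congrArg (fun t => Real.log |t|) (hdm γ)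
    simp only [abs_mul, abs_one, Real.log_one] at h1
    rw [Real.log_mul (abs_ne_zero.2 (hd _)) (abs_ne_zero.2 (hd _))] at h1
    linarith
  have hzero : ∑ s ∈ S, 2 * Real.log |LinearMap.det (RW s)| = 0 := by
    have h1 : ∑ s ∈ S, 2 * Real.log |LinearMap.det (RW s)| =
        ∑ s ∈ S, 2 * Real.log |LinearMap.det (RW s⁻¹)| := by
      refine Finset.sum_bij (fun s _ => s⁻¹) (fun s hs => hS s hs) (fun a _ b _ hab => inv_inj.1 hab)
        (fun b hb => ⟨b⁻¹, hS b hb, inv_inv b⟩) fun s _ => ?_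
      rw [inv_inv]
    have h2 : ∑ s ∈ S, 2 * Real.log |LinearMap.det (RW s⁻¹)| =
        -∑ s ∈ S, 2 * Real.log |LinearMap.det (RW s)| := by
      rw [← Finset.sum_neg_distrib]
      refine Finset.sum_congr rfl fun s _ => ?_
      rw [hlog]
      ring
    linarith
  have hb := fun s (hs : s ∈ S) => trace_bound (hY s hs) (RW s) (hRW s) (hd s)
  have htr : ∑ s ∈ S, trOn W (Y s) = 0 := by
    rw [← trOn_sum, hsum, trOn, LinearMap.zero_comp, LinearMap.comp_zero, map_zero]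
  have heq := (Finset.sum_eq_sum_iff_of_le fun s hs => (hb s hs).1).1 (htr.trans hzero.symm)
  have hs1 : ∀ s ∈ S, ∀ z ∈ Wᗮ, ρ s z ∈ Wᗮ := by
    intro s hs z hz
    rw [Submodule.mem_orthogonal']
    intro u hu
    have h1 := (hb s hs).2 (heq s hs) z hz (ρ s⁻¹ u) (hW _ u hu)
    rwa [rep_apply_inv] at h1
  have hγ : γ ∈ Subgroup.closure (S : Set Γ) := by rw [hgen]; trivial
  have key : ∀ γ ∈ Subgroup.closure (S : Set Γ), ∀ z ∈ Wᗮ, ρ γ z ∈ Wᗮ := by
    intro γ hγ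
    refine Subgroup.closure_induction_left (p := fun γ _ => ∀ z ∈ Wᗮ, ρ γ z ∈ Wᗮ) ?_ ?_ ?_ hγ
    · intro z hz
      rwa [map_one, Module.End.one_apply]
    · intro x hx y _ ih z hz
      rw [map_mul, Module.End.mul_apply]
      exact hs1 x hx _ (ih z hz)
    · intro x hx y _ ih z hz
      rw [map_mul, Module.End.mul_apply]
      exact hs1 x⁻¹ (hS x hx) _ (ih z hz)
  exact key γ hγ z hz

/-- equivariant left inverses -/
theorem exists_left_inv {S : Finset Γ} (hS : ∀ s ∈ S, s⁻¹ ∈ S)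
    (hgen : Subgroup.closure (S : Set Γ) = ⊤) {ρ : Representation ℝ Γ V} (hρ : Bal S ρ)
    {U : Type} [AddCommGroup U] [Module ℝ U] (σ : Representation ℝ Γ U) (T : U →ₗ[ℝ] V)
    (hT : Function.Injective T) (heq : ∀ γ u, T (σ γ u) = ρ γ (T u)) :
    ∃ l : V →ₗ[ℝ] U, (∀ u, l (T u) = u) ∧ ∀ γ x, l (ρ γ x) = σ γ (l x) := by
  let W := LinearMap.range T
  have hW : ∀ γ, ∀ w ∈ W, ρ γ w ∈ W := by
    rintro γ _ ⟨u, rfl⟩
    exact ⟨σ γ u, heq γ u⟩
  let e : U ≃ₗ[ℝ] W := LinearEquiv.ofInjective T hT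
  refine ⟨e.symm.toLinearMap ∘ₗ (W.orthogonalProjectionOnto : V →ₗ[ℝ] W), fun u => ?_, fun γ x => ?_⟩
  · show e.symm (W.orthogonalProjectionOnto (T u)) = u
    have h1 : W.orthogonalProjectionOnto (T u) = e u := by
      have : T u = ((e u : W) : V) := rfl
      rw [this, Submodule.orthogonalProjectionOnto_mem_subspace_eq_self]
    rw [h1, e.symm_apply_apply]
  · show e.symm (W.orthogonalProjectionOnto (ρ γ x)) = σ γ (e.symm (W.orthogonalProjectionOnto x))
    obtain ⟨u, hu⟩ := e.surjective (W.orthogonalProjectionOnto x)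
    have hu' : (W.orthogonalProjectionOnto x : V) = T u := by rw [← hu]; rfl
    have h2 : x - W.orthogonalProjectionOnto x ∈ Wᗮ := Submodule.sub_starProjection_mem_orthogonal x
    have h3 : ρ γ x = T (σ γ u) + ρ γ (x - W.orthogonalProjectionOnto x) := by
      rw [map_sub, hu', heq, add_sub_cancel]
    have h4 := orth_inv hS hgen hρ hW γ h2
    have h5 : W.orthogonalProjectionOnto (ρ γ x) = e (σ γ u) := by
      rw [h3, map_add, Submodule.orthogonalProjectionOnto_apply_of_mem_orthogonal h4, add_zero]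
      have : T (σ γ u) = ((e (σ γ u) : W) : V) := rfl
      rw [this, Submodule.orthogonalProjectionOnto_mem_subspace_eq_self]
    rw [h5, e.symm_apply_apply, ← hu, e.symm_apply_apply]

end

end Pool.Agent.U352.SA
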