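import Pool.Agent.U352.SA.Zar
import Pool.Agent.U352.SA.Brou
import Pool.Agent.U352.UH.Fg
import Pool.Agent.U352.UH.Grp

/-!
Closed quotients of semialgebraic domains have vector fields without zeros.
-/

set_option autoImplicit false
set_option linter.unusedSectionVars false

open Filter Topology Metric
open scoped InnerProductSpace

namespace Pool.Agent.U352.SA

open Pool.Agent.W689.Mk (lin hol_add hol_sub hol_inv_apply hol_apply_inv lin_inv_apply lin_mul)
open Pool.Agent.W689.Ch (Wt AffMfd exists_wt)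

variable {X Γ E : Type} [TopologicalSpace X] [Group Γ] [MulAction Γ X]
  [NormedAddCommGroup E] [NormedSpace ℝ E] [FiniteDimensional ℝ E] {dev : X → E}
  {hol : Γ →* (E ≃ᵃ[ℝ] E)}

/-- a closed invariant cell in the domain is the whole space -/
theorem full (D : AffMfd X Γ E dev hol) (hinj : Function.Injective dev) {C : Set E}
    (hCne : C.Nonempty) (hCr : C ⊆ Set.range dev)
    {P : Type} [NormedAddCommGroup P] [InnerProductSpace ℝ P] [FiniteDimensional ℝ P]
    {φ : P → E} {ψ : E →ₗ[ℝ] P} (hφ : Continuous φ) (hψφ : ∀ y, ψ (φ y) = y)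
    (hφψ : ∀ x ∈ C, φ (ψ x) = x) (hφC : ∀ y, φ y ∈ C) {r : X → E} (hr : Continuous r)
    (hrC : ∀ x, r x ∈ C) (hre : ∀ (γ : Γ) (x : X), r (γ • x) = hol γ (r x))
    (hrd : ∀ x, dev x ∈ C → r x = dev x) : Set.range dev = Set.univ := by
  classical
  by_contra hne
  have emb : IsOpenEmbedding dev := D.loc.isOpenEmbedding_of_injective hinj
  obtain ⟨q, hq⟩ : ∃ q, q ∉ Set.range dev := by
    by_contra h
    push Not at h
    exact hne (Set.eq_univ_of_forall h)
  have hψc : Continuous ψ := ψ.continuous_of_finiteDimensional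
  have hCc : IsClosed C := by
    have h1 : C = {x | φ (ψ x) = x} := by
      ext x
      exact ⟨fun h => hφψ x h, fun h => by
        have h2 : φ (ψ x) = x := h
        rw [← h2]; exact hφC _⟩
    rw [h1]
    exact isClosed_eq (hφ.comp hψc) continuous_id
  have hqC : q ∉ C := fun h => hq (hCr h)
  have hδ : 0 < infDist q C := (hCc.notMem_iff_infDist_pos hCne).1 hqC
  have hqδ : ∀ y, infDist q C ≤ ‖φ y - q‖ := fun y => by
    have := infDist_le_dist_of_mem (x := q) (hφC y)
    rwa [dist_comm, dist_eq_norm] at this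
  let u : X → P := fun x => ψ (r x)
  have hu : Continuous u := hψc.comp hr
  have hφu : ∀ x, φ (u x) = r x := fun x => hφψ _ (hrC x)
  have hT : ∀ R : ℝ, IsCompact {x : X | ‖u x‖ ≤ R} := by
    intro R
    obtain ⟨K, hK, hcov⟩ := D.cc
    have hc1 : IsCompact (dev ⁻¹' (r '' K)) :=
      (emb.isInducing.isCompact_preimage_iff (by
        rintro _ ⟨x, _, rfl⟩
        exact hCr (hrC x))).2 (hK.image hr)
    have hc2 : IsCompact (dev ⁻¹' (φ '' closedBall 0 R)) :=
      (emb.isInducing.isCompact_preimage_iff (by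
        rintro _ ⟨y, _, rfl⟩
        exact hCr (hφC y))).2 ((isCompact_closedBall _ _).image hφ)
    have hF := D.pd _ (hc1.union hc2)
    have hcomp : IsCompact (⋃ γ ∈ {γ : Γ | ∃ x ∈ dev ⁻¹' (r '' K) ∪ dev ⁻¹' (φ '' closedBall 0 R),
        γ • x ∈ dev ⁻¹' (r '' K) ∪ dev ⁻¹' (φ '' closedBall 0 R)}, (fun x : X => γ • x) '' K) :=
      hF.isCompact_biUnion fun γ _ => hK.image (D.cont γ)
    refine hcomp.of_isClosed_subset (isClosed_le hu.norm continuous_const) fun x hx => ?_
    obtain ⟨γ, k, hk, hγ⟩ := hcov x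
    have h1 : r x = hol γ (r k) := by rw [← hγ, hre]
    obtain ⟨y1, hy1⟩ := hCr (hrC k)
    obtain ⟨y2, hy2⟩ := hCr (hrC x)
    have h2 : γ • y1 = y2 := by
      apply hinj
      rw [D.equi, hy1, hy2, h1]
    refine Set.mem_biUnion (x := γ) ⟨y1, Or.inl ⟨k, hk, hy1.symm⟩, Or.inr ?_⟩ ⟨k, hk, hγ⟩
    rw [h2]
    refine ⟨u x, ?_, ?_⟩
    · rw [mem_closedBall_zero_iff]
      exact hx
    · rw [hφu, hy2]
  let g : E → KK P := fun p => if h : p ∈ Set.range dev then st (u h.choose) else NN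
  have hgd : ∀ x, g (dev x) = st (u x) := by
    intro x
    have h : dev x ∈ Set.range dev := ⟨x, rfl⟩
    have h1 : g (dev x) = st (u h.choose) := dif_pos h
    rw [h1, hinj h.choose_spec]
  have hgN : ∀ p, p ∉ Set.range dev → g p = NN := fun p hp => dif_neg hp
  have hgt : ∀ l : Filter E, (∀ R : ℝ, ∀ᶠ p in l, p ∉ dev '' {x : X | ‖u x‖ ≤ R}) →
      Tendsto g l (𝓝 NN) := by
    intro l hl
    rw [Metric.tendsto_nhds]
    intro ε hε
    filter_upwards [hl (2 / ε)] with p hp
    by_cases h : p ∈ Set.range dev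
    · obtain ⟨x, rfl⟩ := h
      have h1 : 2 / ε < ‖u x‖ := by
        by_contra h2
        push Not at h2
        exact hp ⟨x, h2, rfl⟩
      rw [hgd, dist_eq_norm]
      have h2 := st_sub (u x)
      have h3 : 4 / (1 + ‖u x‖ ^ 2) < ε ^ 2 := by
        rw [div_lt_iff₀ (by positivity)]
        have h4 : (2 / ε) ^ 2 < ‖u x‖ ^ 2 := pow_lt_pow_left₀ h1 (by positivity) two_ne_zero
        have h5 : ε ^ 2 * (2 / ε) ^ 2 = 4 := by field_simp; norm_num
        have h6 : ε ^ 2 * (2 / ε) ^ 2 < ε ^ 2 * ‖u x‖ ^ 2 := by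
          apply mul_lt_mul_of_pos_left h4 (by positivity)
        nlinarith [sq_nonneg ε]
      rw [← h2] at h3
      exact lt_of_pow_lt_pow_left₀ 2 hε.le h3
    · rw [hgN p h, dist_self]
      exact hε
  have himg : ∀ R : ℝ, IsCompact (dev '' {x : X | ‖u x‖ ≤ R}) := fun R =>
    (hT R).image D.loc.continuous
  have hgc : Continuous g := by
    rw [continuous_iff_continuousAt]
    intro p
    by_cases h : p ∈ Set.range dev
    · obtain ⟨x, rfl⟩ := h
      rw [← emb.continuousAt_iff]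
      have h1 : g ∘ dev = fun x => st (u x) := funext hgd
      rw [h1]
      exact (st_cont.comp hu).continuousAt
    · show Tendsto g (𝓝 p) (𝓝 (g p))
      rw [hgN p h]
      refine hgt _ fun R => ?_
      refine (himg R).isClosed.isOpen_compl.mem_nhds ?_
      rintro ⟨x, -, hx⟩
      exact h ⟨x, hx⟩
  have hgi : Tendsto g (cocompact E) (𝓝 NN) := hgt _ fun R => (himg R).compl_mem_cocompact
  have hgn : ∀ p, ‖g p‖ = 1 := by
    intro p
    by_cases h : p ∈ Set.range dev
    · obtain ⟨x, rfl⟩ := h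
      rw [hgd, st_norm]
    · rw [hgN p h, NN_norm]
  have hgφ : ∀ y, g (φ y) = st y := by
    intro y
    obtain ⟨x, hx⟩ := hCr (hφC y)
    rw [← hx, hgd]
    have h1 : r x = φ y := by rw [hrd x (by rw [hx]; exact hφC y), hx]
    show st (ψ (r x)) = st y
    rw [h1, hψφ]
  exact no_missing hφ hψφ hgc hgn hgi hgφ hδ hqδ

theorem main [ConnectedSpace X] (D : AffMfd X Γ E dev hol) (hinj : Function.Injective dev)
    (hsa : SemiAlg (Set.range dev)) (hne : Set.range dev ≠ Set.univ) :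
    ∃ Z : X → E, Continuous Z ∧ (∀ x, Z x ≠ 0) ∧
      ∀ (γ : Γ) (x : X), Z (γ • x) = lin hol γ (Z x) := by
  classical
  have hT2 : T2Space X := (D.loc.isOpenEmbedding_of_injective hinj).isEmbedding.t2Space
  obtain ⟨w, hw⟩ := exists_wt D
  have hfg : Group.FG Γ := UH.fg_of_conn (AF.toDom D.loc D.equi D.pd D.cc hinj)
    (isPreconnected_range D.loc.continuous) (Set.range_nonempty dev)
  obtain ⟨S₀, hS₀⟩ := Group.fg_def.1 hfg
  let S : Finset Γ := S₀ ∪ S₀.image (·⁻¹)
  have hS : ∀ s ∈ S, s⁻¹ ∈ S := by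
    intro s hs
    rcases Finset.mem_union.1 hs with h | h
    · exact Finset.mem_union_right _ (Finset.mem_image_of_mem _ h)
    · obtain ⟨t, ht, rfl⟩ := Finset.mem_image.1 h
      rw [inv_inv]
      exact Finset.mem_union_left _ ht
  have hgen : Subgroup.closure (S : Set Γ) = ⊤ := by
    rw [eq_top_iff, ← hS₀]
    exact Subgroup.closure_mono fun s hs => Finset.mem_coe.2 (Finset.mem_union_left _ hs)
  obtain ⟨C, hG⟩ := exists_good (X := X) D.cont hw hS hgen _ E hol rfl
  obtain ⟨r, hr, hrC, hre, hrd⟩ := hG.ext dev D.loc.continuous D.equi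
  by_cases hC : (C ∩ Set.range dev).Nonempty
  · exfalso
    have hΩ : ∀ γ, ∀ x ∈ Set.range dev, hol γ x ∈ Set.range dev := by
      rintro γ _ ⟨x, rfl⟩
      exact ⟨γ • x, D.equi γ x⟩
    have hCr : C ⊆ Set.range dev := dichotomy hS hgen hG hΩ hsa hC
    obtain ⟨P, _, _, _, φ, ψ, hφ, hψφ, hφψ, hφC⟩ := hG.par
    let e : P ≃L[ℝ] EuclideanSpace ℝ (Fin (Module.finrank ℝ P)) := toEuclidean
    refine hne (full D hinj hG.ne hCr (φ := fun y => φ (e.symm y))
      (ψ := (e : P →ₗ[ℝ] _) ∘ₗ ψ) (hφ.continuous.comp e.symm.continuous) (fun y => ?_)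
      (fun x hx => ?_) (fun y => hφC _) hr hrC hre hrd)
    · show e (ψ (φ (e.symm y))) = y
      rw [hψφ, e.apply_symm_apply]
    · show φ (e.symm (e (ψ x))) = x
      rw [e.symm_apply_apply, hφψ x hx]
  · refine ⟨fun x => r x - dev x, hr.sub D.loc.continuous, fun x h => ?_, fun γ x => ?_⟩
    · exact hC ⟨dev x, by rw [← sub_eq_zero.1 h]; exact hrC x, x, rfl⟩
    · show r (γ • x) - dev (γ • x) = _
      rw [hre, D.equi, hol_sub]

end Pool.Agent.U352.SA
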