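import Pool.Agent.U352.SA.Klein

/-!
Existence of a minimum of the functional for irreducible representations.
-/

set_option autoImplicit false
set_option linter.unusedSectionVars false

open Filter Topology
open scoped InnerProductSpace

namespace Pool.Agent.U352.SA

variable {V : Type} [NormedAddCommGroup V] [InnerProductSpace ℝ V] [FiniteDimensional ℝ V]
  [CompleteSpace V]

theorem klein' {M : ℝ} (hM : 1 ≤ M) : ∃ K : ℝ, 0 ≤ K ∧ ∀ R₀ R₀' R₁ R₁' : V →L[ℝ] V,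
    R₀' * R₀ = 1 → R₁' * R₁ = 1 → ‖R₀‖ ≤ M → ‖R₀'‖ ≤ M → ‖R₁‖ ≤ M → ‖R₁'‖ ≤ M →
    Lam R₁ ≤ Lam R₀ + K * (‖gram R₁ - gram R₀‖ + ‖gram R₁ - gram R₀‖ ^ 2) := by
  classical
  obtain ⟨C, hC, h⟩ := klein (V := V) hM
  refine ⟨(Module.finrank ℝ V) * (2 * M ^ 4 + C), by positivity,
    fun R₀ R₀' R₁ R₁' h0 h1 n0 n0' n1 n1' => ?_⟩
  refine (h R₀ R₀' R₁ R₁' h0 h1 n0 n0' n1 n1').trans ?_
  set δ := ‖gram R₁ - gram R₀‖ with hδ
  have hδ0 : 0 ≤ δ := norm_nonneg _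
  have hterm : ∀ i, Real.log (ev R₀ i) ^ 2 +
      2 * (Real.log (ev R₀ i) / ev R₀ i) * (‖R₁ (eb R₀ i)‖ ^ 2 - ev R₀ i) +
        C * ‖(gram R₁ - gram R₀) (eb R₀ i)‖ ^ 2 ≤
      Real.log (ev R₀ i) ^ 2 + (2 * M ^ 4 + C) * (δ + δ ^ 2) := by
    intro i
    have hn : ‖eb R₀ i‖ = 1 := (eb R₀).norm_eq_one i
    have h2 : ‖(gram R₁ - gram R₀) (eb R₀ i)‖ ≤ δ := by
      have := (gram R₁ - gram R₀).le_opNorm (eb R₀ i)
      rwa [hn, mul_one] at this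
    have h3 : ‖(gram R₁ - gram R₀) (eb R₀ i)‖ ^ 2 ≤ δ ^ 2 := pow_le_pow_left₀ (norm_nonneg _) h2 2
    have h4 : ‖R₁ (eb R₀ i)‖ ^ 2 - ev R₀ i = ⟪(gram R₁ - gram R₀) (eb R₀ i), eb R₀ i⟫_ℝ := by
      rw [sub_apply, inner_sub_left, gram_inner, gram_inner, inner_eb_self,
        real_inner_self_eq_norm_sq]
    have h5 : |‖R₁ (eb R₀ i)‖ ^ 2 - ev R₀ i| ≤ δ := by
      rw [h4]
      have := abs_real_inner_le_norm ((gram R₁ - gram R₀) (eb R₀ i)) (eb R₀ i)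
      rw [hn, mul_one] at this
      exact this.trans h2
    have hpos := ev_pos h0 i
    have h6 : (M ^ 2)⁻¹ ≤ ev R₀ i := by
      have h2 := one_le_ev h0 i
      have h3 : ‖R₀'‖ ^ 2 ≤ M ^ 2 := pow_le_pow_left₀ (norm_nonneg _) n0' 2
      have h4 : 1 ≤ M ^ 2 * ev R₀ i := h2.trans (mul_le_mul_of_nonneg_right h3 hpos.le)
      rw [inv_le_iff_one_le_mul₀ (by positivity)]
      linarith
    have h7 : ev R₀ i ≤ M ^ 2 := (ev_le R₀ i).trans (pow_le_pow_left₀ (norm_nonneg _) n0 2)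
    have h8 : (ev R₀ i)⁻¹ ≤ M ^ 2 := by
      rw [inv_le_comm₀ hpos (by positivity)]; exact h6
    have h9 : |Real.log (ev R₀ i)| ≤ M ^ 2 := by
      refine abs_le.2 ⟨?_, ?_⟩
      · have := Real.one_sub_inv_le_log_of_pos hpos
        linarith
      · have := Real.log_le_sub_one_of_pos hpos
        linarith
    have h10 : |Real.log (ev R₀ i) / ev R₀ i| ≤ M ^ 4 := by
      rw [div_eq_mul_inv, abs_mul, abs_of_pos (inv_pos.2 hpos)]
      calc |Real.log (ev R₀ i)| * (ev R₀ i)⁻¹ ≤ M ^ 2 * M ^ 2 :=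
            mul_le_mul h9 h8 (inv_pos.2 hpos).le (by positivity)
        _ = M ^ 4 := by ring
    have h11 : 2 * (Real.log (ev R₀ i) / ev R₀ i) * (‖R₁ (eb R₀ i)‖ ^ 2 - ev R₀ i) ≤
        2 * (M ^ 4 * δ) := by
      have h12 : (Real.log (ev R₀ i) / ev R₀ i) * (‖R₁ (eb R₀ i)‖ ^ 2 - ev R₀ i) ≤ M ^ 4 * δ := by
        refine (le_abs_self _).trans ?_
        rw [abs_mul]
        exact mul_le_mul h10 h5 (abs_nonneg _) (by positivity)
      linarith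
    have h13 : C * ‖(gram R₁ - gram R₀) (eb R₀ i)‖ ^ 2 ≤ C * δ ^ 2 :=
      mul_le_mul_of_nonneg_left h3 hC
    have h14 : 0 ≤ M ^ 4 * δ ^ 2 := by positivity
    have h15 : 0 ≤ C * δ := by positivity
    nlinarith
  calc _ ≤ ∑ i, (Real.log (ev R₀ i) ^ 2 + (2 * M ^ 4 + C) * (δ + δ ^ 2)) :=
        Finset.sum_le_sum fun i _ => hterm i
    _ = _ := by
        rw [Finset.sum_add_distrib, Finset.sum_const, Finset.card_univ, Fintype.card_fin,
          nsmul_eq_mul]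
        show Lam R₀ + _ = _
        ring

theorem gram_cont : Continuous (gram (V := V)) :=
  (ContinuousLinearMap.adjoint (𝕜 := ℝ) (E := V) (F := V)).continuous.mul continuous_id

/-- conjugation -/
noncomputable def cj (u : (V →L[ℝ] V)ˣ) (A : V →L[ℝ] V) : V →L[ℝ] V := u * A * (u⁻¹ : (V →L[ℝ] V)ˣ)

theorem cj_mul (u : (V →L[ℝ] V)ˣ) (A B : V →L[ℝ] V) : cj u A * cj u B = cj u (A * B) := by
  simp [cj, mul_assoc]

theorem cj_one (u : (V →L[ℝ] V)ˣ) : cj u 1 = 1 := by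
  simp [cj]

theorem cj_cj (u v : (V →L[ℝ] V)ˣ) (A : V →L[ℝ] V) : cj u (cj v A) = cj (u * v) A := by
  simp [cj, mul_assoc]

theorem exists_scale [Nontrivial V] (u : (V →L[ℝ] V)ˣ) : ∃ a : (V →L[ℝ] V)ˣ,
    ‖(a : V →L[ℝ] V)‖ = 1 ∧ ∀ A, cj a A = cj u A := by
  have hu : ‖(u : V →L[ℝ] V)‖ ≠ 0 := norm_ne_zero_iff.2 u.ne_zero
  set c := ‖(u : V →L[ℝ] V)‖ with hc
  refine ⟨⟨c⁻¹ • (u : V →L[ℝ] V), c • (u⁻¹ : (V →L[ℝ] V)ˣ), ?_, ?_⟩, ?_, fun A => ?_⟩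
  · rw [smul_mul_smul_comm, inv_mul_cancel₀ hu, Units.mul_inv, one_smul]
  · rw [smul_mul_smul_comm, mul_inv_cancel₀ hu, Units.inv_mul, one_smul]
  · show ‖c⁻¹ • (u : V →L[ℝ] V)‖ = 1
    rw [norm_smul, norm_inv, Real.norm_of_nonneg (norm_nonneg _), inv_mul_cancel₀ hu]
  · show c⁻¹ • (u : V →L[ℝ] V) * A * c • ((u⁻¹ : (V →L[ℝ] V)ˣ) : V →L[ℝ] V) = _
    rw [smul_mul_assoc, smul_mul_smul_comm, inv_mul_cancel₀ hu, one_smul, cj]

variable {Γ : Type} [Group Γ]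

/-- the functional on the group -/
noncomputable def Fun (S : Finset Γ) (P : Γ → V →L[ℝ] V) (u : (V →L[ℝ] V)ˣ) : ℝ :=
  ∑ s ∈ S, Lam (cj u (P s))

theorem exists_min [Nontrivial V] {S : Finset Γ} {P : Γ → V →L[ℝ] V} (hP : ∀ s, P s⁻¹ * P s = 1)
    (hirr : ∀ W : Submodule ℝ V, (∀ s ∈ S, ∀ w ∈ W, P s w ∈ W) → W = ⊥ ∨ W = ⊤) :
    ∃ b : (V →L[ℝ] V)ˣ, ∀ g, Fun S P b ≤ Fun S P g := by
  classical
  have hP' : ∀ s, P s * P s⁻¹ = 1 := fun s => by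
    have := hP s⁻¹
    rwa [inv_inv] at this
  set I := ⨅ g, Fun S P g with hI
  have hbdd : BddBelow (Set.range (Fun S P)) :=
    ⟨0, by rintro _ ⟨g, rfl⟩; exact Finset.sum_nonneg fun _ _ => Lam_nonneg _⟩
  have hIle : ∀ g, I ≤ Fun S P g := fun g => ciInf_le hbdd g
  have hseq : ∀ k : ℕ, ∃ a : (V →L[ℝ] V)ˣ, ‖(a : V →L[ℝ] V)‖ = 1 ∧
      Fun S P a < I + 1 / ((k : ℝ) + 1) := by
    intro k
    obtain ⟨u, hu⟩ := exists_lt_of_ciInf_lt (show ⨅ g, Fun S P g < I + 1 / ((k : ℝ) + 1) by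
      rw [← hI]; linarith [show (0 : ℝ) < 1 / ((k : ℝ) + 1) by positivity])
    obtain ⟨a, ha, haA⟩ := exists_scale u
    refine ⟨a, ha, ?_⟩
    have : Fun S P a = Fun S P u := Finset.sum_congr rfl fun s _ => by rw [haA]
    rw [this]
    exact hu
  choose a ha1 ha2 using hseq
  have hI0 : 0 ≤ I := le_ciInf fun g => Finset.sum_nonneg fun _ _ => Lam_nonneg _
  set F₀ := I + 1 with hF₀
  have hle : ∀ k, ∀ s ∈ S, Lam (cj (a k) (P s)) ≤ F₀ := by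
    intro k s hs
    have h1 : Lam (cj (a k) (P s)) ≤ Fun S P (a k) :=
      Finset.single_le_sum (f := fun s => Lam (cj (a k) (P s))) (fun _ _ => Lam_nonneg _) hs
    have h2 : 1 / ((k : ℝ) + 1) ≤ 1 := by
      rw [div_le_one (by positivity)]
      linarith [Nat.cast_nonneg (α := ℝ) k]
    linarith [ha2 k]
  have hnb : ∀ k, ∀ s ∈ S, ‖cj (a k) (P s)‖ ≤ Real.exp F₀ ∧ ‖cj (a k) (P s⁻¹)‖ ≤ Real.exp F₀ := by
    intro k s hs
    exact norm_le_of_Lam (by rw [cj_mul, hP, cj_one]) (by rw [cj_mul, hP', cj_one]) (hle k s hs)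
      (by linarith)
  -- a convergent subsequence
  let x : ℕ → (V →L[ℝ] V) × (S → (V →L[ℝ] V)) := fun k => (a k, fun s => cj (a k) (P s))
  have hx : ∀ k, x k ∈ Metric.closedBall (0 : (V →L[ℝ] V) × (S → (V →L[ℝ] V))) (Real.exp F₀) := by
    intro k
    rw [mem_closedBall_zero_iff, Prod.norm_def]
    refine max_le ?_ ?_
    · show ‖(a k : V →L[ℝ] V)‖ ≤ _
      rw [ha1]
      exact Real.one_le_exp (by linarith)
    · rw [pi_norm_le_iff_of_nonneg (Real.exp_pos _).le]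
      exact fun s => (hnb k s s.2).1
  obtain ⟨l, -, φ, hφ, hlim⟩ := tendsto_subseq_of_bounded Metric.isBounded_closedBall hx
  have hlim1 : Tendsto (fun k => (a (φ k) : V →L[ℝ] V)) atTop (𝓝 l.1) :=
    (continuous_fst.tendsto l).comp hlim
  have hlim2 : ∀ s : S, Tendsto (fun k => cj (a (φ k)) (P s)) atTop (𝓝 (l.2 s)) := fun s =>
    (((continuous_apply s).comp continuous_snd).tendsto l).comp hlim
  have hl1 : ‖l.1‖ = 1 := by
    have h1 := (continuous_norm.tendsto l.1).comp hlim1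
    refine tendsto_nhds_unique h1 ?_
    have : (norm ∘ fun k => (a (φ k) : V →L[ℝ] V)) = fun _ => (1 : ℝ) := by
      funext k
      exact ha1 _
    rw [this]
    exact tendsto_const_nhds
  have hcomm : ∀ s : S, l.2 s * l.1 = l.1 * P s := by
    intro s
    have h1 : Tendsto (fun k => cj (a (φ k)) (P s) * (a (φ k) : V →L[ℝ] V)) atTop
        (𝓝 (l.2 s * l.1)) := (hlim2 s).mul hlim1
    have h2 : Tendsto (fun k => (a (φ k) : V →L[ℝ] V) * P s) atTop (𝓝 (l.1 * P s)) :=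
      hlim1.mul tendsto_const_nhds
    refine tendsto_nhds_unique h1 (h2.congr fun k => ?_)
    simp [cj, mul_assoc]
  -- the limit is injective
  have hker : LinearMap.ker (l.1 : V →ₗ[ℝ] V) = ⊥ := by
    have hki : ∀ s ∈ S, ∀ w ∈ LinearMap.ker (l.1 : V →ₗ[ℝ] V), P s w ∈ LinearMap.ker (l.1 : V →ₗ[ℝ] V) := by
      intro s hs w hw
      have h1 := congrArg (fun A : V →L[ℝ] V => A w) (hcomm ⟨s, hs⟩)
      have h2 : l.1 w = 0 := hw
      show l.1 (P s w) = 0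
      have h3 : l.2 ⟨s, hs⟩ (l.1 w) = l.1 (P s w) := h1
      rw [← h3, h2, map_zero]
    rcases hirr (LinearMap.ker (l.1 : V →ₗ[ℝ] V)) hki with h | h
    · exact h
    · exfalso
      have : l.1 = 0 := by
        ext v
        have hv : v ∈ LinearMap.ker (l.1 : V →ₗ[ℝ] V) := by rw [h]; trivial
        exact hv
      rw [this, norm_zero] at hl1
      exact zero_ne_one hl1
  have hinj : Function.Injective (l.1 : V →ₗ[ℝ] V) := LinearMap.ker_eq_bot.1 hker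
  let e : V ≃ₗ[ℝ] V := LinearEquiv.ofInjectiveEndo (l.1 : V →ₗ[ℝ] V) hinj
  let b : (V →L[ℝ] V)ˣ := ⟨l.1, LinearMap.toContinuousLinearMap (e.symm : V →ₗ[ℝ] V), by
      ext v
      show l.1 (e.symm v) = v
      exact e.apply_symm_apply v, by
      ext v
      show e.symm (l.1 v) = v
      exact e.symm_apply_apply v⟩
  have hb : ∀ s : S, cj b (P s) = l.2 s := by
    intro s
    show l.1 * P s * (b⁻¹ : (V →L[ℝ] V)ˣ) = l.2 s
    rw [← hcomm, mul_assoc]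
    have : l.1 * ((b⁻¹ : (V →L[ℝ] V)ˣ) : V →L[ℝ] V) = 1 := b.mul_inv
    rw [this, mul_one]
  refine ⟨b, fun g => ?_⟩
  refine le_trans ?_ (hIle g)
  set M : ℝ := Real.exp F₀ + ∑ s ∈ S, (‖cj b (P s)‖ + ‖cj b (P s⁻¹)‖) with hM
  have hsum0 : 0 ≤ ∑ s ∈ S, (‖cj b (P s)‖ + ‖cj b (P s⁻¹)‖) :=
    Finset.sum_nonneg fun _ _ => by positivity
  have hM1 : 1 ≤ M := by
    have := Real.one_le_exp (show 0 ≤ F₀ by linarith)
    linarith
  have hbM : ∀ s ∈ S, ‖cj b (P s)‖ ≤ M ∧ ‖cj b (P s⁻¹)‖ ≤ M := by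
    intro s hs
    have h1 : ‖cj b (P s)‖ + ‖cj b (P s⁻¹)‖ ≤ ∑ s ∈ S, (‖cj b (P s)‖ + ‖cj b (P s⁻¹)‖) :=
      Finset.single_le_sum (f := fun s => ‖cj b (P s)‖ + ‖cj b (P s⁻¹)‖)
        (fun _ _ => by positivity) hs
    have h2 := Real.exp_pos F₀
    exact ⟨by linarith [norm_nonneg (cj b (P s⁻¹))], by linarith [norm_nonneg (cj b (P s))]⟩
  obtain ⟨K, hK, hkl⟩ := klein' (V := V) hM1
  have hin : ∀ k, Fun S P b ≤ (I + 1 / ((φ k : ℝ) + 1)) + ∑ s ∈ S,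
      K * (‖gram (cj b (P s)) - gram (cj (a (φ k)) (P s))‖ +
        ‖gram (cj b (P s)) - gram (cj (a (φ k)) (P s))‖ ^ 2) := by
    intro k
    have h1 : Fun S P b ≤ Fun S P (a (φ k)) + ∑ s ∈ S,
        K * (‖gram (cj b (P s)) - gram (cj (a (φ k)) (P s))‖ +
          ‖gram (cj b (P s)) - gram (cj (a (φ k)) (P s))‖ ^ 2) := by
      rw [Fun, Fun, ← Finset.sum_add_distrib]
      refine Finset.sum_le_sum fun s hs => ?_
      exact hkl _ (cj (a (φ k)) (P s⁻¹)) _ (cj b (P s⁻¹)) (by rw [cj_mul, hP, cj_one])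
        (by rw [cj_mul, hP, cj_one]) ((hnb _ s hs).1.trans (by linarith))
        ((hnb _ s hs).2.trans (by linarith)) (hbM s hs).1 (hbM s hs).2
    linarith [ha2 (φ k)]
  have ht0 : Tendsto (fun k => (I + 1 / ((φ k : ℝ) + 1)) + ∑ s ∈ S,
      K * (‖gram (cj b (P s)) - gram (cj (a (φ k)) (P s))‖ +
        ‖gram (cj b (P s)) - gram (cj (a (φ k)) (P s))‖ ^ 2)) atTop (𝓝 ((I + 0) + ∑ s ∈ S, 0)) := by
    refine Tendsto.add (tendsto_const_nhds.add ?_) (tendsto_finsetSum _ fun s hs => ?_)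
    · exact tendsto_one_div_add_atTop_nhds_zero_nat.comp hφ.tendsto_atTop
    · have h1 : Tendsto (fun k => gram (cj (a (φ k)) (P s))) atTop (𝓝 (gram (cj b (P s)))) := by
        rw [hb ⟨s, hs⟩]
        exact (gram_cont.tendsto _).comp (hlim2 ⟨s, hs⟩)
      have h2 : Tendsto (fun k => ‖gram (cj b (P s)) - gram (cj (a (φ k)) (P s))‖) atTop (𝓝 0) := by
        have h3 := (tendsto_const_nhds (x := gram (cj b (P s)))).sub h1
        rw [sub_self] at h3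
        have h4 := h3.norm
        rwa [norm_zero] at h4
      have h5 := (h2.add (h2.pow 2)).const_mul K
      simpa using h5
  have := ge_of_tendsto' ht0 hin
  simpa using this

end Pool.Agent.U352.SA
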