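import Pool.Agent.U352.SA.Crit
import Pool.Agent.U352.SA.Hom

/-!
Irreducible representations of finitely generated groups are balanced for a suitable inner product.
-/

set_option autoImplicit false
set_option linter.unusedSectionVars false

open Filter Topology
open scoped InnerProductSpace

namespace Pool.Agent.U352.SA

/-- the model space -/
abbrev Eu (n : ℕ) : Type := EuclideanSpace ℝ (Fin n)

variable {Γ : Type} [Group Γ]

theorem exists_bal {U : Type} [AddCommGroup U] [Module ℝ U] [FiniteDimensional ℝ U] [Nontrivial U]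
    {S : Finset Γ} (hS : ∀ s ∈ S, s⁻¹ ∈ S) (hgen : Subgroup.closure (S : Set Γ) = ⊤)
    (σ : Representation ℝ Γ U)
    (hirr : ∀ W : Submodule ℝ U, (∀ γ, ∀ w ∈ W, σ γ w ∈ W) → W = ⊥ ∨ W = ⊤) :
    ∃ (n : ℕ) (ρ : Representation ℝ Γ (Eu n)) (e : U ≃ₗ[ℝ] Eu n), Bal S ρ ∧
      ∀ γ u, e (σ γ u) = ρ γ (e u) := by
  classical
  set n := Module.finrank ℝ U with hn
  let e₀ : U ≃ₗ[ℝ] Eu n := LinearEquiv.ofFinrankEq _ _ (by rw [finrank_euclideanSpace_fin])
  have hnt : Nontrivial (Eu n) := e₀.symm.toEquiv.nontrivial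
  let P : Γ → Eu n →L[ℝ] Eu n := fun γ =>
    LinearMap.toContinuousLinearMap (e₀.toLinearMap ∘ₗ σ γ ∘ₗ e₀.symm.toLinearMap)
  have hPap : ∀ γ x, P γ x = e₀ (σ γ (e₀.symm x)) := fun γ x => rfl
  have hPm : ∀ γ δ, P (γ * δ) = P γ * P δ := by
    intro γ δ
    ext1 x
    show e₀ (σ (γ * δ) (e₀.symm x)) = e₀ (σ γ (e₀.symm (e₀ (σ δ (e₀.symm x)))))
    rw [map_mul, e₀.symm_apply_apply]
    rfl
  have hP1 : P 1 = 1 := by
    ext1 x
    show e₀ (σ 1 (e₀.symm x)) = x
    rw [map_one]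
    exact e₀.apply_symm_apply x
  have hP : ∀ s, P s⁻¹ * P s = 1 := fun s => by rw [← hPm, inv_mul_cancel, hP1]
  have hirr' : ∀ W : Submodule ℝ (Eu n), (∀ s ∈ S, ∀ w ∈ W, P s w ∈ W) → W = ⊥ ∨ W = ⊤ := by
    intro W hW
    have hall : ∀ γ ∈ Subgroup.closure (S : Set Γ), ∀ w ∈ W, P γ w ∈ W := by
      intro γ hγ
      refine Subgroup.closure_induction_left (p := fun γ _ => ∀ w ∈ W, P γ w ∈ W) ?_ ?_ ?_ hγ
      · intro w hw
        rw [hP1]
        exact hw
      · intro x hx y _ ih w hw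
        rw [hPm]
        exact hW x hx _ (ih w hw)
      · intro x hx y _ ih w hw
        rw [hPm]
        exact hW x⁻¹ (hS x hx) _ (ih w hw)
    rw [hgen] at hall
    have hk : ∀ γ, ∀ w ∈ W.comap e₀.toLinearMap, σ γ w ∈ W.comap e₀.toLinearMap := by
      intro γ w hw
      have h1 := hall γ trivial (e₀ w) hw
      rw [hPap, e₀.symm_apply_apply] at h1
      exact h1
    rcases hirr (W.comap e₀.toLinearMap) hk with h | h
    · left
      rw [eq_bot_iff]
      intro x hx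
      have h1 : e₀.symm x ∈ W.comap e₀.toLinearMap := by
        show e₀ (e₀.symm x) ∈ W
        rwa [e₀.apply_symm_apply]
      rw [h, Submodule.mem_bot] at h1
      rw [Submodule.mem_bot]
      have := congrArg e₀ h1
      rwa [e₀.apply_symm_apply, map_zero] at this
    · right
      rw [eq_top_iff]
      intro x _
      have h1 : e₀.symm x ∈ W.comap e₀.toLinearMap := by rw [h]; trivial
      have h2 : e₀ (e₀.symm x) ∈ W := h1
      rwa [e₀.apply_symm_apply] at h2
  obtain ⟨b, hb⟩ := exists_min (S := S) hP hirr'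
  have hR : ∀ s, cj b (P s⁻¹) * cj b (P s) = 1 := fun s => by rw [cj_mul, hP, cj_one]
  have hcrit := crit hS (R := fun s => cj b (P s)) hR (fun g => by
    have h1 := hb (g * b)
    rw [Fun, Fun] at h1
    refine h1.trans (le_of_eq (Finset.sum_congr rfl fun s _ => ?_))
    rw [cj_cj])
  let ρ : Representation ℝ Γ (Eu n) :=
    { toFun := fun γ => (cj b (P γ) : Eu n →ₗ[ℝ] Eu n)
      map_one' := by
        rw [hP1, cj_one]
        rfl
      map_mul' := fun γ δ => by
        rw [hPm, ← cj_mul]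
        rfl }
  let bl : Eu n ≃ₗ[ℝ] Eu n :=
    { toFun := fun x => (b : Eu n →L[ℝ] Eu n) x
      map_add' := fun x y => map_add _ x y
      map_smul' := fun c x => map_smul _ c x
      invFun := fun x => ((b⁻¹ : (Eu n →L[ℝ] Eu n)ˣ) : Eu n →L[ℝ] Eu n) x
      left_inv := fun x => by
        have := congrArg (fun A : Eu n →L[ℝ] Eu n => A x) b.inv_mul
        exact this
      right_inv := fun x => by
        have := congrArg (fun A : Eu n →L[ℝ] Eu n => A x) b.mul_inv
        exact this }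
  refine ⟨n, ρ, e₀.trans bl, ⟨fun s => (Ylog (cj b (P s)) : Eu n →ₗ[ℝ] Eu n), fun s _ => ?_, ?_⟩,
    fun γ u => ?_⟩
  · exact Ylog_logOf (hR s)
  · have h1 := congrArg (fun A : Eu n →L[ℝ] Eu n => (A : Eu n →ₗ[ℝ] Eu n)) hcrit
    ext1 x
    have h2 := LinearMap.congr_fun h1 x
    rw [LinearMap.sum_apply]
    have h3 : (∑ s ∈ S, Ylog (cj b (P s))) x = 0 := h2
    rw [sum_apply] at h3
    exact h3
  · show (b : Eu n →L[ℝ] Eu n) (e₀ (σ γ u)) = cj b (P γ) ((b : Eu n →L[ℝ] Eu n) (e₀ u))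
    have h1 : cj b (P γ) * (b : Eu n →L[ℝ] Eu n) = (b : Eu n →L[ℝ] Eu n) * P γ := by
      simp [cj, mul_assoc]
    have h2 := congrArg (fun A : Eu n →L[ℝ] Eu n => A (e₀ u)) h1
    have h3 : cj b (P γ) ((b : Eu n →L[ℝ] Eu n) (e₀ u)) = (b : Eu n →L[ℝ] Eu n) (P γ (e₀ u)) := h2
    rw [h3, hPap, e₀.symm_apply_apply]

end Pool.Agent.U352.SA
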