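import Pool.Agent.U352.SA.Good

/-!
Semialgebraic invariant sets contain the good set or are disjoint from it.
-/

set_option autoImplicit false
set_option linter.unusedSectionVars false

open Filter Topology
open scoped InnerProductSpace TensorProduct

namespace Pool.Agent.U352.SA

open Pool.Agent.W689.Mk (lin hol_add hol_sub hol_inv_apply hol_apply_inv lin_inv_apply lin_mul)
open Pool.Agent.U352.AF (LInv lin_apply_inv hol_mul IsQuot exists_quot)

variable {Γ : Type} [Group Γ]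

section
variable {V : Type} [NormedAddCommGroup V] [InnerProductSpace ℝ V] [FiniteDimensional ℝ V]

/-- the contragredient representation -/
noncomputable def dualRep (ρ : Representation ℝ Γ V) : Representation ℝ Γ V where
  toFun γ := LinearMap.adjoint (ρ γ⁻¹)
  map_one' := by
    rw [inv_one, map_one]
    refine LinearMap.ext fun x => ext_inner_right ℝ fun y => ?_
    rw [LinearMap.adjoint_inner_left]
    rfl
  map_mul' γ δ := by
    rw [mul_inv_rev, map_mul]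
    refine LinearMap.ext fun x => ext_inner_right ℝ fun y => ?_
    rw [LinearMap.adjoint_inner_left]
    show _ = ⟪LinearMap.adjoint (ρ γ⁻¹) (LinearMap.adjoint (ρ δ⁻¹) x), y⟫_ℝ
    rw [LinearMap.adjoint_inner_left, LinearMap.adjoint_inner_left]
    rfl

theorem Bal.dual {S : Finset Γ} {ρ : Representation ℝ Γ V} (hρ : Bal S ρ) : Bal S (dualRep ρ) := by
  obtain ⟨Z, hZ, hsum⟩ := hρ
  refine ⟨fun s => -Z s, fun s hs => ?_, ?_⟩
  · refine (hZ s hs).dual (fun v => ⟨ρ s⁻¹ v, rep_apply_inv ρ s v⟩) ?_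
    intro x z
    show ⟪LinearMap.adjoint (ρ s⁻¹) x, ρ s z⟫_ℝ = _
    rw [LinearMap.adjoint_inner_left, rep_inv_apply]
  · rw [Finset.sum_neg_distrib, hsum, neg_zero]

end

theorem exists_simple {M : Type} [AddCommGroup M] [Module ℝ M] (σ : Representation ℝ Γ M)
    {W : Submodule ℝ M} [FiniteDimensional ℝ W] (hW : ∀ γ, ∀ x ∈ W, σ γ x ∈ W) (h0 : W ≠ ⊥) :
    ∃ R ≤ W, R ≠ ⊥ ∧ (∀ γ, ∀ x ∈ R, σ γ x ∈ R) ∧
      ∀ U ≤ R, (∀ γ, ∀ x ∈ U, σ γ x ∈ U) → U = ⊥ ∨ U = R := by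
  classical
  have hex : ∃ k : ℕ, ∃ R ≤ W, R ≠ ⊥ ∧ (∀ γ, ∀ x ∈ R, σ γ x ∈ R) ∧ Module.finrank ℝ R = k :=
    ⟨_, W, le_rfl, h0, hW, rfl⟩
  obtain ⟨R, h1, h2, h3, h4⟩ := Nat.find_spec hex
  refine ⟨R, h1, h2, h3, fun U hU hU' => ?_⟩
  have hfR : FiniteDimensional ℝ R := Submodule.finiteDimensional_of_le h1
  by_cases h0 : U = ⊥
  · exact Or.inl h0
  · right
    have h5 : Nat.find hex ≤ Module.finrank ℝ U :=
      Nat.find_min' hex ⟨U, hU.trans h1, h0, hU', rfl⟩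
    exact Submodule.eq_of_le_of_finrank_le hU (by rw [h4]; exact h5)

variable {X : Type} [TopologicalSpace X] [MulAction Γ X] {S : Finset Γ}
  {E : Type} [NormedAddCommGroup E] [NormedSpace ℝ E] [FiniteDimensional ℝ E]
  {hol : Γ →* (E ≃ᵃ[ℝ] E)} {C : Set E}

/-- the representation on the functions on `C` -/
def funRep (hC : ∀ γ, ∀ x ∈ C, hol γ x ∈ C) : Representation ℝ Γ (C → ℝ) where
  toFun γ :=
    { toFun := fun g x => g ⟨hol γ⁻¹ x, hC _ _ x.2⟩
      map_add' := fun _ _ => rfl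
      map_smul' := fun _ _ => rfl }
  map_one' := by
    refine LinearMap.ext fun g => funext fun x => ?_
    show g ⟨hol (1 : Γ)⁻¹ x, _⟩ = g x
    congr 1
    apply Subtype.ext
    show hol (1 : Γ)⁻¹ (x : E) = x
    rw [inv_one, map_one]
    rfl
  map_mul' γ δ := by
    refine LinearMap.ext fun g => funext fun x => ?_
    show g ⟨hol (γ * δ)⁻¹ x, _⟩ = g ⟨hol δ⁻¹ (hol γ⁻¹ x), _⟩
    congr 1
    apply Subtype.ext
    show hol (γ * δ)⁻¹ (x : E) = hol δ⁻¹ (hol γ⁻¹ x)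
    rw [mul_inv_rev, hol_mul]

theorem nonvanishing (hS : ∀ s ∈ S, s⁻¹ ∈ S) (hgen : Subgroup.closure (S : Set Γ) = ⊤)
    (hC : ∀ γ, ∀ x ∈ C, hol γ x ∈ C) (hstar : Star S hol C) {N : ℕ} {W : Submodule ℝ (E → ℝ)}
    (hWN : W ≤ affF E ^ N) (hWi : ∀ γ, ∀ f ∈ W, (fun x => f (hol γ x)) ∈ W)
    (hne : ∃ f ∈ W, ∃ x ∈ C, f x ≠ 0) : ∃ f ∈ W, ∀ y ∈ C, f y ≠ 0 := by
  classical
  have hWf : FiniteDimensional ℝ W := by
    have h1 : FiniteDimensional ℝ (affF E ^ N : Submodule ℝ (E → ℝ)) :=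
      Module.Finite.iff_fg.2 (fg_pow N)
    exact Submodule.finiteDimensional_of_le hWN
  let res : (E → ℝ) →ₗ[ℝ] (C → ℝ) :=
    { toFun := fun f x => f x
      map_add' := fun _ _ => rfl
      map_smul' := fun _ _ => rfl }
  set W' := W.map res with hW'
  have hW'f : FiniteDimensional ℝ W' := inferInstance
  have hW'i : ∀ γ, ∀ g ∈ W', funRep hC γ g ∈ W' := by
    rintro γ _ ⟨f, hf, rfl⟩
    exact ⟨fun x => f (hol γ⁻¹ x), hWi _ f hf, rfl⟩
  have hW'0 : W' ≠ ⊥ := by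
    obtain ⟨f, hf, x, hx, hfx⟩ := hne
    intro h
    have h1 : res f ∈ W' := ⟨f, hf, rfl⟩
    rw [h, Submodule.mem_bot] at h1
    exact hfx (congrFun h1 ⟨x, hx⟩)
  obtain ⟨R, hRW, hR0, hRi, hRmin⟩ := exists_simple (funRep hC) hW'i hW'0
  have hRf : FiniteDimensional ℝ R := Submodule.finiteDimensional_of_le hRW
  have hRn : Nontrivial R := Submodule.nontrivial_iff_ne_bot.2 hR0
  let σ : Representation ℝ Γ R :=
    { toFun := fun γ => (funRep hC γ).restrict (hRi γ)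
      map_one' := by
        ext1 g
        apply Subtype.ext
        show funRep hC 1 (g : C → ℝ) = g
        rw [map_one]
        rfl
      map_mul' := fun γ δ => by
        ext1 g
        apply Subtype.ext
        show funRep hC (γ * δ) (g : C → ℝ) = funRep hC γ (funRep hC δ (g : C → ℝ))
        rw [map_mul]
        rfl }
  have hirr : ∀ U : Submodule ℝ R, (∀ γ, ∀ g ∈ U, σ γ g ∈ U) → U = ⊥ ∨ U = ⊤ := by
    intro U hU
    have h1 : ∀ γ, ∀ g ∈ U.map R.subtype, funRep hC γ g ∈ U.map R.subtype := by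
      rintro γ _ ⟨g, hg, rfl⟩
      exact ⟨σ γ g, hU γ g hg, rfl⟩
    rcases hRmin _ (Submodule.map_subtype_le R U) h1 with h | h
    · left
      rw [eq_bot_iff]
      intro g hg
      have h2 : (g : C → ℝ) ∈ U.map R.subtype := ⟨g, hg, rfl⟩
      rw [h, Submodule.mem_bot] at h2
      exact Subtype.ext h2
    · right
      rw [eq_top_iff]
      intro g _
      have h2 : (g : C → ℝ) ∈ U.map R.subtype := by rw [h]; exact g.2
      obtain ⟨u, hu, hu'⟩ := h2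
      rwa [← Subtype.ext hu']
  obtain ⟨m, ρ, e, hρ, he⟩ := exists_bal hS hgen σ hirr
  let u : OrthonormalBasis (Fin m) ℝ (Eu m) := EuclideanSpace.basisFun (Fin m) ℝ
  -- lifts
  have hlift : ∀ g : R, ∃ f ∈ W, res f = g := fun g => hRW g.2
  choose s hsW hsr using fun i => hlift (e.symm (u i))
  let q : E → Eu m := fun x => ∑ i, s i x • u i
  have hq : IsPol q := by
    refine ⟨N, fun l => ?_⟩
    have h1 : (fun x => l (q x)) = ∑ i, l (u i) • s i := by
      funext x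
      rw [Finset.sum_apply]
      show l (∑ i, s i x • u i) = _
      rw [map_sum]
      refine Finset.sum_congr rfl fun i _ => ?_
      rw [map_smul, smul_eq_mul, Pi.smul_apply, smul_eq_mul, mul_comm]
    rw [h1]
    exact Submodule.sum_mem _ fun i _ => (affF E ^ N).smul_mem _ (hWN (hsW i))
  have hval : ∀ (x : C) (g : R), ⟪q x, e g⟫_ℝ = (g : C → ℝ) x := by
    intro x g
    have h1 : (g : C → ℝ) = ∑ i, ⟪u i, e g⟫_ℝ • ((e.symm (u i) : R) : C → ℝ) := by
      have h2 : g = ∑ i, ⟪u i, e g⟫_ℝ • e.symm (u i) := by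
        apply e.injective
        rw [map_sum]
        conv_lhs => rw [← u.sum_repr' (e g)]
        refine Finset.sum_congr rfl fun i _ => ?_
        rw [map_smul, e.apply_symm_apply]
      have h3 := congrArg R.subtype h2
      rw [map_sum] at h3
      exact h3
    rw [h1, Finset.sum_apply]
    show ⟪∑ i, s i x • u i, e g⟫_ℝ = _
    rw [sum_inner]
    refine Finset.sum_congr rfl fun i _ => ?_
    rw [inner_smul_left, Pi.smul_apply, ← hsr i]
    simp only [conj_trivial, smul_eq_mul]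
    exact mul_comm _ _
  have hqe : ∀ γ, ∀ x ∈ C, q (hol γ x) = dualRep ρ γ (q x) := by
    intro γ x hx
    refine ext_inner_right ℝ fun z => ?_
    obtain ⟨g, rfl⟩ := e.surjective z
    have h1 := hval ⟨hol γ x, hC γ x hx⟩ g
    have h2 := hval ⟨x, hx⟩ (σ γ⁻¹ g)
    show ⟪q (hol γ x), e g⟫_ℝ = ⟪LinearMap.adjoint (ρ γ⁻¹) (q x), e g⟫_ℝ
    rw [LinearMap.adjoint_inner_left, ← he]
    refine h1.trans (Eq.trans ?_ h2.symm)
    show (g : C → ℝ) ⟨hol γ x, hC γ x hx⟩ = (g : C → ℝ) ⟨hol γ⁻¹⁻¹ x, _⟩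
    refine congrArg (g : C → ℝ) (Subtype.ext ?_)
    show hol γ x = hol γ⁻¹⁻¹ x
    rw [inv_inv]
  have hconst := hstar (Eu m) (dualRep ρ) hρ.dual q hq hqe
  obtain ⟨g, hg⟩ := exists_ne (0 : R)
  have hg' : (g : C → ℝ) ≠ 0 := fun h => hg (Subtype.ext h)
  obtain ⟨x₁, hx₁⟩ := Function.ne_iff.1 hg'
  obtain ⟨f, hf, hfg⟩ := hlift g
  refine ⟨f, hf, fun y hy => ?_⟩
  have h1 : f y = (g : C → ℝ) ⟨y, hy⟩ := congrFun hfg ⟨y, hy⟩
  rw [h1, ← hval, hconst y hy x₁ x₁.2, hval]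
  exact hx₁

/-- semialgebraic sets -/
def SemiAlg (Ω : Set E) : Prop := ∃ (k : ℕ) (f : Fin k → E → ℝ), (∀ i, ∃ n, f i ∈ affF E ^ n) ∧
  ∀ x y, (∀ i, SignType.sign (f i x) = SignType.sign (f i y)) → x ∈ Ω → y ∈ Ω

theorem prod_ne {P : Type} [NormedAddCommGroup P] [NormedSpace ℝ P] [FiniteDimensional ℝ P]
    {ι : Type} [DecidableEq ι] (I : Finset ι) (g : ι → P → ℝ)
    (hg : ∀ i ∈ I, ∃ n, g i ∈ affF P ^ n) (h : ∀ i ∈ I, ∃ x, g i x ≠ 0) :
    (∃ n, (∏ i ∈ I, g i) ∈ affF P ^ n) ∧ ∃ z, (∏ i ∈ I, g i) z ≠ 0 := by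
  induction I using Finset.induction_on with
  | empty =>
    refine ⟨⟨0, ?_⟩, 0, by simp⟩
    rw [Finset.prod_empty]
    exact const_mem 0 1
  | insert a I ha ih =>
    obtain ⟨⟨n, hn⟩, z, hz⟩ := ih (fun i hi => hg i (Finset.mem_insert_of_mem hi))
      (fun i hi => h i (Finset.mem_insert_of_mem hi))
    obtain ⟨m, hm⟩ := hg a (Finset.mem_insert_self a I)
    obtain ⟨y, hy⟩ := h a (Finset.mem_insert_self a I)
    rw [Finset.prod_insert ha]
    refine ⟨⟨m + n, ?_⟩, ?_⟩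
    · rw [pow_add]
      exact Submodule.mul_mem_mul hm hn
    · obtain ⟨t, h1, h2⟩ := mul_ne hm hn hy hz
      exact ⟨t, by rw [Pi.mul_apply]; exact mul_ne_zero h1 h2⟩

theorem dichotomy (hS : ∀ s ∈ S, s⁻¹ ∈ S) (hgen : Subgroup.closure (S : Set Γ) = ⊤)
    (hG : Good X S hol C) {Ω : Set E} (hΩ : ∀ γ, ∀ x ∈ Ω, hol γ x ∈ Ω) (hsa : SemiAlg Ω)
    (hne : (C ∩ Ω).Nonempty) : C ⊆ Ω := by
  classical
  obtain ⟨k, f, hf, hfs⟩ := hsa
  obtain ⟨P, _, _, _, φ, ψ, hφ, hψφ, hφψ, hφC⟩ := hG.par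
  have hφc : Continuous φ := hφ.continuous
  have hfc : ∀ i, Continuous (f i) := fun i => by
    obtain ⟨n, hn⟩ := hf i
    exact (diffr hn).1.continuous
  have hΩ' : ∀ γ, ∀ x, hol γ x ∈ Ω → x ∈ Ω := fun γ x hx => by
    have := hΩ γ⁻¹ _ hx
    rwa [hol_inv_apply] at this
  have hC' : ∀ γ, ∀ x, hol γ x ∈ C → x ∈ C := fun γ x hx => by
    have := hG.inv γ⁻¹ _ hx
    rwa [hol_inv_apply] at this
  let I : Finset (Fin k) := Finset.univ.filter fun i => ∃ x ∈ C, f i x ≠ 0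
  have hI : ∀ i ∉ I, ∀ x ∈ C, f i x = 0 := by
    intro i hi x hx
    by_contra h
    exact hi (Finset.mem_filter.2 ⟨Finset.mem_univ i, x, hx, h⟩)
  -- the product
  have hF : ∃ n, (∏ i ∈ I, f i) ∈ affF E ^ n := by
    have : ∀ J : Finset (Fin k), ∃ n, (∏ i ∈ J, f i) ∈ affF E ^ n := by
      intro J
      induction J using Finset.induction_on with
      | empty =>
        refine ⟨0, ?_⟩
        rw [Finset.prod_empty]
        exact const_mem 0 1
      | insert a J ha ih =>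
        obtain ⟨n, hn⟩ := ih
        obtain ⟨m, hm⟩ := hf a
        refine ⟨m + n, ?_⟩
        rw [Finset.prod_insert ha, pow_add]
        exact Submodule.mul_mem_mul hm hn
    exact this I
  obtain ⟨N, hN⟩ := hF
  have hFz : ∃ z : P, (∏ i ∈ I, f i) (φ z) ≠ 0 := by
    obtain ⟨d, hd⟩ := hφ
    obtain ⟨-, z, hz⟩ := prod_ne I (fun i y => f i (φ y)) (fun i _ => by
      obtain ⟨n, hn⟩ := hf i
      exact ⟨d * n, comp_mem hd hn⟩) (fun i hi => by
      obtain ⟨-, x, hx, hfx⟩ := Finset.mem_filter.1 hi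
      exact ⟨ψ x, by rw [hφψ x hx]; exact hfx⟩)
    refine ⟨z, ?_⟩
    rw [Finset.prod_apply] at hz ⊢
    exact hz
  -- the boundary
  by_contra hsub
  obtain ⟨x₁, hx₁C, hx₁Ω⟩ := hne
  obtain ⟨y₁, hy₁C, hy₁Ω⟩ := Set.not_subset.1 hsub
  let bd : Set E := {p | p ∈ C ∧ p ∈ closure (C ∩ Ω) ∧ p ∈ closure (C \ Ω)}
  have hbdne : bd.Nonempty := by
    let A : Set P := φ ⁻¹' Ω
    have hA1 : ψ x₁ ∈ A := by show φ (ψ x₁) ∈ Ω; rwa [hφψ x₁ hx₁C]
    have hA2 : ψ y₁ ∉ A := by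
      intro h
      have : φ (ψ y₁) ∈ Ω := h
      rw [hφψ y₁ hy₁C] at this
      exact hy₁Ω this
    have hfr : (frontier A).Nonempty := by
      rw [nonempty_frontier_iff]
      exact ⟨⟨_, hA1⟩, fun h => hA2 (by rw [h]; trivial)⟩
    obtain ⟨z, hz⟩ := hfr
    rw [frontier_eq_closure_inter_closure] at hz
    refine ⟨φ z, hφC z, ?_, ?_⟩
    · have h1 := image_closure_subset_closure_image hφc ⟨z, hz.1, rfl⟩
      refine closure_mono ?_ h1
      rintro _ ⟨a, ha, rfl⟩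
      exact ⟨hφC a, ha⟩
    · have h1 := image_closure_subset_closure_image hφc ⟨z, hz.2, rfl⟩
      refine closure_mono ?_ h1
      rintro _ ⟨a, ha, rfl⟩
      exact ⟨hφC a, ha⟩
  have hbdi : ∀ γ, ∀ p ∈ bd, hol γ p ∈ bd := by
    rintro γ p ⟨h1, h2, h3⟩
    refine ⟨hG.inv γ p h1, ?_, ?_⟩
    · have h4 := image_closure_subset_closure_image (hol_cont (hol γ)) ⟨p, h2, rfl⟩
      refine closure_mono ?_ h4
      rintro _ ⟨a, ha, rfl⟩
      exact ⟨hG.inv γ a ha.1, hΩ γ a ha.2⟩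
    · have h4 := image_closure_subset_closure_image (hol_cont (hol γ)) ⟨p, h3, rfl⟩
      refine closure_mono ?_ h4
      rintro _ ⟨a, ha, rfl⟩
      exact ⟨hG.inv γ a ha.1, fun h => ha.2 (hΩ' γ a h)⟩
  have hbd0 : ∀ p ∈ bd, (∏ i ∈ I, f i) p = 0 := by
    rintro p ⟨hpC, hp1, hp2⟩
    by_contra hne0
    rw [Finset.prod_apply, ← ne_eq, Finset.prod_ne_zero_iff] at hne0
    have hnear : ∀ᶠ y in 𝓝 p, ∀ i ∈ I, SignType.sign (f i y) = SignType.sign (f i p) := by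
      rw [Filter.eventually_all_finset]
      intro i hi
      rcases lt_or_gt_of_ne (hne0 i hi) with h | h
      · filter_upwards [(hfc i).continuousAt.eventually (gt_mem_nhds h)] with y hy
        rw [sign_neg hy, sign_neg h]
      · filter_upwards [(hfc i).continuousAt.eventually (lt_mem_nhds h)] with y hy
        rw [sign_pos hy, sign_pos h]
    have hall : ∀ᶠ y in 𝓝 p, y ∈ C → ∀ i, SignType.sign (f i y) = SignType.sign (f i p) := by
      filter_upwards [hnear] with y hy hyC i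
      by_cases hi : i ∈ I
      · exact hy i hi
      · rw [hI i hi y hyC, hI i hi p hpC]
    rw [mem_closure_iff_frequently] at hp1 hp2
    obtain ⟨y, ⟨hyC, hyΩ⟩, hy⟩ := (hp1.and_eventually hall).exists
    obtain ⟨y', ⟨hyC', hyΩ'⟩, hy'⟩ := (hp2.and_eventually hall).exists
    exact hyΩ' (hfs y y' (fun i => (hy hyC i).trans (hy' hyC' i).symm) hyΩ)
  -- the space of polynomials which vanish on the boundary
  let W : Submodule ℝ (E → ℝ) :=
    { carrier := {g | g ∈ affF E ^ N ∧ ∀ p ∈ bd, g p = 0}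
      add_mem' := fun {a b} ha hb => ⟨Submodule.add_mem _ ha.1 hb.1, fun p hp => by
        rw [Pi.add_apply, ha.2 p hp, hb.2 p hp, add_zero]⟩
      zero_mem' := ⟨Submodule.zero_mem _, fun _ _ => rfl⟩
      smul_mem' := fun c a ha => ⟨Submodule.smul_mem _ c ha.1, fun p hp => by
        rw [Pi.smul_apply, ha.2 p hp, smul_zero]⟩ }
  have hWi : ∀ γ, ∀ g ∈ W, (fun x => g (hol γ x)) ∈ W := by
    rintro γ g ⟨h1, h2⟩
    refine ⟨?_, fun p hp => h2 _ (hbdi γ p hp)⟩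
    have h3 : ∀ l : E →ₗ[ℝ] ℝ, (fun x => l (hol γ x)) ∈ affF E ^ 1 := by
      intro l
      rw [pow_one]
      refine ⟨l ∘ₗ ((hol γ).linear : E →ₗ[ℝ] E), l (hol γ 0), funext fun x => ?_⟩
      have h4 := hol_add (hol := hol) γ 0 x
      rw [zero_add] at h4
      rw [h4, map_add, add_comm]
      rfl
    have h5 := comp_mem h3 h1
    rwa [one_mul] at h5
  obtain ⟨z, hz⟩ := hFz
  obtain ⟨g, hg, hgC⟩ := nonvanishing hS hgen hG.inv hG.star (N := N) (W := W) (fun g hg => hg.1)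
    hWi ⟨_, ⟨hN, hbd0⟩, φ z, hφC z, hz⟩
  obtain ⟨p, hp⟩ := hbdne
  exact hgC p hp.1 (hg.2 p hp)

end Pool.Agent.U352.SA
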